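import Mathlib

set_option autoImplicit false

namespace Pool.Agent.H23.Box

open Finset Filter Topology

/-- sign patterns: sets of coordinates (among `1..n`) with negative sign -/
def pw (n : ℕ) : Finset (Finset ℕ) := (Icc 1 n).powerset

lemma mem_pw {n : ℕ} {S : Finset ℕ} : S ∈ pw n ↔ S ⊆ Icc 1 n := by simp [pw]

/-- A configuration of marked lines, one for each sign pattern, written in reflected coordinates:
the marked point is `U S`, the (positive) direction is `W S`. -/
structure Cfg (n : ℕ) (U W : Finset ℕ → ℕ → ℝ) : Prop where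
  pos : ∀ S ∈ pw n, ∀ i ≤ n, 0 < W S i
  dist : ∀ S ∈ pw n, ∀ T ∈ pw n, S ≠ T → U S 0 ≠ U T 0
  pathA : ∀ S ∈ pw n, ∀ T ∈ pw n, S ≠ T → ∀ i < n, (i ∈ S ↔ i ∈ T) → (i + 1 ∈ S ↔ i + 1 ∈ T) →
    W T (i + 1) * (U S i - U T i) < (U S (i + 1) - U T (i + 1)) * W T i
  pathB : ∀ S ∈ pw n, ∀ T ∈ pw n, ∀ i < n, ¬ (i ∈ S ↔ i ∈ T) → ¬ (i + 1 ∈ S ↔ i + 1 ∈ T) →
    W T (i + 1) * (U S i + U T i) < (U S (i + 1) + U T (i + 1)) * W T i
  close : ∀ S ∈ pw n, ∀ T ∈ pw n, S ≠ T → (n ∈ S ↔ n ∈ T) →
    W T 0 * (U S n - U T n) < (U S 0 - U T 0) * W T n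

/-- perturbed marked point -/
noncomputable def pU (U W : Finset ℕ → ℕ → ℝ) (θ : ℝ) (a : Bool) (S : Finset ℕ) (i : ℕ) : ℝ :=
  if a then U S i + θ * W S i * (1 + θ) ^ i else U S i

/-- perturbed direction -/
noncomputable def pW (W : Finset ℕ → ℕ → ℝ) (θ : ℝ) (a : Bool) (S : Finset ℕ) (i : ℕ) : ℝ :=
  if a then W S i * (1 + θ) ^ (2 * i) else W S i

lemma pU_cont (U W : Finset ℕ → ℕ → ℝ) (a : Bool) (S : Finset ℕ) (i : ℕ) :
    Continuous (fun θ => pU U W θ a S i) := by
  unfold pU; cases a
  · simp; exact continuous_const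
  · simp; fun_prop

lemma pW_cont (W : Finset ℕ → ℕ → ℝ) (a : Bool) (S : Finset ℕ) (i : ℕ) :
    Continuous (fun θ => pW W θ a S i) := by
  unfold pW; cases a
  · simp; exact continuous_const
  · simp; fun_prop

lemma pU_zero (U W : Finset ℕ → ℕ → ℝ) (a : Bool) (S : Finset ℕ) (i : ℕ) :
    pU U W 0 a S i = U S i := by
  unfold pU; cases a <;> simp

lemma pW_zero (W : Finset ℕ → ℕ → ℝ) (a : Bool) (S : Finset ℕ) (i : ℕ) :
    pW W 0 a S i = W S i := by
  unfold pW; cases a <;> simp

/-- strict inequalities persist for small positive parameters -/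
lemma small_of_zero {f g : ℝ → ℝ} (hf : Continuous f) (hg : Continuous g) (h : f 0 < g 0) :
    ∀ᶠ θ in 𝓝[>] (0 : ℝ), f θ < g θ :=
  (hf.continuousAt.eventually_lt hg.continuousAt h).filter_mono nhdsWithin_le_nhds

lemma small_ne_of_zero {f g : ℝ → ℝ} (hf : Continuous f) (hg : Continuous g) (h : f 0 ≠ g 0) :
    ∀ᶠ θ in 𝓝[>] (0 : ℝ), f θ ≠ g θ :=
  ((hf.continuousAt.ne_iff_eventually_ne hg.continuousAt).mp h).filter_mono nhdsWithin_le_nhds

lemma small_pos : ∀ᶠ θ in 𝓝[>] (0 : ℝ), 0 < θ := self_mem_nhdsWithin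

/-- first perturbation stage -/
lemma stage1 (n : ℕ) (U W : Finset ℕ → ℕ → ℝ) (h : Cfg n U W) :
    ∃ θ : ℝ, 0 < θ ∧
      (∀ S ∈ pw n, ∀ T ∈ pw n, ∀ a b : Bool, (S ≠ T ∨ a ≠ b) → pU U W θ a S 0 ≠ pU U W θ b T 0) ∧
      (∀ S ∈ pw n, ∀ T ∈ pw n, ∀ a b : Bool, (S ≠ T ∨ a ≠ b) → ∀ i < n, (i ∈ S ↔ i ∈ T) →
        (i + 1 ∈ S ↔ i + 1 ∈ T) →
        pW W θ b T (i + 1) * (pU U W θ a S i - pU U W θ b T i) <
          (pU U W θ a S (i + 1) - pU U W θ b T (i + 1)) * pW W θ b T i) ∧
      (∀ S ∈ pw n, ∀ T ∈ pw n, ∀ a b : Bool, ∀ i < n, ¬ (i ∈ S ↔ i ∈ T) → ¬ (i + 1 ∈ S ↔ i + 1 ∈ T) →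
        pW W θ b T (i + 1) * (pU U W θ a S i + pU U W θ b T i) <
          (pU U W θ a S (i + 1) + pU U W θ b T (i + 1)) * pW W θ b T i) ∧
      (∀ S ∈ pw n, ∀ T ∈ pw n, ∀ a : Bool, S ≠ T → (n ∈ S ↔ n ∈ T) →
        pW W θ a T 0 * (pU U W θ a S n - pU U W θ a T n) <
          (pU U W θ a S 0 - pU U W θ a T 0) * pW W θ a T n) := by
  have e1 : ∀ᶠ θ in 𝓝[>] (0 : ℝ), ∀ S ∈ pw n, ∀ T ∈ pw n, ∀ a b : Bool, (S ≠ T ∨ a ≠ b) →
      pU U W θ a S 0 ≠ pU U W θ b T 0 := by
    rw [eventually_all_finset]; intro S hS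
    rw [eventually_all_finset]; intro T hT
    rw [eventually_all]; intro a
    rw [eventually_all]; intro b
    by_cases hST : S = T
    · subst hST
      filter_upwards [small_pos] with θ hθ hab
      have hw := h.pos S hS 0 (by omega)
      have hab' : a ≠ b := by
        rcases hab with h' | h'
        · exact absurd rfl h'
        · exact h'
      have hp : 0 < θ * W S 0 := mul_pos hθ hw
      cases a <;> cases b <;> simp [pU] at hab' ⊢
      · constructor
        · exact hθ.ne'
        · exact hw.ne'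
      · constructor
        · exact hθ.ne'
        · exact hw.ne'
    · have := small_ne_of_zero (pU_cont U W a S 0) (pU_cont U W b T 0)
        (by rw [pU_zero, pU_zero]; exact h.dist S hS T hT hST)
      filter_upwards [this] with θ hθ _
      exact hθ
  have e2 : ∀ᶠ θ in 𝓝[>] (0 : ℝ), ∀ S ∈ pw n, ∀ T ∈ pw n, ∀ a b : Bool, (S ≠ T ∨ a ≠ b) →
      ∀ i ∈ range n, (i ∈ S ↔ i ∈ T) → (i + 1 ∈ S ↔ i + 1 ∈ T) →
        pW W θ b T (i + 1) * (pU U W θ a S i - pU U W θ b T i) <
          (pU U W θ a S (i + 1) - pU U W θ b T (i + 1)) * pW W θ b T i := by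
    rw [eventually_all_finset]; intro S hS
    rw [eventually_all_finset]; intro T hT
    rw [eventually_all]; intro a
    rw [eventually_all]; intro b
    rw [eventually_imp_distrib_left]; intro hab
    rw [eventually_all_finset]; intro i hi
    rw [eventually_imp_distrib_left]; intro h1
    rw [eventually_imp_distrib_left]; intro h2
    have hi' : i < n := by simpa using hi
    by_cases hST : S = T
    · subst hST
      have hab' : a ≠ b := by
        rcases hab with h' | h'
        · exact absurd rfl h'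
        · exact h'
      filter_upwards [small_pos] with θ hθ
      have hw0 := h.pos S hS i (by omega)
      have hw1 := h.pos S hS (i + 1) (by omega)
      have hp : 0 < (1 + θ) ^ i := by positivity
      have hp3 : 0 < (1 + θ) ^ (2 * i) := by positivity
      cases a <;> cases b
      · exact absurd rfl hab'
      · simp only [pU, pW, if_true, Bool.false_eq_true, if_false]
        have e : W S i * (1 + θ) ^ (2 * i) * (U S (i + 1) - (U S (i + 1) + θ * W S (i + 1) * (1 + θ) ^ (i + 1)))
            - W S (i + 1) * (1 + θ) ^ (2 * (i + 1)) * (U S i - (U S i + θ * W S i * (1 + θ) ^ i)) =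
            θ * θ * (1 + θ) * (W S i * W S (i + 1)) * ((1 + θ) ^ (2 * i) * (1 + θ) ^ i) := by
          ring
        have : 0 < θ * θ * (1 + θ) * (W S i * W S (i + 1)) * ((1 + θ) ^ (2 * i) * (1 + θ) ^ i) := by
          positivity
        linarith
      · simp only [pU, pW, if_true, Bool.false_eq_true, if_false]
        have e : (U S (i + 1) + θ * W S (i + 1) * (1 + θ) ^ (i + 1) - U S (i + 1)) * W S i
            - W S (i + 1) * (U S i + θ * W S i * (1 + θ) ^ i - U S i) =
            θ * θ * (W S i * W S (i + 1)) * (1 + θ) ^ i := by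
          ring
        have : 0 < θ * θ * (W S i * W S (i + 1)) * (1 + θ) ^ i := by positivity
        linarith
      · exact absurd rfl hab'
    · apply small_of_zero
      · exact (pW_cont W b T (i + 1)).mul ((pU_cont U W a S i).sub (pU_cont U W b T i))
      · exact ((pU_cont U W a S (i + 1)).sub (pU_cont U W b T (i + 1))).mul (pW_cont W b T i)
      · simp only [pU_zero, pW_zero]
        exact h.pathA S hS T hT hST i hi' h1 h2
  have e3 : ∀ᶠ θ in 𝓝[>] (0 : ℝ), ∀ S ∈ pw n, ∀ T ∈ pw n, ∀ a b : Bool,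
      ∀ i ∈ range n, ¬ (i ∈ S ↔ i ∈ T) → ¬ (i + 1 ∈ S ↔ i + 1 ∈ T) →
        pW W θ b T (i + 1) * (pU U W θ a S i + pU U W θ b T i) <
          (pU U W θ a S (i + 1) + pU U W θ b T (i + 1)) * pW W θ b T i := by
    rw [eventually_all_finset]; intro S hS
    rw [eventually_all_finset]; intro T hT
    rw [eventually_all]; intro a
    rw [eventually_all]; intro b
    rw [eventually_all_finset]; intro i hi
    rw [eventually_imp_distrib_left]; intro h1
    rw [eventually_imp_distrib_left]; intro h2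
    have hi' : i < n := by simpa using hi
    apply small_of_zero
    · exact (pW_cont W b T (i + 1)).mul ((pU_cont U W a S i).add (pU_cont U W b T i))
    · exact ((pU_cont U W a S (i + 1)).add (pU_cont U W b T (i + 1))).mul (pW_cont W b T i)
    · simp only [pU_zero, pW_zero]
      exact h.pathB S hS T hT i hi' h1 h2
  have e4 : ∀ᶠ θ in 𝓝[>] (0 : ℝ), ∀ S ∈ pw n, ∀ T ∈ pw n, ∀ a : Bool, S ≠ T → (n ∈ S ↔ n ∈ T) →
        pW W θ a T 0 * (pU U W θ a S n - pU U W θ a T n) <
          (pU U W θ a S 0 - pU U W θ a T 0) * pW W θ a T n := by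
    rw [eventually_all_finset]; intro S hS
    rw [eventually_all_finset]; intro T hT
    rw [eventually_all]; intro a
    rw [eventually_imp_distrib_left]; intro h1
    rw [eventually_imp_distrib_left]; intro h2
    apply small_of_zero
    · exact (pW_cont W a T 0).mul ((pU_cont U W a S n).sub (pU_cont U W a T n))
    · exact ((pU_cont U W a S 0).sub (pU_cont U W a T 0)).mul (pW_cont W a T n)
    · simp only [pU_zero, pW_zero]
      exact h.close S hS T hT h1 h2
  obtain ⟨θ, h1, h2, h3, h4, h5⟩ := (small_pos.and (e1.and (e2.and (e3.and e4)))).exists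
  exact ⟨θ, h1, h2, fun S hS T hT a b hab i hi => h3 S hS T hT a b hab i (by simpa using hi),
    fun S hS T hT a b i hi => h4 S hS T hT a b i (by simpa using hi), h5⟩

lemma erase_mem_pw {n : ℕ} {S : Finset ℕ} (h : S ∈ pw (n + 1)) : S.erase (n + 1) ∈ pw n := by
  rw [mem_pw] at h ⊢
  intro x hx
  rw [Finset.mem_erase] at hx
  have := h hx.2
  simp at this ⊢
  omega

lemma mem_erase_iff' {n i : ℕ} (hi : i ≤ n) (S : Finset ℕ) : i ∈ S.erase (n + 1) ↔ i ∈ S := by
  rw [Finset.mem_erase]
  constructor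
  · exact fun h => h.2
  · intro h; exact ⟨by omega, h⟩

/-- different patterns have different restriction or different last sign -/
lemma pattern_ne {n : ℕ} {S T : Finset ℕ} (h : S ≠ T) :
    S.erase (n + 1) ≠ T.erase (n + 1) ∨ decide (n + 1 ∈ S) ≠ decide (n + 1 ∈ T) := by
  by_contra hcon
  push Not at hcon
  obtain ⟨h1, h2⟩ := hcon
  apply h
  ext x
  by_cases hx : x = n + 1
  · subst hx
    simpa using h2
  · have := congrArg (fun A => x ∈ A) h1
    simp [hx] at this
    exact this

theorem cfg_step (n : ℕ) (U W : Finset ℕ → ℕ → ℝ) (h : Cfg n U W) :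
    ∃ U' W' : Finset ℕ → ℕ → ℝ, Cfg (n + 1) U' W' := by
  obtain ⟨θ, hθ, g1, g2, g3, g4⟩ := stage1 n U W h
  have hpos : ∀ S ∈ pw n, ∀ a : Bool, ∀ i ≤ n, 0 < pW W θ a S i := by
    intro S hS a i hi
    have := h.pos S hS i hi
    unfold pW; cases a
    · simpa using this
    · simp; positivity
  -- second stage
  have e1 : ∀ᶠ η in 𝓝[>] (0 : ℝ), ∀ S ∈ pw n, ∀ a : Bool, 0 < 1 - 2 * η * pU U W θ a S 0 := by
    rw [eventually_all_finset]; intro S hS
    rw [eventually_all]; intro a
    apply small_of_zero (f := fun _ => 0) (g := fun η => 1 - 2 * η * pU U W θ a S 0)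
    · fun_prop
    · fun_prop
    · simp
  have e2 : ∀ᶠ η in 𝓝[>] (0 : ℝ), ∀ S ∈ pw n, ∀ T ∈ pw n, ∀ a : Bool, S ≠ T → (n ∈ S ↔ n ∈ T) →
      (pW W θ a T 0 * (1 - 2 * η * pU U W θ a T 0)) * (pU U W θ a S n - pU U W θ a T n) <
        ((pU U W θ a S 0 - pU U W θ a T 0) * (1 - η * (pU U W θ a S 0 + pU U W θ a T 0)))
          * pW W θ a T n := by
    rw [eventually_all_finset]; intro S hS
    rw [eventually_all_finset]; intro T hT
    rw [eventually_all]; intro a
    rw [eventually_imp_distrib_left]; intro h1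
    rw [eventually_imp_distrib_left]; intro h2
    apply small_of_zero (f := fun η => (pW W θ a T 0 * (1 - 2 * η * pU U W θ a T 0)) * (pU U W θ a S n - pU U W θ a T n))
      (g := fun η => ((pU U W θ a S 0 - pU U W θ a T 0) * (1 - η * (pU U W θ a S 0 + pU U W θ a T 0)))
          * pW W θ a T n)
    · fun_prop
    · fun_prop
    · simp only [mul_zero, zero_mul, sub_zero, mul_one]
      exact g4 S hS T hT a h1 h2
  obtain ⟨η, hη, k1, k2⟩ := (small_pos.and (e1.and e2)).exists
  -- third stage
  have e3 : ∀ᶠ C in atTop, ∀ S ∈ pw n, ∀ T ∈ pw n, ∀ a b : Bool,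
      (pW W θ b T 0 * (1 - 2 * η * pU U W θ b T 0)) * (pU U W θ a S n + pU U W θ b T n) <
        ((C + pU U W θ a S 0 - η * pU U W θ a S 0 ^ 2) + (C + pU U W θ b T 0 - η * pU U W θ b T 0 ^ 2))
          * pW W θ b T n := by
    rw [eventually_all_finset]; intro S hS
    rw [eventually_all_finset]; intro T hT
    rw [eventually_all]; intro a
    rw [eventually_all]; intro b
    have hw := hpos T hT b n (le_refl _)
    set A := (pW W θ b T 0 * (1 - 2 * η * pU U W θ b T 0)) * (pU U W θ a S n + pU U W θ b T n)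
    set B := pU U W θ a S 0 - η * pU U W θ a S 0 ^ 2 + (pU U W θ b T 0 - η * pU U W θ b T 0 ^ 2)
    filter_upwards [eventually_gt_atTop ((A / pW W θ b T n - B) / 2)] with C hC
    have h1 : A / pW W θ b T n < 2 * C + B := by linarith
    have h2 : A < (2 * C + B) * pW W θ b T n := by
      rwa [div_lt_iff₀ hw] at h1
    calc A < (2 * C + B) * pW W θ b T n := h2
      _ = _ := by simp only [B]; ring
  obtain ⟨C, k3⟩ := e3.exists
  refine ⟨fun S i => if i ≤ n then pU U W θ (decide (n + 1 ∈ S)) (S.erase (n + 1)) i else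
      (C + pU U W θ (decide (n + 1 ∈ S)) (S.erase (n + 1)) 0
        - η * pU U W θ (decide (n + 1 ∈ S)) (S.erase (n + 1)) 0 ^ 2),
    fun S i => if i ≤ n then pW W θ (decide (n + 1 ∈ S)) (S.erase (n + 1)) i else
      (pW W θ (decide (n + 1 ∈ S)) (S.erase (n + 1)) 0 *
        (1 - 2 * η * pU U W θ (decide (n + 1 ∈ S)) (S.erase (n + 1)) 0)), ?_⟩
  constructor
  · intro S hS i hi
    have hS' := erase_mem_pw hS
    by_cases hin : i ≤ n
    · simp only [hin, if_true]
      exact hpos _ hS' _ i hin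
    · simp only [hin, if_false]
      exact mul_pos (hpos _ hS' _ 0 (by omega)) (k1 _ hS' _)
  · intro S hS T hT hST
    simp only [Nat.zero_le, if_true]
    exact g1 _ (erase_mem_pw hS) _ (erase_mem_pw hT) _ _ (pattern_ne hST)
  · intro S hS T hT hST i hi h1 h2
    have hS' := erase_mem_pw hS
    have hT' := erase_mem_pw hT
    have hin : i ≤ n := by omega
    rcases Nat.lt_or_ge i n with hlt | hge
    · have hin1 : i + 1 ≤ n := by omega
      simp only [hin, hin1, if_true]
      apply g2 _ hS' _ hT' _ _ (pattern_ne hST) i hlt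
      · rw [mem_erase_iff' hin, mem_erase_iff' hin]; exact h1
      · rw [mem_erase_iff' hin1, mem_erase_iff' hin1]; exact h2
    · have hEq : i = n := by omega
      subst hEq
      have hn1 : ¬ (i + 1 ≤ i) := by omega
      simp only [le_refl, hn1, if_true, if_false]
      have hd : decide (i + 1 ∈ S) = decide (i + 1 ∈ T) := by simpa using h2
      have hne : S.erase (i + 1) ≠ T.erase (i + 1) := by
        rcases pattern_ne (n := i) hST with h' | h'
        · exact h'
        · exact absurd hd h'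
      rw [hd]
      have := k2 _ hS' _ hT' (decide (i + 1 ∈ T)) hne
        (by rw [mem_erase_iff' (le_refl i), mem_erase_iff' (le_refl i)]; exact h1)
      calc _ < _ := this
        _ = _ := by ring
  · intro S hS T hT i hi h1 h2
    have hS' := erase_mem_pw hS
    have hT' := erase_mem_pw hT
    have hin : i ≤ n := by omega
    rcases Nat.lt_or_ge i n with hlt | hge
    · have hin1 : i + 1 ≤ n := by omega
      simp only [hin, hin1, if_true]
      apply g3 _ hS' _ hT' _ _ i hlt
      · rw [mem_erase_iff' hin, mem_erase_iff' hin]; exact h1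
      · rw [mem_erase_iff' hin1, mem_erase_iff' hin1]; exact h2
    · have hEq : i = n := by omega
      subst hEq
      have hn1 : ¬ (i + 1 ≤ i) := by omega
      simp only [le_refl, hn1, if_true, if_false]
      exact k3 _ hS' _ hT' _ _
  · intro S hS T hT hST h1
    have hS' := erase_mem_pw hS
    have hT' := erase_mem_pw hT
    have hn1 : ¬ (n + 1 ≤ n) := by omega
    simp only [Nat.zero_le, hn1, if_true, if_false]
    have hd : decide (n + 1 ∈ S) = decide (n + 1 ∈ T) := by simpa using h1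
    have hne : S.erase (n + 1) ≠ T.erase (n + 1) := by
      rcases pattern_ne (n := n) hST with h' | h'
      · exact h'
      · exact absurd hd h'
    rw [hd]
    set a := decide (n + 1 ∈ T)
    have hX := g1 _ hS' _ hT' a a (Or.inl hne)
    set X := pU U W θ a (S.erase (n + 1)) 0
    set Y := pU U W θ a (T.erase (n + 1)) 0
    have hw := hpos _ hT' a 0 (by omega)
    set w := pW W θ a (T.erase (n + 1)) 0
    have hsq : 0 < (X - Y) ^ 2 := by
      have : X - Y ≠ 0 := sub_ne_zero.mpr hX
      positivity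
    have e : (X - Y) * (w * (1 - 2 * η * Y)) - w * (C + X - η * X ^ 2 - (C + Y - η * Y ^ 2)) =
        w * η * (X - Y) ^ 2 := by ring
    have : 0 < w * η * (X - Y) ^ 2 := by positivity
    linarith

theorem cfg_exists (n : ℕ) (hn : 1 ≤ n) : ∃ U W : Finset ℕ → ℕ → ℝ, Cfg n U W := by
  induction n, hn using Nat.le_induction with
  | base =>
    refine ⟨fun S _ => if 1 ∈ S then 1 else 0, fun _ _ => 1, ?_⟩
    have key : ∀ S ∈ pw 1, ∀ T ∈ pw 1, (1 ∈ S ↔ 1 ∈ T) → S = T := by
      intro S hS T hT h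
      rw [mem_pw] at hS hT
      ext x
      constructor
      · intro hx
        have h1 := hS hx
        simp at h1
        subst h1
        exact h.mp hx
      · intro hx
        have h1 := hT hx
        simp at h1
        subst h1
        exact h.mpr hx
    have key0 : ∀ S ∈ pw 1, 0 ∉ S := by
      intro S hS h0
      rw [mem_pw] at hS
      have := hS h0
      simp at this
    constructor
    · intro S _ i _; norm_num
    · intro S hS T hT hST heq
      apply hST
      apply key S hS T hT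
      by_cases h1 : 1 ∈ S <;> by_cases h2 : 1 ∈ T <;> simp [h1, h2] at heq ⊢
    · intro S hS T hT hST i hi _ h2
      have : i = 0 := by omega
      subst this
      exact absurd (key S hS T hT h2) hST
    · intro S hS T hT i hi h1 _
      have : i = 0 := by omega
      subst this
      exact absurd (iff_of_false (key0 S hS) (key0 T hT)) h1
    · intro S hS T hT hST h1
      exact absurd (key S hS T hT h1) hST
  | succ n hn ih =>
    obtain ⟨U, W, h⟩ := ih
    exact cfg_step n U W h

end Pool.Agent.H23.Box
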