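import Mathlib

set_option autoImplicit false

namespace Pool.Agent.H23.Box

/-- A box in `ℝ^d`: a closed parallelotope with nonempty interior and edges parallel to the axes. -/
def IsBox {d : ℕ} (B : Set (Fin d → ℝ)) : Prop :=
  ∃ a b : Fin d → ℝ, (∀ i, a i < b i) ∧ B = Set.Icc a b

/-- The family `F` of subsets of `ℝ^d` has a line transversal: some affine line
`{p + t v : t ∈ ℝ}`, with `v ≠ 0`, meets every member of `F`. -/
def HasLineTransversal {d : ℕ} (F : Set (Set (Fin d → ℝ))) : Prop :=
  ∃ p v : Fin d → ℝ, v ≠ 0 ∧ ∀ B ∈ F, ∃ t : ℝ, p + t • v ∈ B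

/-- The Helly property with number `h` for line transversals to boxes in `ℝ^d`: a finite family of
boxes all of whose subfamilies with at most `h` members have a line transversal has one itself. -/
def HellyForLines (d h : ℕ) : Prop :=
  ∀ F : Set (Set (Fin d → ℝ)), F.Finite → (∀ B ∈ F, IsBox B) →
    (∀ G ⊆ F, G.ncard ≤ h → HasLineTransversal G) → HasLineTransversal F

end Pool.Agent.H23.Box
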