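import Mathlib
import Pool.Agent.H23.BoxConfig

set_option autoImplicit false

namespace Pool.Agent.H23.Box

open Finset Filter Topology

/-- sign of a coordinate -/
def sg (S : Finset ℕ) (i : ℕ) : ℝ := if i ∈ S then -1 else 1

lemma sg_sq (S : Finset ℕ) (i : ℕ) : sg S i * sg S i = 1 := by
  unfold sg; split_ifs <;> norm_num

/-- cyclic successor on `0..n` -/
def nx (n k : ℕ) : ℕ := if k = n then 0 else k + 1

lemma nx_le {n k : ℕ} (h : k ≤ n) : nx n k ≤ n := by
  unfold nx; split_ifs <;> omega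

lemma nx_ne {n k : ℕ} (hn : 1 ≤ n) : nx n k ≠ k := by
  unfold nx; split_ifs <;> omega

/-- labels of the boxes belonging to one sign pattern -/
def arcs (n : ℕ) : Finset (ℕ × ℤ) := (range n ×ˢ {-1, 1}) ∪ {(n, 0)}

lemma mem_arcs {n : ℕ} {c : ℕ × ℤ} : c ∈ arcs n ↔ (c.1 < n ∧ (c.2 = -1 ∨ c.2 = 1)) ∨ (c.1 = n ∧ c.2 = 0) := by
  obtain ⟨k, τ⟩ := c
  simp [arcs]
  tauto

lemma card_arcs (n : ℕ) : (arcs n).card = 2 * n + 1 := by
  unfold arcs
  rw [Finset.card_union_of_disjoint]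
  · rw [Finset.card_product, Finset.card_range, Finset.card_singleton]
    have : ({-1, 1} : Finset ℤ).card = 2 := by decide
    rw [this]; ring
  · rw [Finset.disjoint_singleton_right]
    simp

lemma card_pw (n : ℕ) : (pw n).card = 2 ^ n := by
  simp [pw]

/-- the region (unbounded box) attached to a sign pattern and a label -/
def Q (n : ℕ) (U W : Finset ℕ → ℕ → ℝ) (ξ : ℝ) (S : Finset ℕ) (c : ℕ × ℤ) (x : ℕ → ℝ) : Prop :=
  U S c.1 + ((c.2 : ℝ) * ξ + ξ ^ 3) * W S c.1 ≤ sg S c.1 * x c.1 ∧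
  sg S (nx n c.1) * x (nx n c.1) ≤ U S (nx n c.1) + (c.2 : ℝ) * ξ * W S (nx n c.1)

/-- time change of the line attached to the label `b` -/
noncomputable def ph (ξ : ℝ) (b : ℕ × ℤ) (k : ℕ) (t : ℝ) : ℝ :=
  if k ≤ b.1 then t - k * ξ ^ 3 else
    -(b.2 : ℝ) * ξ + (1 + (b.2 : ℝ) * ξ) * (t + (b.2 : ℝ) * ξ - (b.1 + 1) * ξ ^ 3) - ((k : ℝ) - b.1 - 1) * ξ ^ 3

/-- the point of the line attached to `(S, b)` at time `t` -/
noncomputable def M (U W : Finset ℕ → ℕ → ℝ) (ξ : ℝ) (S : Finset ℕ) (b : ℕ × ℤ) (t : ℝ) (k : ℕ) : ℝ :=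
  sg S k * (U S k + ph ξ b k t * W S k)

/-- own boxes -/
lemma own_meet (n : ℕ) (U W : Finset ℕ → ℕ → ℝ) (hW : ∀ S ∈ pw n, ∀ i ≤ n, 0 < W S i) (ξ : ℝ)
    (h0 : 0 < ξ) (h1 : ξ * (2 * n + 1) ≤ 1) (hn : 1 ≤ n) (S : Finset ℕ) (hS : S ∈ pw n) (b c : ℕ × ℤ)
    (hb : b ∈ arcs n) (hc : c ∈ arcs n) (hbc : c ≠ b) :
    ∃ t, Q n U W ξ S c (M U W ξ S b t) := by
  have hn' : (1 : ℝ) ≤ n := by exact_mod_cast hn
  have hξ1 : ξ < 1 := by nlinarith
  have hξ3 : 0 < ξ ^ 3 := by positivity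
  obtain ⟨i, τ⟩ := b
  obtain ⟨k, σ⟩ := c
  -- reduce to time changes
  suffices h : ∃ t, (σ : ℝ) * ξ + ξ ^ 3 ≤ ph ξ (i, τ) k t ∧ ph ξ (i, τ) (nx n k) t ≤ (σ : ℝ) * ξ by
    obtain ⟨t, ha, hb'⟩ := h
    have hk : k ≤ n := by
      rcases mem_arcs.mp hc with h | h <;> simp at h <;> omega
    refine ⟨t, ?_, ?_⟩
    · unfold M
      simp only
      rw [← mul_assoc, sg_sq, one_mul]
      have := mul_le_mul_of_nonneg_right ha (hW S hS k hk).le
      linarith
    · unfold M
      simp only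
      rw [← mul_assoc, sg_sq, one_mul]
      have := mul_le_mul_of_nonneg_right hb' (hW S hS _ (nx_le hk)).le
      linarith
  have hi := mem_arcs.mp hb
  have hk := mem_arcs.mp hc
  simp only at hi hk
  have hτ : (τ : ℝ) ^ 2 ≤ 1 ∧ -1 ≤ (τ : ℝ) ∧ (τ : ℝ) ≤ 1 := by
    rcases hi with ⟨_, h | h⟩ | ⟨_, h⟩ <;> subst h <;> norm_num
  have hpos1 : 0 < 1 + (τ : ℝ) * ξ := by nlinarith [hτ.2.1, hτ.2.2]
  rcases Nat.lt_or_ge k n with hkn | hkn
  · have hnx : nx n k = k + 1 := by unfold nx; rw [if_neg (by omega)]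
    rw [hnx]
    rcases Nat.lt_trichotomy k i with hki | hki | hki
    · refine ⟨(σ : ℝ) * ξ + (k + 1) * ξ ^ 3, ?_, ?_⟩
      · unfold ph
        rw [if_pos (show k ≤ i by omega)]
        linarith
      · unfold ph
        rw [if_pos (show k + 1 ≤ i by omega)]
        push_cast
        linarith
    · subst hki
      have hσ : (σ : ℝ) = -(τ : ℝ) := by
        have h2 : σ ≠ τ := by
          intro h; apply hbc; rw [h]
        have h3 : τ = -1 ∨ τ = 1 := by
          rcases hi with h | h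
          · exact h.2
          · omega
        have h4 : σ = -1 ∨ σ = 1 := by
          rcases hk with h | h
          · exact h.2
          · omega
        have : σ = -τ := by omega
        rw [this]; push_cast; ring
      refine ⟨-(τ : ℝ) * ξ + (k + 1) * ξ ^ 3, ?_, ?_⟩
      · unfold ph
        rw [if_pos (le_refl k), hσ]
        linarith
      · unfold ph
        rw [if_neg (show ¬ (k + 1 ≤ k) by omega), hσ]
        push_cast
        have : -(τ : ℝ) * ξ + (1 + (τ : ℝ) * ξ) * (-(τ : ℝ) * ξ + (k + 1) * ξ ^ 3 + (τ : ℝ) * ξ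
            - (k + 1) * ξ ^ 3) - ((k : ℝ) + 1 - k - 1) * ξ ^ 3 = -(τ : ℝ) * ξ := by ring
        linarith
    · refine ⟨((σ : ℝ) * ξ + ((k : ℝ) - i) * ξ ^ 3 + (τ : ℝ) * ξ) / (1 + (τ : ℝ) * ξ) - (τ : ℝ) * ξ
        + (i + 1) * ξ ^ 3, ?_, ?_⟩
      · unfold ph
        rw [if_neg (show ¬ (k ≤ i) by omega)]
        have e : (1 + (τ : ℝ) * ξ) * (((σ : ℝ) * ξ + ((k : ℝ) - i) * ξ ^ 3 + (τ : ℝ) * ξ) / (1 + (τ : ℝ) * ξ)
          - (τ : ℝ) * ξ + (i + 1) * ξ ^ 3 + (τ : ℝ) * ξ - (i + 1) * ξ ^ 3) =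
          (σ : ℝ) * ξ + ((k : ℝ) - i) * ξ ^ 3 + (τ : ℝ) * ξ := by
          have := hpos1.ne'
          field_simp
          ring
        simp only
        rw [e]
        linarith
      · unfold ph
        rw [if_neg (show ¬ (k + 1 ≤ i) by omega)]
        have e : (1 + (τ : ℝ) * ξ) * (((σ : ℝ) * ξ + ((k : ℝ) - i) * ξ ^ 3 + (τ : ℝ) * ξ) / (1 + (τ : ℝ) * ξ)
          - (τ : ℝ) * ξ + (i + 1) * ξ ^ 3 + (τ : ℝ) * ξ - (i + 1) * ξ ^ 3) =
          (σ : ℝ) * ξ + ((k : ℝ) - i) * ξ ^ 3 + (τ : ℝ) * ξ := by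
          have := hpos1.ne'
          field_simp
          ring
        simp only
        rw [e]
        push_cast
        linarith
  · -- closing box
    have hkn' : k = n := by
      rcases hk with h | h <;> omega
    have hσ0 : σ = 0 := by
      rcases hk with h | h
      · omega
      · exact h.2
    subst hkn' hσ0
    have hik : i < k := by
      rcases hi with h | h
      · exact h.1
      · exfalso; apply hbc; rw [h.1, h.2]
    have hτ2 : (τ : ℝ) ^ 2 = 1 := by
      rcases hi with ⟨_, h | h⟩ | ⟨h, _⟩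
      · subst h; norm_num
      · subst h; norm_num
      · omega
    have hnx : nx k k = 0 := by unfold nx; simp
    rw [hnx]
    refine ⟨0, ?_, ?_⟩
    · unfold ph
      rw [if_neg (show ¬ (k ≤ i) by omega)]
      simp only
      have hik' : (i : ℝ) + 1 ≤ k := by exact_mod_cast hik
      have hi0 : (0 : ℝ) ≤ i := Nat.cast_nonneg i
      have e : -(τ : ℝ) * ξ + (1 + (τ : ℝ) * ξ) * (0 + (τ : ℝ) * ξ - (i + 1) * ξ ^ 3)
          - ((k : ℝ) - i - 1) * ξ ^ 3 =
          (τ : ℝ) ^ 2 * ξ ^ 2 - ((1 + (τ : ℝ) * ξ) * (i + 1) + (k - i - 1)) * ξ ^ 3 := by ring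
      rw [e, hτ2]
      have h2 : (1 + (τ : ℝ) * ξ) * ((i : ℝ) + 1) + (k - i - 1) + 1 ≤ 2 * k + 1 := by
        have : (τ : ℝ) * ξ ≤ 1 := by nlinarith [hτ.2.2]
        nlinarith
      have h3 : ((1 + (τ : ℝ) * ξ) * ((i : ℝ) + 1) + (k - i - 1) + 1) * ξ ^ 3 ≤ (2 * k + 1) * ξ ^ 3 :=
        mul_le_mul_of_nonneg_right h2 hξ3.le
      have h4 : (2 * (k : ℝ) + 1) * ξ ^ 3 ≤ ξ ^ 2 := by
        have : (2 * (k : ℝ) + 1) * ξ ^ 3 = (ξ * (2 * k + 1)) * ξ ^ 2 := by ring
        rw [this]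
        have h5 : 0 ≤ ξ ^ 2 := by positivity
        nlinarith
      push_cast
      linarith
    · unfold ph
      rw [if_pos (show 0 ≤ i by omega)]
      simp

lemma ph_cont (b : ℕ × ℤ) (k : ℕ) (t : ℝ) : Continuous (fun ξ => ph ξ b k t) := by
  unfold ph
  split_ifs <;> fun_prop

lemma ph_zero (b : ℕ × ℤ) (k : ℕ) (t : ℝ) : ph 0 b k t = t := by
  unfold ph
  split_ifs <;> simp

/-- existence of a number strictly between -/
lemma exists_time {a b w u : ℝ} (hw : 0 < w) (hu : 0 < u) (h : u * a < b * w) :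
    ∃ t : ℝ, a < t * w ∧ t * u < b := by
  have : a / w < b / u := by
    rw [div_lt_div_iff₀ hw hu]; linarith
  obtain ⟨t, h1, h2⟩ := exists_between this
  refine ⟨t, ?_, ?_⟩
  · rwa [div_lt_iff₀ hw] at h1
  · rwa [lt_div_iff₀ hu] at h2

/-- the unperturbed line of `S` strictly meets the unperturbed regions of `T ≠ S` -/
lemma foreign (n : ℕ) (hn : 1 ≤ n) (U W : Finset ℕ → ℕ → ℝ) (h : Cfg n U W) (S : Finset ℕ) (hS : S ∈ pw n)
    (T : Finset ℕ) (hT : T ∈ pw n) (hST : S ≠ T) (k : ℕ) (hk : k ≤ n) :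
    ∃ t : ℝ, U T k < sg T k * (sg S k * (U S k + t * W S k)) ∧
      sg T (nx n k) * (sg S (nx n k) * (U S (nx n k) + t * W S (nx n k))) < U T (nx n k) := by
  have hw := h.pos S hS k hk
  have hu := h.pos S hS (nx n k) (nx_le hk)
  have h0 : ∀ R ∈ pw n, 0 ∉ R := by
    intro R hR h0
    rw [mem_pw] at hR
    have := hR h0
    simp at this
  -- the key inequality in the two agreeing cases
  have keyA : (k ∈ T ↔ k ∈ S) → (nx n k ∈ T ↔ nx n k ∈ S) →
      W S (nx n k) * (U T k - U S k) < (U T (nx n k) - U S (nx n k)) * W S k := by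
    intro a1 a2
    rcases Nat.lt_or_ge k n with hlt | hge
    · have e : nx n k = k + 1 := by unfold nx; rw [if_neg (by omega)]
      rw [e] at a2 ⊢
      exact h.pathA T hT S hS hST.symm k hlt a1 a2
    · have e1 : k = n := by omega
      subst e1
      have e : nx k k = 0 := by unfold nx; simp
      rw [e]
      exact h.close T hT S hS hST.symm a1
  have keyB : ¬ (k ∈ T ↔ k ∈ S) → ¬ (nx n k ∈ T ↔ nx n k ∈ S) →
      W S (nx n k) * (U T k + U S k) < (U T (nx n k) + U S (nx n k)) * W S k := by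
    intro a1 a2
    rcases Nat.lt_or_ge k n with hlt | hge
    · have e : nx n k = k + 1 := by unfold nx; rw [if_neg (by omega)]
      rw [e] at a2 ⊢
      exact h.pathB T hT S hS k hlt a1 a2
    · have e1 : k = n := by omega
      subst e1
      have e : nx k k = 0 := by unfold nx; simp
      rw [e] at a2
      exact absurd (iff_of_false (h0 T hT) (h0 S hS)) a2
  -- signs
  have sgmul : ∀ j, (j ∈ T ↔ j ∈ S) → sg T j * sg S j = 1 := by
    intro j hj
    unfold sg
    by_cases h1 : j ∈ S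
    · simp [h1, hj.mpr h1]
    · have : j ∉ T := fun h => h1 (hj.mp h)
      simp [h1, this]
  have sgmul' : ∀ j, ¬ (j ∈ T ↔ j ∈ S) → sg T j * sg S j = -1 := by
    intro j hj
    unfold sg
    by_cases h1 : j ∈ S <;> by_cases h2 : j ∈ T <;> simp [h1, h2] at hj ⊢
  set j := nx n k
  simp only [← mul_assoc]
  by_cases a1 : (k ∈ T ↔ k ∈ S) <;> by_cases a2 : (j ∈ T ↔ j ∈ S)
  · rw [sgmul k a1, sgmul j a2]
    obtain ⟨t, ht1, ht2⟩ := exists_time hw hu (keyA a1 a2)
    exact ⟨t, by linarith, by linarith⟩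
  · rw [sgmul k a1, sgmul' j a2]
    refine ⟨max ((U T k - U S k) / W S k) ((- U T j - U S j) / W S j) + 1, ?_, ?_⟩
    · have h1 : (U T k - U S k) / W S k < max ((U T k - U S k) / W S k) ((- U T j - U S j) / W S j) + 1 := by
        have := le_max_left ((U T k - U S k) / W S k) ((- U T j - U S j) / W S j)
        linarith
      rw [div_lt_iff₀ hw] at h1
      linarith
    · have h1 : (- U T j - U S j) / W S j < max ((U T k - U S k) / W S k) ((- U T j - U S j) / W S j) + 1 := by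
        have := le_max_right ((U T k - U S k) / W S k) ((- U T j - U S j) / W S j)
        linarith
      rw [div_lt_iff₀ hu] at h1
      linarith
  · rw [sgmul' k a1, sgmul j a2]
    refine ⟨min ((- U T k - U S k) / W S k) ((U T j - U S j) / W S j) - 1, ?_, ?_⟩
    · have h1 : min ((- U T k - U S k) / W S k) ((U T j - U S j) / W S j) - 1 < (- U T k - U S k) / W S k := by
        have := min_le_left ((- U T k - U S k) / W S k) ((U T j - U S j) / W S j)
        linarith
      rw [lt_div_iff₀ hw] at h1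
      linarith
    · have h1 : min ((- U T k - U S k) / W S k) ((U T j - U S j) / W S j) - 1 < (U T j - U S j) / W S j := by
        have := min_le_right ((- U T k - U S k) / W S k) ((U T j - U S j) / W S j)
        linarith
      rw [lt_div_iff₀ hu] at h1
      linarith
  · rw [sgmul' k a1, sgmul' j a2]
    obtain ⟨t, ht1, ht2⟩ := exists_time hw hu (keyB a1 a2)
    exact ⟨-t, by linarith, by linarith⟩

/-- all parameters chosen -/
lemma lines_exist (n : ℕ) (hn : 1 ≤ n) (U W : Finset ℕ → ℕ → ℝ) (h : Cfg n U W) :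
    ∃ ξ : ℝ, 0 < ξ ∧ ξ < 1 ∧ ∀ S ∈ pw n, ∀ b ∈ arcs n, ∀ T ∈ pw n, ∀ c ∈ arcs n, (T, c) ≠ (S, b) →
      ∃ t, Q n U W ξ T c (M U W ξ S b t) := by
  have e1 : ∀ᶠ ξ : ℝ in 𝓝[>] (0 : ℝ), ξ * (2 * (n : ℝ) + 1) < 1 := by
    apply small_of_zero (f := fun ξ => ξ * (2 * (n : ℝ) + 1)) (g := fun _ => 1)
    · fun_prop
    · fun_prop
    · simp
  have e2 : ∀ᶠ ξ in 𝓝[>] (0 : ℝ), ∀ S ∈ pw n, ∀ b ∈ arcs n, ∀ T ∈ pw n, ∀ c ∈ arcs n, T ≠ S →
      ∃ t, Q n U W ξ T c (M U W ξ S b t) := by
    rw [eventually_all_finset]; intro S hS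
    rw [eventually_all_finset]; intro b hb
    rw [eventually_all_finset]; intro T hT
    rw [eventually_all_finset]; intro c hc
    rw [eventually_imp_distrib_left]; intro hTS
    have hk : c.1 ≤ n := by
      rcases mem_arcs.mp hc with h | h <;> omega
    obtain ⟨t, ht1, ht2⟩ := foreign n hn U W h S hS T hT hTS.symm c.1 hk
    have f1 : ∀ᶠ ξ in 𝓝[>] (0 : ℝ), U T c.1 + ((c.2 : ℝ) * ξ + ξ ^ 3) * W T c.1 <
        sg T c.1 * (sg S c.1 * (U S c.1 + ph ξ b c.1 t * W S c.1)) := by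
      apply small_of_zero (f := fun ξ => U T c.1 + ((c.2 : ℝ) * ξ + ξ ^ 3) * W T c.1)
        (g := fun ξ => sg T c.1 * (sg S c.1 * (U S c.1 + ph ξ b c.1 t * W S c.1)))
      · fun_prop
      · exact continuous_const.mul (continuous_const.mul
          (continuous_const.add ((ph_cont b c.1 t).mul continuous_const)))
      · simp only [ph_zero]
        simpa using ht1
    have f2 : ∀ᶠ ξ in 𝓝[>] (0 : ℝ),
        sg T (nx n c.1) * (sg S (nx n c.1) * (U S (nx n c.1) + ph ξ b (nx n c.1) t * W S (nx n c.1))) <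
        U T (nx n c.1) + (c.2 : ℝ) * ξ * W T (nx n c.1) := by
      apply small_of_zero
        (f := fun ξ => sg T (nx n c.1) * (sg S (nx n c.1) * (U S (nx n c.1) + ph ξ b (nx n c.1) t * W S (nx n c.1))))
        (g := fun ξ => U T (nx n c.1) + (c.2 : ℝ) * ξ * W T (nx n c.1))
      · exact continuous_const.mul (continuous_const.mul
          (continuous_const.add ((ph_cont b (nx n c.1) t).mul continuous_const)))
      · fun_prop
      · simp only [ph_zero]
        simpa using ht2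
    filter_upwards [f1, f2] with ξ g1 g2
    exact ⟨t, g1.le, g2.le⟩
  obtain ⟨ξ, h0, h1, h2⟩ := (small_pos.and (e1.and e2)).exists
  have hn' : (1 : ℝ) ≤ n := by exact_mod_cast hn
  refine ⟨ξ, h0, by nlinarith, ?_⟩
  intro S hS b hb T hT c hc hne
  by_cases hTS : T = S
  · subst hTS
    have hcb : c ≠ b := fun h => hne (by rw [h])
    exact own_meet n U W h.pos ξ h0 h1.le hn T hT b c hb hc hcb
  · exact h2 S hS b hb T hT c hc hTS

/-- cyclic chain contradiction -/
lemma no_cycle (n : ℕ) (t : ℕ → ℝ) (h : ∀ k < n, t k < t (k + 1)) (h2 : t n < t 0) : False := by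
  have : ∀ k ≤ n, t 0 ≤ t k := by
    intro k
    induction k with
    | zero => intro _; exact le_refl _
    | succ k ih =>
      intro hk
      exact le_trans (ih (by omega)) (h k (by omega)).le
  exact absurd (this n (le_refl _)) (not_le.mpr h2)

/-- no line meets all regions of the appropriate sign pattern -/
lemma no_line (n : ℕ) (hn : 1 ≤ n) (U W : Finset ℕ → ℕ → ℝ) (hW : ∀ S ∈ pw n, ∀ i ≤ n, 0 < W S i) (ξ : ℝ)
    (h0 : 0 < ξ) (p v : ℕ → ℝ)
    (hall : ∀ S ∈ pw n, ∀ c ∈ arcs n, ∃ t : ℝ, Q n U W ξ S c (fun i => p i + t * v i)) : False := by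
  -- choose global sign
  obtain ⟨s, hs, hs0⟩ : ∃ s : ℝ, (s = 1 ∨ s = -1) ∧ 0 ≤ s * v 0 := by
    rcases le_total 0 (v 0) with h | h
    · exact ⟨1, Or.inl rfl, by linarith⟩
    · exact ⟨-1, Or.inr rfl, by linarith⟩
  have hss : s * s = 1 := by rcases hs with h | h <;> rw [h] <;> norm_num
  classical
  set S : Finset ℕ := (Icc 1 n).filter (fun i => s * v i < 0) with hSdef
  have hS : S ∈ pw n := by
    rw [mem_pw]; exact Finset.filter_subset _ _
  have hdir : ∀ i ≤ n, 0 ≤ sg S i * (s * v i) := by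
    intro i hi
    unfold sg
    by_cases hiS : i ∈ S
    · rw [if_pos hiS]
      rw [hSdef, Finset.mem_filter] at hiS
      linarith [hiS.2]
    · rw [if_neg hiS, one_mul]
      rcases Nat.eq_zero_or_pos i with h | h
      · subst h; exact hs0
      · by_contra hcon
        push Not at hcon
        apply hiS
        rw [hSdef, Finset.mem_filter]
        refine ⟨?_, hcon⟩
        simp; omega
  have hall' := hall S hS
  have hξ3 : 0 < ξ ^ 3 := by positivity
  -- times
  have times : ∀ k ≤ n, ∃ t : ℝ, U S k + ξ ^ 3 * W S k ≤ sg S k * p k + t * (sg S k * (s * v k)) ∧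
      sg S (nx n k) * p (nx n k) + t * (sg S (nx n k) * (s * v (nx n k))) ≤ U S (nx n k) := by
    intro k hk
    rcases Nat.lt_or_ge k n with hlt | hge
    · obtain ⟨t1, a1, b1⟩ := hall' (k, 1) (by rw [mem_arcs]; left; exact ⟨hlt, Or.inr rfl⟩)
      obtain ⟨t2, a2, b2⟩ := hall' (k, -1) (by rw [mem_arcs]; left; exact ⟨hlt, Or.inl rfl⟩)
      simp only at a1 b1 a2 b2
      push_cast at a1 b1 a2 b2
      refine ⟨s * ((t1 + t2) / 2), ?_, ?_⟩
      · have e : s * ((t1 + t2) / 2) * (sg S k * (s * v k)) = (s * s) * (sg S k * ((t1 + t2) / 2 * v k)) := by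
          ring
        rw [e, hss]
        linarith
      · have e : s * ((t1 + t2) / 2) * (sg S (nx n k) * (s * v (nx n k))) =
            (s * s) * (sg S (nx n k) * ((t1 + t2) / 2 * v (nx n k))) := by
          ring
        rw [e, hss]
        linarith
    · have hkn : k = n := by omega
      subst hkn
      obtain ⟨t, a1, b1⟩ := hall' (k, 0) (by rw [mem_arcs]; right; exact ⟨rfl, rfl⟩)
      simp only at a1 b1
      push_cast at a1 b1
      refine ⟨s * t, ?_, ?_⟩
      · have e : s * t * (sg S k * (s * v k)) = (s * s) * (sg S k * (t * v k)) := by ring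
        rw [e, hss]
        linarith
      · have e : s * t * (sg S (nx k k) * (s * v (nx k k))) = (s * s) * (sg S (nx k k) * (t * v (nx k k))) := by
          ring
        rw [e, hss]
        linarith
  choose! t ht1 ht2 using times
  have hstep : ∀ k ≤ n, t k < t (nx n k) := by
    intro k hk
    have hk' := nx_le hk
    have a := ht2 k hk
    have b := ht1 (nx n k) hk'
    have hw := hW S hS (nx n k) hk'
    have hd := hdir (nx n k) hk'
    set w := sg S (nx n k) * (s * v (nx n k))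
    have hlt : t k * w < t (nx n k) * w := by
      have : 0 < ξ ^ 3 * W S (nx n k) := by positivity
      linarith
    by_contra hcon
    push Not at hcon
    have := mul_le_mul_of_nonneg_right hcon hd
    linarith
  apply no_cycle n t
  · intro k hk
    have := hstep k hk.le
    have e : nx n k = k + 1 := by unfold nx; rw [if_neg (by omega)]
    rwa [e] at this
  · have := hstep n (le_refl _)
    have e : nx n n = 0 := by unfold nx; simp
    rwa [e] at this

end Pool.Agent.H23.Box
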