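import Mathlib
import Pool.Agent.H23.BoxLower
import Pool.Agent.H23.BoxDefs

set_option autoImplicit false

namespace Pool.Agent.H23.Box

open Finset Filter Topology

/-- lower corner of the truncated box -/
noncomputable def lo (n : ℕ) (U W : Finset ℕ → ℕ → ℝ) (ξ K : ℝ) (S : Finset ℕ) (c : ℕ × ℤ) :
    Fin (n + 1) → ℝ := fun m =>
  if m.val = c.1 then (if c.1 ∈ S then -K else U S c.1 + ((c.2 : ℝ) * ξ + ξ ^ 3) * W S c.1)
  else if m.val = nx n c.1 then
    (if nx n c.1 ∈ S then -(U S (nx n c.1) + (c.2 : ℝ) * ξ * W S (nx n c.1)) else -K)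
  else -K

/-- upper corner of the truncated box -/
noncomputable def hi (n : ℕ) (U W : Finset ℕ → ℕ → ℝ) (ξ K : ℝ) (S : Finset ℕ) (c : ℕ × ℤ) :
    Fin (n + 1) → ℝ := fun m =>
  if m.val = c.1 then (if c.1 ∈ S then -(U S c.1 + ((c.2 : ℝ) * ξ + ξ ^ 3) * W S c.1) else K)
  else if m.val = nx n c.1 then
    (if nx n c.1 ∈ S then K else U S (nx n c.1) + (c.2 : ℝ) * ξ * W S (nx n c.1))
  else K

/-- restriction of a sequence to the first `n+1` coordinates -/
def rs (n : ℕ) (x : ℕ → ℝ) : Fin (n + 1) → ℝ := fun m => x m.val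

/-- extension of a vector -/
def ex (n : ℕ) (x : Fin (n + 1) → ℝ) : ℕ → ℝ := fun i => if h : i < n + 1 then x ⟨i, h⟩ else 0

lemma ex_apply (n : ℕ) (x : Fin (n + 1) → ℝ) (i : ℕ) (h : i < n + 1) : ex n x i = x ⟨i, h⟩ := by
  simp [ex, h]

lemma box_sub (n : ℕ) (hn : 1 ≤ n) (U W : Finset ℕ → ℕ → ℝ) (ξ K : ℝ) (S : Finset ℕ) (c : ℕ × ℤ)
    (hc : c.1 ≤ n) (x : Fin (n + 1) → ℝ) (hx : x ∈ Set.Icc (lo n U W ξ K S c) (hi n U W ξ K S c)) :
    Q n U W ξ S c (ex n x) := by
  obtain ⟨h1, h2⟩ := hx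
  have hc' := nx_le hc
  have hne := nx_ne (k := c.1) hn
  have a1 := h1 ⟨c.1, by omega⟩
  have a2 := h2 ⟨c.1, by omega⟩
  have b1 := h1 ⟨nx n c.1, by omega⟩
  have b2 := h2 ⟨nx n c.1, by omega⟩
  simp only [lo, hi, if_true, hne, if_false] at a1 a2 b1 b2
  unfold Q
  rw [ex_apply n x c.1 (by omega), ex_apply n x (nx n c.1) (by omega)]
  constructor
  · unfold sg
    by_cases h : c.1 ∈ S
    · simp only [h, if_true] at a1 a2 ⊢
      linarith
    · simp only [h, if_false] at a1 a2 ⊢
      linarith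
  · unfold sg
    by_cases h : nx n c.1 ∈ S
    · simp only [h, if_true] at b1 b2 ⊢
      linarith
    · simp only [h, if_false] at b1 b2 ⊢
      linarith

lemma box_sup (n : ℕ) (U W : Finset ℕ → ℕ → ℝ) (ξ K : ℝ) (S : Finset ℕ) (c : ℕ × ℤ)
    (x : ℕ → ℝ) (hx : Q n U W ξ S c x) (hK : ∀ i ≤ n, |x i| ≤ K) :
    rs n x ∈ Set.Icc (lo n U W ξ K S c) (hi n U W ξ K S c) := by
  obtain ⟨h1, h2⟩ := hx
  have hKi : ∀ m : Fin (n + 1), -K ≤ x m.val ∧ x m.val ≤ K := by
    intro m
    have := hK m.val (by omega)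
    exact abs_le.mp this
  constructor
  · intro m
    simp only [lo, rs]
    by_cases hm : m.val = c.1
    · simp only [hm, if_true]
      by_cases h : c.1 ∈ S
      · simp only [h, if_true]
        have := (hKi m).1
        rwa [hm] at this
      · simp only [h, if_false]
        unfold sg at h1
        simp only [h, if_false] at h1
        linarith
    · simp only [hm, if_false]
      by_cases hm2 : m.val = nx n c.1
      · simp only [hm2, if_true]
        by_cases h : nx n c.1 ∈ S
        · simp only [h, if_true]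
          unfold sg at h2
          simp only [h, if_true] at h2
          linarith
        · simp only [h, if_false]
          have := (hKi m).1
          rwa [hm2] at this
      · simp only [hm2, if_false]
        exact (hKi m).1
  · intro m
    simp only [hi, rs]
    by_cases hm : m.val = c.1
    · simp only [hm, if_true]
      by_cases h : c.1 ∈ S
      · simp only [h, if_true]
        unfold sg at h1
        simp only [h, if_true] at h1
        linarith
      · simp only [h, if_false]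
        have := (hKi m).2
        rwa [hm] at this
    · simp only [hm, if_false]
      by_cases hm2 : m.val = nx n c.1
      · simp only [hm2, if_true]
        by_cases h : nx n c.1 ∈ S
        · simp only [h, if_true]
          have := (hKi m).2
          rwa [hm2] at this
        · simp only [h, if_false]
          unfold sg at h2
          simp only [h, if_false] at h2
          linarith
      · simp only [hm2, if_false]
        exact (hKi m).2

/-- The family of critical boxes. -/
theorem exists_family (n : ℕ) (hn : 1 ≤ n) :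
    ∃ B : Finset ℕ × (ℕ × ℤ) → Set (Fin (n + 1) → ℝ),
      (∀ x ∈ pw n ×ˢ arcs n, IsBox (B x)) ∧
      (∀ x ∈ pw n ×ˢ arcs n, ∃ p v : Fin (n + 1) → ℝ, v ≠ 0 ∧
        ∀ y ∈ pw n ×ˢ arcs n, y ≠ x → ∃ t : ℝ, p + t • v ∈ B y) ∧
      (∀ p v : Fin (n + 1) → ℝ, ¬ ∀ y ∈ pw n ×ˢ arcs n, ∃ t : ℝ, p + t • v ∈ B y) := by
  obtain ⟨U, W, hcfg⟩ := cfg_exists n hn
  obtain ⟨ξ, h0, h1, hl⟩ := lines_exist n hn U W hcfg
  -- choose times
  have hl' : ∀ x ∈ pw n ×ˢ arcs n, ∀ y ∈ pw n ×ˢ arcs n, y ≠ x →
      ∃ t, Q n U W ξ y.1 y.2 (M U W ξ x.1 x.2 t) := by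
    intro x hx y hy hne
    rw [Finset.mem_product] at hx hy
    exact hl x.1 hx.1 x.2 hx.2 y.1 hy.1 y.2 hy.2 hne
  choose! t ht using hl'
  -- choose K
  have eK1 : ∀ᶠ K : ℝ in atTop, ∀ x ∈ pw n ×ˢ arcs n, ∀ y ∈ pw n ×ˢ arcs n, ∀ i ∈ range (n + 1),
      |M U W ξ x.1 x.2 (t x y) i| ≤ K := by
    rw [eventually_all_finset]; intro x hx
    rw [eventually_all_finset]; intro y hy
    rw [eventually_all_finset]; intro i hi
    exact eventually_ge_atTop _
  have eK2 : ∀ᶠ K : ℝ in atTop, ∀ y ∈ pw n ×ˢ arcs n,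
      |U y.1 y.2.1 + ((y.2.2 : ℝ) * ξ + ξ ^ 3) * W y.1 y.2.1| < K ∧
      |U y.1 (nx n y.2.1) + (y.2.2 : ℝ) * ξ * W y.1 (nx n y.2.1)| < K := by
    rw [eventually_all_finset]; intro y hy
    exact (eventually_gt_atTop _).and (eventually_gt_atTop _)
  obtain ⟨K, hK1, hK2, hK0⟩ := (eK1.and (eK2.and (eventually_gt_atTop (0 : ℝ)))).exists
  have hcle : ∀ y ∈ pw n ×ˢ arcs n, y.2.1 ≤ n := by
    intro y hy
    rw [Finset.mem_product] at hy
    rcases mem_arcs.mp hy.2 with h | h <;> omega
  refine ⟨fun y => Set.Icc (lo n U W ξ K y.1 y.2) (hi n U W ξ K y.1 y.2), ?_, ?_, ?_⟩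
  · intro y hy
    refine ⟨_, _, ?_, rfl⟩
    intro m
    obtain ⟨c1, c2⟩ := hK2 y hy
    rw [abs_lt] at c1 c2
    simp only [lo, hi]
    by_cases hm : m.val = y.2.1
    · simp only [hm, if_true]
      by_cases h : y.2.1 ∈ y.1
      · simp only [h, if_true]; linarith
      · simp only [h, if_false]; linarith
    · simp only [hm, if_false]
      by_cases hm2 : m.val = nx n y.2.1
      · simp only [hm2, if_true]
        by_cases h : nx n y.2.1 ∈ y.1
        · simp only [h, if_true]; linarith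
        · simp only [h, if_false]; linarith
      · simp only [hm2, if_false]; linarith
  · intro x hx
    have hx' := Finset.mem_product.mp hx
    obtain ⟨S, b⟩ := x
    simp only at hx'
    -- the line
    have haff : ∀ k (s : ℝ), M U W ξ S b s k = M U W ξ S b 0 k +
        s * (sg S k * ((if k ≤ b.1 then 1 else 1 + (b.2 : ℝ) * ξ) * W S k)) := by
      intro k s
      unfold M ph
      split_ifs <;> ring
    refine ⟨rs n (fun k => M U W ξ S b 0 k),
      rs n (fun k => sg S k * ((if k ≤ b.1 then 1 else 1 + (b.2 : ℝ) * ξ) * W S k)), ?_, ?_⟩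
    · intro hv
      have h := congrFun hv ⟨0, by omega⟩
      simp only [rs, Pi.zero_apply] at h
      have hw := hcfg.pos S hx'.1 0 (by omega)
      have hs : sg S 0 ≠ 0 := by unfold sg; split_ifs <;> norm_num
      simp only [Nat.zero_le, if_true, one_mul] at h
      exact absurd h (mul_ne_zero hs hw.ne')
    · intro y hy hne
      refine ⟨t (S, b) y, ?_⟩
      have e : rs n (fun k => M U W ξ S b 0 k) + t (S, b) y •
          rs n (fun k => sg S k * ((if k ≤ b.1 then 1 else 1 + (b.2 : ℝ) * ξ) * W S k)) =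
          rs n (fun k => M U W ξ S b (t (S, b) y) k) := by
        funext m
        simp only [rs, Pi.add_apply, Pi.smul_apply, smul_eq_mul]
        rw [haff m.val (t (S, b) y)]
      rw [e]
      apply box_sup
      · exact ht (S, b) hx y hy hne
      · intro i hi
        exact hK1 (S, b) hx y hy i (by simp; omega)
  · intro p v hall
    apply no_line n hn U W hcfg.pos ξ h0 (ex n p) (ex n v)
    intro S hS c hc
    have hy : (S, c) ∈ pw n ×ˢ arcs n := Finset.mem_product.mpr ⟨hS, hc⟩
    obtain ⟨s, hs⟩ := hall (S, c) hy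
    refine ⟨s, ?_⟩
    have := box_sub n hn U W ξ K S c (hcle _ hy) _ hs
    have e : ex n (p + s • v) = fun i => ex n p i + s * ex n v i := by
      funext i
      unfold ex
      by_cases h : i < n + 1
      · simp [h]
      · simp [h]
    rwa [e] at this

/-- the lower bound -/
theorem lower (n : ℕ) (hn : 1 ≤ n) (h : ℕ) (hh : h < 2 ^ n * (2 * n + 1)) :
    ¬ HellyForLines (n + 1) h := by
  classical
  intro hH
  obtain ⟨B, hB1, hB2, hB3⟩ := exists_family n hn
  set I := pw n ×ˢ arcs n with hI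
  have hcard : I.card = 2 ^ n * (2 * n + 1) := by
    rw [hI, Finset.card_product, card_pw, card_arcs]
  have hinj : Set.InjOn B (I : Set (Finset ℕ × (ℕ × ℤ))) := by
    intro x hx y hy hxy
    by_contra hne
    obtain ⟨p, v, _, hpv⟩ := hB2 x hx
    apply hB3 p v
    intro z hz
    by_cases hzx : z = x
    · obtain ⟨t, ht⟩ := hpv y hy (fun h => hne h.symm)
      exact ⟨t, by rw [hzx, hxy]; exact ht⟩
    · exact hpv z hz hzx
  set F : Set (Set (Fin (n + 1) → ℝ)) := B '' (I : Set (Finset ℕ × (ℕ × ℤ))) with hF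
  have hFfin : F.Finite := (I.finite_toSet).image B
  have hFcard : F.ncard = 2 ^ n * (2 * n + 1) := by
    rw [hF, hinj.ncard_image, Set.ncard_coe_finset, hcard]
  obtain ⟨p, v, _, hpv⟩ := hH F hFfin (by rintro _ ⟨x, hx, rfl⟩; exact hB1 x hx) (by
    intro G hG hGc
    have hne : ∃ x ∈ I, B x ∉ G := by
      by_contra hcon
      push Not at hcon
      have : F ⊆ G := by
        rintro _ ⟨x, hx, rfl⟩
        exact hcon x hx
      have hGF : G = F := Set.Subset.antisymm hG this
      rw [hGF, hFcard] at hGc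
      omega
    obtain ⟨x, hx, hxG⟩ := hne
    obtain ⟨p, v, hv, hpv⟩ := hB2 x hx
    refine ⟨p, v, hv, ?_⟩
    intro C hC
    obtain ⟨y, hy, rfl⟩ := hG hC
    apply hpv y hy
    intro h
    rw [h] at hC
    exact hxG hC)
  apply hB3 p v
  intro y hy
  exact hpv (B y) ⟨y, hy, rfl⟩

end Pool.Agent.H23.Box
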