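import Mathlib
import Pool.Agent.H23.BoxLower
import Pool.Agent.H23.BoxDefs

set_option autoImplicit false

namespace Pool.Agent.H23.Box

open Finset Filter Topology

/-- reflected lower corner, enlarged by `e` -/
noncomputable def ra (n : ℕ) (S : Finset ℕ) (e : ℝ) (a b : Fin (n + 1) → ℝ) (i : Fin (n + 1)) : ℝ :=
  if i.val ∈ S then -b i - e else a i - e

/-- reflected upper corner, enlarged by `e` -/
noncomputable def rb (n : ℕ) (S : Finset ℕ) (e : ℝ) (a b : Fin (n + 1) → ℝ) (i : Fin (n + 1)) : ℝ :=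
  if i.val ∈ S then -a i + e else b i + e

/-- coefficient vector with first entry `1` -/
noncomputable def ga (n : ℕ) (x : (Fin n → ℝ) × (Fin n → ℝ)) : Fin (n + 1) → ℝ := Fin.cons 1 x.1

/-- coefficient vector with first entry `0` -/
noncomputable def de (n : ℕ) (x : (Fin n → ℝ) × (Fin n → ℝ)) : Fin (n + 1) → ℝ := Fin.cons 0 x.2

/-- the convex set of parameters of lines of sign pattern `S` meeting the enlarged box -/
def KK (n : ℕ) (S : Finset ℕ) (e : ℝ) (a b : Fin (n + 1) → ℝ) : Set ((Fin n → ℝ) × (Fin n → ℝ)) :=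
  {x | (∀ i, 0 < ga n x i) ∧ ∀ i j, ga n x i * ra n S e a b i - de n x i ≤ ga n x j * rb n S e a b j - de n x j}

lemma ga_comb (n : ℕ) (x y : (Fin n → ℝ) × (Fin n → ℝ)) (s t : ℝ) (hst : s + t = 1) (i : Fin (n + 1)) :
    ga n (s • x + t • y) i = s * ga n x i + t * ga n y i := by
  unfold ga
  refine Fin.cases ?_ (fun j => ?_) i
  · simp [hst]
  · simp

lemma de_comb (n : ℕ) (x y : (Fin n → ℝ) × (Fin n → ℝ)) (s t : ℝ) (i : Fin (n + 1)) :
    de n (s • x + t • y) i = s * de n x i + t * de n y i := by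
  unfold de
  refine Fin.cases ?_ (fun j => ?_) i
  · simp
  · simp

lemma KK_convex (n : ℕ) (S : Finset ℕ) (e : ℝ) (a b : Fin (n + 1) → ℝ) : Convex ℝ (KK n S e a b) := by
  intro x hx y hy s t hs ht hst
  obtain ⟨hx1, hx2⟩ := hx
  obtain ⟨hy1, hy2⟩ := hy
  constructor
  · intro i
    rw [ga_comb n x y s t hst i]
    have h1 := hx1 i
    have h2 := hy1 i
    rcases eq_or_lt_of_le hs with h | h
    · have : t = 1 := by linarith
      subst this; rw [← h]; simpa using h2
    · have : 0 ≤ t * ga n y i := mul_nonneg ht h2.le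
      have : 0 < s * ga n x i := mul_pos h h1
      linarith
  · intro i j
    rw [ga_comb n x y s t hst i, ga_comb n x y s t hst j, de_comb, de_comb]
    have h1 := mul_le_mul_of_nonneg_left (hx2 i j) hs
    have h2 := mul_le_mul_of_nonneg_left (hy2 i j) ht
    linarith

lemma sgF_ne (S : Finset ℕ) (i : ℕ) : sg S i ≠ 0 := by unfold sg; split_ifs <;> norm_num

/-- parameters in all the sets give a line meeting all enlarged boxes -/
lemma KK_line (n : ℕ) (S : Finset ℕ) (x : (Fin n → ℝ) × (Fin n → ℝ)) :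
    ∃ p v : Fin (n + 1) → ℝ, ((∀ i, 0 < ga n x i) → v ≠ 0) ∧
      ∀ (e : ℝ) (a b : Fin (n + 1) → ℝ), x ∈ KK n S e a b →
        ∃ t : ℝ, ∀ i, a i - e ≤ p i + t * v i ∧ p i + t * v i ≤ b i + e := by
  refine ⟨fun i => sg S i * (de n x i / ga n x i), fun i => sg S i / ga n x i, ?_, ?_⟩
  · intro hpos hv
    have := congrFun hv 0
    simp only [Pi.zero_apply] at this
    exact absurd this (div_ne_zero (sgF_ne S _) (hpos 0).ne')
  · intro e a b hx
    obtain ⟨hx1, hx2⟩ := hx
    -- the time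
    set t := Finset.univ.sup' Finset.univ_nonempty (fun i => ga n x i * ra n S e a b i - de n x i) with ht
    have hlow : ∀ i, ga n x i * ra n S e a b i - de n x i ≤ t := fun i =>
      Finset.le_sup' (fun i => ga n x i * ra n S e a b i - de n x i) (Finset.mem_univ i)
    have hup : ∀ j, t ≤ ga n x j * rb n S e a b j - de n x j := fun j =>
      Finset.sup'_le _ _ (fun i _ => hx2 i j)
    refine ⟨t, fun i => ?_⟩
    have hg := hx1 i
    have h1 : ra n S e a b i ≤ (t + de n x i) / ga n x i := by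
      rw [le_div_iff₀ hg]; linarith [hlow i]
    have h2 : (t + de n x i) / ga n x i ≤ rb n S e a b i := by
      rw [div_le_iff₀ hg]; linarith [hup i]
    have e1 : sg S i * (de n x i / ga n x i) + t * (sg S i / ga n x i) =
        sg S i * ((t + de n x i) / ga n x i) := by
      field_simp; ring
    rw [e1]
    unfold ra at h1
    unfold rb at h2
    unfold sg
    by_cases h : i.val ∈ S
    · simp only [h, if_true] at h1 h2 ⊢
      constructor <;> linarith
    · simp only [h, if_false] at h1 h2 ⊢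
      constructor <;> linarith

/-- a line in the open orthant gives parameters -/
lemma line_KK (n : ℕ) (S : Finset ℕ) (h0 : 0 ∉ S) (p v : Fin (n + 1) → ℝ)
    (hv : ∀ i : Fin (n + 1), 0 < sg S i * v i) :
    ∃ x : (Fin n → ℝ) × (Fin n → ℝ), ∀ (e : ℝ) (a b : Fin (n + 1) → ℝ),
      (∃ t : ℝ, ∀ i, a i - e ≤ p i + t * v i ∧ p i + t * v i ≤ b i + e) → x ∈ KK n S e a b := by
  have hs0 : sg S 0 = 1 := by unfold sg; simp [h0]
  have hv0 : 0 < v 0 := by
    have := hv 0
    simpa [hs0] using this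
  set γ : Fin (n + 1) → ℝ := fun i => v 0 / (sg S i * v i) with hγ
  set δ : Fin (n + 1) → ℝ := fun i => v 0 * (sg S i * p i) / (sg S i * v i) - p 0 with hδ
  refine ⟨(fun i => γ i.succ, fun i => δ i.succ), ?_⟩
  intro e a b ⟨t, ht⟩
  have hga : ga n (fun i => γ i.succ, fun i => δ i.succ) = γ := by
    funext i
    refine Fin.cases ?_ (fun j => ?_) i
    · simp only [ga, Fin.cons_zero, hγ]
      have : ((0 : Fin (n + 1)) : ℕ) = 0 := rfl
      rw [this, hs0, one_mul, div_self hv0.ne']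
    · simp [ga]
  have hde : de n (fun i => γ i.succ, fun i => δ i.succ) = δ := by
    funext i
    refine Fin.cases ?_ (fun j => ?_) i
    · simp only [de, Fin.cons_zero, hδ]
      have : ((0 : Fin (n + 1)) : ℕ) = 0 := rfl
      rw [this, hs0, one_mul, one_mul]
      field_simp
      ring
    · simp [de]
  have hγpos : ∀ i, 0 < γ i := fun i => div_pos hv0 (hv i)
  have key : ∀ i, γ i * (sg S i * (p i + t * v i)) - δ i = p 0 + t * v 0 := by
    intro i
    simp only [hγ, hδ]
    have h1 := (hv i).ne'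
    have e1 : v 0 / (sg S i * v i) * (sg S i * (p i + t * v i)) - (v 0 * (sg S i * p i) / (sg S i * v i) - p 0)
        = v 0 * t * ((sg S i * v i) / (sg S i * v i)) + p 0 := by ring
    rw [e1, div_self h1]; ring
  constructor
  · intro i; rw [hga]; exact hγpos i
  · intro i j
    rw [hga, hde]
    have hi : ra n S e a b i ≤ sg S i * (p i + t * v i) := by
      unfold ra sg
      have := ht i
      by_cases h : i.val ∈ S
      · simp only [h, if_true]; linarith [this.1, this.2]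
      · simp only [h, if_false]; linarith [this.1, this.2]
    have hj : sg S j * (p j + t * v j) ≤ rb n S e a b j := by
      unfold rb sg
      have := ht j
      by_cases h : j.val ∈ S
      · simp only [h, if_true]; linarith [this.1, this.2]
      · simp only [h, if_false]; linarith [this.1, this.2]
    calc γ i * ra n S e a b i - δ i ≤ γ i * (sg S i * (p i + t * v i)) - δ i := by
          have := mul_le_mul_of_nonneg_left hi (hγpos i).le
          linarith
      _ = γ j * (sg S j * (p j + t * v j)) - δ j := by rw [key i, key j]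
      _ ≤ _ := by
          have := mul_le_mul_of_nonneg_left hj (hγpos j).le
          linarith

/-- extension by zero -/
noncomputable def ex' {n : ℕ} (v : Fin (n + 1) → ℝ) (i : ℕ) : ℝ := if h : i < n + 1 then v ⟨i, h⟩ else 0

/-- perturbation of a line into an open orthant -/
lemma perturb (n : ℕ) (G : Finset (Set (Fin (n + 1) → ℝ))) (a b : Set (Fin (n + 1) → ℝ) → Fin (n + 1) → ℝ)
    (p v : Fin (n + 1) → ℝ) (hG : ∀ B ∈ G, ∃ t : ℝ, ∀ i, a B i ≤ p i + t * v i ∧ p i + t * v i ≤ b B i)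
    (e : ℝ) (he : 0 < e) :
    ∃ S ∈ pw n, ∃ w : Fin (n + 1) → ℝ, (∀ i : Fin (n + 1), 0 < sg S i * w i) ∧
      ∀ B ∈ G, ∃ t : ℝ, ∀ i, a B i - e ≤ p i + t * w i ∧ p i + t * w i ≤ b B i + e := by
  classical
  obtain ⟨s, hs, hs0⟩ : ∃ s : ℝ, (s = 1 ∨ s = -1) ∧ 0 ≤ s * v 0 := by
    rcases le_total 0 (v 0) with h | h
    · exact ⟨1, Or.inl rfl, by linarith⟩
    · exact ⟨-1, Or.inr rfl, by linarith⟩
  have hss : s * s = 1 := by rcases hs with h | h <;> rw [h] <;> norm_num
  set S : Finset ℕ := (Icc 1 n).filter (fun i => s * ex' v i < 0) with hSdef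
  have hS : S ∈ pw n := by
    rw [mem_pw]; exact Finset.filter_subset _ _
  have hdir : ∀ i : Fin (n + 1), 0 ≤ sg S i * (s * v i) := by
    intro i
    have hi := i.isLt
    have hex : ex' v i.val = v i := by unfold ex'; rw [dif_pos hi]
    unfold sg
    by_cases hiS : i.val ∈ S
    · rw [if_pos hiS]
      rw [hSdef, Finset.mem_filter, hex] at hiS
      linarith [hiS.2]
    · rw [if_neg hiS, one_mul]
      rcases Nat.eq_zero_or_pos i.val with h | h
      · have : i = 0 := Fin.ext h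
        rw [this]; exact hs0
      · by_contra hcon
        push Not at hcon
        apply hiS
        rw [hSdef, Finset.mem_filter, hex]
        refine ⟨?_, hcon⟩
        simp; omega
  choose! t ht using hG
  obtain ⟨κ, hκ0, hκ⟩ : ∃ κ : ℝ, 0 < κ ∧ ∀ B ∈ G, |t B| * κ ≤ e := by
    have : ∀ᶠ κ in 𝓝[>] (0 : ℝ), ∀ B ∈ G, |t B| * κ < e := by
      rw [eventually_all_finset]; intro B _
      apply small_of_zero (f := fun κ => |t B| * κ) (g := fun _ => e)
      · fun_prop
      · fun_prop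
      · simpa using he
    obtain ⟨κ, h1, h2⟩ := (small_pos.and this).exists
    exact ⟨κ, h1, fun B hB => (h2 B hB).le⟩
  refine ⟨S, hS, fun i => s * v i + sg S i * κ, ?_, ?_⟩
  · intro i
    have h1 := hdir i
    have h2 := sg_sq S i
    have : sg S i * (s * v i + sg S i * κ) = sg S i * (s * v i) + (sg S i * sg S i) * κ := by ring
    rw [this, h2]; linarith
  · intro B hB
    refine ⟨s * t B, fun i => ?_⟩
    have h1 := ht B hB i
    have h2 := hκ B hB
    have e1 : p i + s * t B * (s * v i + sg S i * κ) = (p i + (s * s) * (t B * v i)) + (s * sg S i) * (t B * κ) := by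
      ring
    rw [e1, hss, one_mul]
    have h3 : |(s * sg S i) * (t B * κ)| ≤ e := by
      rw [abs_mul, abs_mul, abs_mul, abs_of_pos hκ0]
      have hs1 : |s| = 1 := by rcases hs with h | h <;> rw [h] <;> norm_num
      have hs2 : |sg S i| = 1 := by unfold sg; split_ifs <;> norm_num
      rw [hs1, hs2, one_mul, one_mul]
      exact h2
    have h4 := abs_le.mp h3
    constructor <;> linarith [h1.1, h1.2, h4.1, h4.2]

/-- enlarged boxes have a common transversal -/
lemma enlarged (n : ℕ) (F : Finset (Set (Fin (n + 1) → ℝ))) (a b : Set (Fin (n + 1) → ℝ) → Fin (n + 1) → ℝ)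
    (hF : ∀ G ⊆ F, G.card ≤ 2 ^ n * (2 * n + 1) →
      ∃ p v : Fin (n + 1) → ℝ, ∀ B ∈ G, ∃ t : ℝ, ∀ i, a B i ≤ p i + t * v i ∧ p i + t * v i ≤ b B i)
    (e : ℝ) (he : 0 < e) :
    ∃ p v : Fin (n + 1) → ℝ, v ≠ 0 ∧
      ∀ B ∈ F, ∃ t : ℝ, ∀ i, a B i - e ≤ p i + t * v i ∧ p i + t * v i ≤ b B i + e := by
  classical
  have claim : ∃ S ∈ pw n, (⋂ B ∈ F, KK n S e (a B) (b B)).Nonempty := by
    by_contra hcon
    push Not at hcon
    have hI : ∀ S ∈ pw n, ∃ I ⊆ F, I.card ≤ 2 * n + 1 ∧ ¬ (⋂ B ∈ I, KK n S e (a B) (b B)).Nonempty := by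
      intro S hS
      by_contra hno
      push Not at hno
      have hfin : Module.finrank ℝ ((Fin n → ℝ) × (Fin n → ℝ)) + 1 = 2 * n + 1 := by
        rw [Module.finrank_prod, Module.finrank_fin_fun]; ring
      have := Convex.helly_theorem' (𝕜 := ℝ) (s := F) (F := fun B => KK n S e (a B) (b B))
        (fun B _ => KK_convex n S e (a B) (b B))
        (fun I hI hIc => hno I hI (by rw [← hfin]; exact hIc))
      rw [hcon S hS] at this
      exact Set.not_nonempty_empty this
    choose! I hI1 hI2 hI3 using hI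
    obtain ⟨p, v, hpv⟩ := hF ((pw n).biUnion I) (by
      intro B hB
      rw [Finset.mem_biUnion] at hB
      obtain ⟨S, hS, hB⟩ := hB
      exact hI1 S hS hB) (by
      refine le_trans Finset.card_biUnion_le ?_
      refine le_trans (Finset.sum_le_sum hI2) ?_
      rw [Finset.sum_const, card_pw, smul_eq_mul])
    obtain ⟨S, hS, w, hw, hmeet⟩ := perturb n _ a b p v hpv e he
    have h0 : 0 ∉ S := by
      intro h0
      rw [mem_pw] at hS
      have := hS h0
      simp at this
    obtain ⟨x, hx⟩ := line_KK n S h0 p w hw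
    apply hI3 S hS
    refine ⟨x, ?_⟩
    rw [Set.mem_iInter₂]
    intro B hB
    apply hx
    exact hmeet B (Finset.mem_biUnion.mpr ⟨S, hS, hB⟩)
  obtain ⟨S, hS, x, hx⟩ := claim
  rw [Set.mem_iInter₂] at hx
  obtain ⟨p, v, hv, hpv⟩ := KK_line n S x
  by_cases hFe : F.Nonempty
  · obtain ⟨B0, hB0⟩ := hFe
    exact ⟨p, v, hv (hx B0 hB0).1, fun B hB => hpv e (a B) (b B) (hx B hB)⟩
  · rw [Finset.not_nonempty_iff_eq_empty] at hFe
    subst hFe
    refine ⟨0, fun _ => 1, ?_, by simp⟩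
    intro h
    have := congrFun h 0
    simp at this

/-- passing to the limit -/
lemma limit_line (n : ℕ) (F : Finset (Set (Fin (n + 1) → ℝ))) (hne : F.Nonempty)
    (a b : Set (Fin (n + 1) → ℝ) → Fin (n + 1) → ℝ)
    (h : ∀ e : ℝ, 0 < e → ∃ p v : Fin (n + 1) → ℝ, v ≠ 0 ∧
      ∀ B ∈ F, ∃ t : ℝ, ∀ i, a B i - e ≤ p i + t * v i ∧ p i + t * v i ≤ b B i + e) :
    ∃ p v : Fin (n + 1) → ℝ, v ≠ 0 ∧
      ∀ B ∈ F, ∃ t : ℝ, ∀ i, a B i ≤ p i + t * v i ∧ p i + t * v i ≤ b B i := by
  classical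
  obtain ⟨B0, hB0⟩ := hne
  -- a bound
  obtain ⟨R, hR⟩ : ∃ R : ℝ, ∀ B ∈ F, ∀ i, |a B i| ≤ R ∧ |b B i| ≤ R := by
    have : ∀ᶠ R : ℝ in atTop, ∀ B ∈ F, ∀ i : Fin (n + 1), |a B i| ≤ R ∧ |b B i| ≤ R := by
      rw [eventually_all_finset]; intro B _
      rw [eventually_all]; intro i
      exact (eventually_ge_atTop _).and (eventually_ge_atTop _)
    exact this.exists
  have hR0 : 0 ≤ R := le_trans (abs_nonneg _) (hR B0 hB0 0).1
  -- normalized lines
  have hk : ∀ k : ℕ, ∃ x : (Fin (n + 1) → ℝ) × (Fin (n + 1) → ℝ) × (F → ℝ),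
      x ∈ Metric.closedBall (0 : Fin (n + 1) → ℝ) (R + 1) ×ˢ
        (Metric.sphere (0 : Fin (n + 1) → ℝ) 1 ×ˢ Metric.closedBall (0 : F → ℝ) (2 * (R + 1))) ∧
      ∀ B : F, ∀ i, a B.1 i - 1 / ((k : ℝ) + 1) ≤ x.1 i + x.2.2 B * x.2.1 i ∧
        x.1 i + x.2.2 B * x.2.1 i ≤ b B.1 i + 1 / ((k : ℝ) + 1) := by
    intro k
    have he : 0 < 1 / ((k : ℝ) + 1) := by positivity
    have he1 : 1 / ((k : ℝ) + 1) ≤ 1 := by
      rw [div_le_one (by positivity)]
      have : (0 : ℝ) ≤ k := Nat.cast_nonneg k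
      linarith
    obtain ⟨p, v, hv, hpv⟩ := h _ he
    choose! t ht using hpv
    have hvn : 0 < ‖v‖ := norm_pos_iff.mpr hv
    have bound : ∀ B ∈ F, ‖p + t B • v‖ ≤ R + 1 := by
      intro B hB
      rw [pi_norm_le_iff_of_nonneg (by linarith)]
      intro i
      have h1 := ht B hB i
      have h2 := (abs_le.mp (hR B hB i).1).1
      have h3 := (abs_le.mp (hR B hB i).2).2
      simp only [Pi.add_apply, Pi.smul_apply, smul_eq_mul, Real.norm_eq_abs]
      rw [abs_le]
      constructor <;> linarith [h1.1, h1.2]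
    refine ⟨(p + t B0 • v, ‖v‖⁻¹ • v, fun B => (t B.1 - t B0) * ‖v‖), ⟨?_, ?_, ?_⟩, ?_⟩
    · rw [mem_closedBall_zero_iff]
      exact bound B0 hB0
    · rw [mem_sphere_zero_iff_norm, norm_smul, norm_inv, norm_norm]
      exact inv_mul_cancel₀ hvn.ne'
    · rw [mem_closedBall_zero_iff, pi_norm_le_iff_of_nonneg (by linarith)]
      intro B
      rw [norm_mul, norm_norm, ← norm_smul]
      have e1 : (t B.1 - t B0) • v = (p + t B.1 • v) - (p + t B0 • v) := by
        rw [sub_smul]; abel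
      rw [e1]
      refine le_trans (norm_sub_le _ _) ?_
      have := bound B.1 B.2
      have := bound B0 hB0
      linarith
    · intro B i
      have h1 := ht B.1 B.2 i
      simp only [Pi.add_apply, Pi.smul_apply, smul_eq_mul]
      have e1 : p i + t B0 * v i + (t B.1 - t B0) * ‖v‖ * (‖v‖⁻¹ * v i) =
          p i + t B0 * v i + (t B.1 - t B0) * (‖v‖ * ‖v‖⁻¹) * v i := by ring
      rw [e1, mul_inv_cancel₀ hvn.ne', mul_one]
      have e2 : p i + t B0 * v i + (t B.1 - t B0) * v i = p i + t B.1 * v i := by ring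
      rw [e2]
      exact h1
  choose x hx1 hx2 using hk
  have hcomp : IsCompact (Metric.closedBall (0 : Fin (n + 1) → ℝ) (R + 1) ×ˢ
        (Metric.sphere (0 : Fin (n + 1) → ℝ) 1 ×ˢ Metric.closedBall (0 : F → ℝ) (2 * (R + 1)))) :=
    (isCompact_closedBall _ _).prod ((isCompact_sphere _ _).prod (isCompact_closedBall _ _))
  obtain ⟨y, hy, φ, hφ, hlim⟩ := hcomp.tendsto_subseq hx1
  refine ⟨y.1, y.2.1, ?_, ?_⟩
  · intro h0
    have := hy.2.1
    rw [mem_sphere_zero_iff_norm, h0, norm_zero] at this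
    exact absurd this (by norm_num)
  · intro B hB
    refine ⟨y.2.2 ⟨B, hB⟩, fun i => ?_⟩
    have hcont : Continuous (fun z : (Fin (n + 1) → ℝ) × (Fin (n + 1) → ℝ) × (F → ℝ) =>
        z.1 i + z.2.2 ⟨B, hB⟩ * z.2.1 i) := by fun_prop
    have hg := (hcont.tendsto y).comp hlim
    have hinv : Tendsto (fun k => 1 / ((φ k : ℝ) + 1)) atTop (𝓝 0) :=
      tendsto_one_div_add_atTop_nhds_zero_nat.comp hφ.tendsto_atTop
    constructor
    · have h1 : Tendsto (fun k => a B i - 1 / ((φ k : ℝ) + 1)) atTop (𝓝 (a B i - 0)) :=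
        tendsto_const_nhds.sub hinv
      rw [sub_zero] at h1
      exact le_of_tendsto_of_tendsto' h1 hg (fun k => (hx2 (φ k) ⟨B, hB⟩ i).1)
    · have h1 : Tendsto (fun k => b B i + 1 / ((φ k : ℝ) + 1)) atTop (𝓝 (b B i + 0)) :=
        tendsto_const_nhds.add hinv
      rw [add_zero] at h1
      exact le_of_tendsto_of_tendsto' hg h1 (fun k => (hx2 (φ k) ⟨B, hB⟩ i).2)

/-- the upper bound -/
theorem upper (n : ℕ) : HellyForLines (n + 1) (2 ^ n * (2 * n + 1)) := by
  classical
  intro F hFfin hFbox hFsub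
  by_cases hne : F.Nonempty
  · choose! a b hab hB using hFbox
    set Fs := hFfin.toFinset with hFs
    have hmem : ∀ B, B ∈ Fs ↔ B ∈ F := fun B => hFfin.mem_toFinset
    have hsub : ∀ G ⊆ Fs, G.card ≤ 2 ^ n * (2 * n + 1) →
        ∃ p v : Fin (n + 1) → ℝ, ∀ B ∈ G, ∃ t : ℝ, ∀ i, a B i ≤ p i + t * v i ∧ p i + t * v i ≤ b B i := by
      intro G hG hGc
      obtain ⟨p, v, _, hpv⟩ := hFsub (G : Set (Set (Fin (n + 1) → ℝ)))
        (fun B hB => (hmem B).mp (hG hB)) (by rw [Set.ncard_coe_finset]; exact hGc)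
      refine ⟨p, v, fun B hBG => ?_⟩
      obtain ⟨t, ht⟩ := hpv B hBG
      have hBF := (hmem B).mp (hG hBG)
      rw [hB B hBF] at ht
      exact ⟨t, fun i => ⟨by simpa using ht.1 i, by simpa using ht.2 i⟩⟩
    obtain ⟨p, v, hv, hpv⟩ := limit_line n Fs
      (by obtain ⟨B, hBF⟩ := hne; exact ⟨B, (hmem B).mpr hBF⟩) a b
      (fun e he => enlarged n Fs a b hsub e he)
    refine ⟨p, v, hv, fun B hBF => ?_⟩
    obtain ⟨t, ht⟩ := hpv B ((hmem B).mpr hBF)
    refine ⟨t, ?_⟩
    rw [hB B hBF]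
    exact ⟨fun i => by simpa using (ht i).1, fun i => by simpa using (ht i).2⟩
  · rw [Set.not_nonempty_iff_eq_empty] at hne
    subst hne
    refine ⟨0, fun _ => 1, ?_, by simp⟩
    intro h
    have := congrFun h 0
    simp at this

end Pool.Agent.H23.Box
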