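import Mathlib

set_option autoImplicit false

namespace Pool.Agent.H23.Peak

open Finset

/-- iterated forward difference of a sequence -/
def D (v : ℕ → ℝ) : ℕ → ℕ → ℝ
  | 0, r => v r
  | j + 1, r => D v j (r + 1) - D v j r

lemma D_zero (v : ℕ → ℝ) (r : ℕ) : D v 0 r = v r := rfl

lemma D_succ (v : ℕ → ℝ) (j r : ℕ) : D v (j + 1) r = D v j (r + 1) - D v j r := rfl

lemma D_sub (v w : ℕ → ℝ) (j r : ℕ) : D (fun n => v n - w n) j r = D v j r - D w j r := by
  induction j generalizing r with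
  | zero => rfl
  | succ j ih => simp only [D_succ, ih]; ring

lemma D_mul (a : ℝ) (v : ℕ → ℝ) (j r : ℕ) : D (fun n => a * v n) j r = a * D v j r := by
  induction j generalizing r with
  | zero => rfl
  | succ j ih => simp only [D_succ, ih]; ring

lemma D_sum {ι : Type*} (s : Finset ι) (f : ι → ℕ → ℝ) (j r : ℕ) :
    D (fun n => ∑ i ∈ s, f i n) j r = ∑ i ∈ s, D (f i) j r := by
  induction j generalizing r with
  | zero => rfl
  | succ j ih => simp only [D_succ, ih, Finset.sum_sub_distrib]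

lemma D_choose (i j r : ℕ) : D (fun n => (n.choose i : ℝ)) j r =
    if j ≤ i then (r.choose (i - j) : ℝ) else 0 := by
  induction j generalizing r with
  | zero => simp [D_zero]
  | succ j ih =>
    rw [D_succ, ih, ih]
    by_cases h : j + 1 ≤ i
    · have h' : j ≤ i := by omega
      simp only [h, h', if_true]
      obtain ⟨t, ht⟩ : ∃ t, i - j = t + 1 := ⟨i - j - 1, by omega⟩
      have ht' : i - (j + 1) = t := by omega
      rw [ht, ht', Nat.choose_succ_succ]
      push_cast; ring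
    · rw [if_neg h]
      by_cases h' : j ≤ i
      · have : i = j := by omega
        subst this
        simp
      · simp [h']

/-- explicit formula for the iterated difference -/
lemma D_eq_sum (v : ℕ → ℝ) (j r : ℕ) :
    D v j r = ∑ t ∈ range (j + 1), (-1 : ℝ) ^ (j + t) * (j.choose t : ℝ) * v (r + t) := by
  induction j generalizing r with
  | zero => simp [D_zero]
  | succ j ih =>
    rw [D_succ, ih, ih]
    have h1 : ∑ t ∈ range (j + 1 + 1), (-1 : ℝ) ^ (j + 1 + t) * ((j + 1).choose t : ℝ) * v (r + t)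
        = ∑ t ∈ range (j + 1), (-1 : ℝ) ^ (j + 1 + (t + 1)) * ((j + 1).choose (t + 1) : ℝ) * v (r + (t + 1))
          + (-1 : ℝ) ^ (j + 1 + 0) * ((j + 1).choose 0 : ℝ) * v (r + 0) := by
      rw [Finset.sum_range_succ']
    have h2 : ∑ t ∈ range (j + 1), (-1 : ℝ) ^ (j + t) * (j.choose t : ℝ) * v (r + t)
        = ∑ t ∈ range (j + 1), (-1 : ℝ) ^ (j + (t + 1)) * (j.choose (t + 1) : ℝ) * v (r + (t + 1))
          + (-1 : ℝ) ^ (j + 0) * (j.choose 0 : ℝ) * v (r + 0) := by
      rw [Finset.sum_range_succ', Finset.sum_range_succ]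
      simp
    rw [h1, h2]
    rw [← sub_sub, ← Finset.sum_sub_distrib, sub_eq_add_neg]
    congr 1
    · apply Finset.sum_congr rfl
      intro t _
      rw [Nat.choose_succ_succ]
      have : r + 1 + t = r + (t + 1) := by ring
      rw [this]
      push_cast
      ring
    · simp [pow_succ]

/-- the Newton forward formula -/
lemma newton (v : ℕ → ℝ) (n r : ℕ) :
    v (r + n) = ∑ i ∈ range (n + 1), (n.choose i : ℝ) * D v i r := by
  suffices h : ∀ (j r : ℕ), D v j (r + n) = ∑ i ∈ range (n + 1), (n.choose i : ℝ) * D v (j + i) r by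
    have := h 0 r
    simpa [D_zero] using this
  induction n with
  | zero => intro j r; simp
  | succ n ih =>
    intro j r
    have e : r + (n + 1) = (r + n) + 1 := by ring
    have h3 : D v j (r + n + 1) = D v j (r + n) + D v (j + 1) (r + n) := by
      rw [D_succ]; ring
    rw [e, h3, ih, ih]
    rw [Finset.sum_range_succ' (fun i => ((n + 1).choose i : ℝ) * D v (j + i) r)]
    have h2 : ∑ i ∈ range (n + 1), (n.choose i : ℝ) * D v (j + i) r
        = ∑ i ∈ range (n + 1), (n.choose (i + 1) : ℝ) * D v (j + (i + 1)) r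
          + (n.choose 0 : ℝ) * D v (j + 0) r := by
      rw [Finset.sum_range_succ', Finset.sum_range_succ]
      simp
    rw [h2]
    have h4 : ∑ i ∈ range (n + 1), ((n + 1).choose (i + 1) : ℝ) * D v (j + (i + 1)) r
        = ∑ i ∈ range (n + 1), (n.choose (i + 1) : ℝ) * D v (j + (i + 1)) r
        + ∑ i ∈ range (n + 1), (n.choose i : ℝ) * D v (j + 1 + i) r := by
      rw [← Finset.sum_add_distrib]
      apply Finset.sum_congr rfl
      intro i _
      rw [Nat.choose_succ_succ]
      have : j + 1 + i = j + (i + 1) := by ring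
      rw [this]
      push_cast; ring
    rw [h4]
    simp
    ring

/-- The operator producing the peak polynomial of `S ∪ {m}` from that of `S`. -/
def nextv (m : ℕ) (v : ℕ → ℝ) (n : ℕ) : ℝ :=
  (∑ i ∈ range m, (-1 : ℝ) ^ (m + 1 + i) * v i * (n.choose i : ℝ)) - v n

lemma nextv_succ (m : ℕ) (v : ℕ → ℝ) (n : ℕ) :
    nextv (m + 1) v n = v m * (n.choose m : ℝ) - 2 * v n - nextv m v n := by
  unfold nextv
  rw [Finset.sum_range_succ]
  have : ∑ i ∈ range m, (-1 : ℝ) ^ (m + 1 + 1 + i) * v i * (n.choose i : ℝ)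
      = - ∑ i ∈ range m, (-1 : ℝ) ^ (m + 1 + i) * v i * (n.choose i : ℝ) := by
    rw [← Finset.sum_neg_distrib]
    apply Finset.sum_congr rfl
    intro i _
    ring
  rw [this]
  have : (-1 : ℝ) ^ (m + 1 + 1 + m) = 1 := by
    rw [show m + 1 + 1 + m = 2 * (m + 1) by ring]
    simp [pow_mul]
  rw [this]; ring

lemma nextv_lt (m : ℕ) (v : ℕ → ℝ) (i : ℕ) (hi : i < m) :
    nextv m v i = (-1 : ℝ) ^ (m + 1 + i) * D v i 0 - v i := by
  unfold nextv
  congr 1
  rw [D_eq_sum, Finset.mul_sum]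
  have hsub : range (i + 1) ⊆ range m := by
    intro x hx; simp at hx ⊢; omega
  rw [← Finset.sum_subset hsub]
  · apply Finset.sum_congr rfl
    intro k hk
    have : (-1 : ℝ) ^ (m + 1 + i) * (-1 : ℝ) ^ (i + k) = (-1 : ℝ) ^ (m + 1 + k) := by
      rw [← pow_add]
      rw [show m + 1 + i + (i + k) = 2 * i + (m + 1 + k) by ring, pow_add, pow_mul]
      simp
    rw [← mul_assoc, ← mul_assoc, this]
    simp only [zero_add]
    ring
  · intro k _ hk
    have : i.choose k = 0 := by
      apply Nat.choose_eq_zero_of_lt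
      simp at hk; omega
    simp [this]

lemma nextv_self (m : ℕ) (v : ℕ → ℝ) (h : D v m 0 = 0) : nextv m v m = 0 := by
  unfold nextv
  rw [D_eq_sum, Finset.sum_range_succ] at h
  have h1 : ∑ i ∈ range m, (-1 : ℝ) ^ (m + 1 + i) * v i * (m.choose i : ℝ)
      = - ∑ t ∈ range m, (-1 : ℝ) ^ (m + t) * (m.choose t : ℝ) * v (0 + t) := by
    rw [← Finset.sum_neg_distrib]
    apply Finset.sum_congr rfl
    intro i _
    simp only [zero_add]
    ring
  rw [h1]
  have h2 : (-1 : ℝ) ^ (m + m) = 1 := by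
    rw [← two_mul, pow_mul]; simp
  simp only [h2, Nat.choose_self, zero_add] at h
  simp only [zero_add]
  push_cast at h
  linarith

/-- value just above the maximum -/
lemma nextv_add_one (m : ℕ) (v : ℕ → ℝ) (h : D v (m + 1) 0 = 0) :
    nextv m v (m + 1) = (m + 1) * v m - 2 * v (m + 1) := by
  unfold nextv
  rw [D_eq_sum, Finset.sum_range_succ, Finset.sum_range_succ] at h
  have h1 : ∑ i ∈ range m, (-1 : ℝ) ^ (m + 1 + i) * v i * ((m + 1).choose i : ℝ)
      = ∑ t ∈ range m, (-1 : ℝ) ^ (m + 1 + t) * ((m + 1).choose t : ℝ) * v (0 + t) := by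
    apply Finset.sum_congr rfl
    intro i _
    simp only [zero_add]
    ring
  rw [h1]
  have h2 : (-1 : ℝ) ^ (m + 1 + (m + 1)) = 1 := by
    rw [← two_mul, pow_mul]; simp
  have h3 : (-1 : ℝ) ^ (m + 1 + m) = -1 := by
    rw [show m + 1 + m = 2 * m + 1 by ring, pow_succ, pow_mul]; simp
  have h4 : (m + 1).choose m = m + 1 := by
    rw [Nat.choose_succ_self_right]
  simp only [h2, h3, h4, Nat.choose_self, zero_add] at h
  simp only [zero_add]
  push_cast at h
  linarith

/-- value two above the maximum -/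
lemma nextv_add_two (m : ℕ) (v : ℕ → ℝ) (h1 : D v (m + 1) 0 = 0) (h2 : D v (m + 2) 0 = 0) :
    2 * nextv m v (m + 2) = (m + 2) * nextv m v (m + 1) := by
  -- use the recursion: nextv (m+2) vanishes at m+2, nextv (m+1) at m+2 is known
  have e2 : nextv (m + 2) v (m + 2) = 0 := nextv_self _ _ h2
  have e1 : nextv (m + 1) v (m + 2) = ((m + 1 : ℕ) + 1) * v (m + 1) - 2 * v (m + 2) :=
    nextv_add_one (m + 1) v h2
  have r1 := nextv_succ m v (m + 2)
  have e0 := nextv_add_one m v h1
  have hc : ((m + 2).choose m : ℝ) = (m + 2) * (m + 1) / 2 := by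
    have : (m + 2).choose m = (m + 2).choose 2 := by
      rw [← Nat.choose_symm (show 2 ≤ m + 2 by omega)]
      simp
    rw [this, Nat.cast_choose_two]
    push_cast; ring
  rw [hc] at r1
  rw [e0]
  push_cast at e1
  linarith

/-- general difference formula for `nextv` -/
lemma D_nextv (m : ℕ) (v : ℕ → ℝ) (j s r : ℕ) (hj : j + s = m) :
    D (nextv m v) j r =
      (∑ t ∈ range s, (-1 : ℝ) ^ (s + 1 + t) * v (j + t) * (r.choose t : ℝ)) - D v j r := by
  have h0 : nextv m v = fun n => (∑ i ∈ range m, ((-1 : ℝ) ^ (m + 1 + i) * v i) * (n.choose i : ℝ)) - v n := rfl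
  rw [h0, D_sub]
  congr 1
  rw [D_sum]
  simp only [D_mul, D_choose]
  subst hj
  rw [Finset.sum_range_add]
  have hz : ∑ x ∈ range j, (-1 : ℝ) ^ (j + s + 1 + x) * v x *
      (if j ≤ x then (r.choose (x - j) : ℝ) else 0) = 0 := by
    apply Finset.sum_eq_zero
    intro x hx
    have : ¬ j ≤ x := by simp at hx; omega
    simp [this]
  rw [hz, zero_add]
  apply Finset.sum_congr rfl
  intro t _
  have h1 : j ≤ j + t := by omega
  have h2 : j + t - j = t := by omega
  rw [if_pos h1, h2]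
  have : (-1 : ℝ) ^ (j + s + 1 + (j + t)) = (-1 : ℝ) ^ (s + 1 + t) := by
    rw [show j + s + 1 + (j + t) = 2 * j + (s + 1 + t) by ring, pow_add, pow_mul]
    simp
  rw [this]

lemma D_nextv_diag (m : ℕ) (v : ℕ → ℝ) (j r : ℕ) (h : j + r = m) :
    D (nextv m v) j r = v m - D v r j - D v j r := by
  rw [D_nextv m v j r r h]
  congr 1
  rw [D_eq_sum v r j, Finset.sum_range_succ]
  have h2 : (-1 : ℝ) ^ (r + r) = 1 := by
    rw [← two_mul, pow_mul]; simp
  rw [h2]
  have h1 : ∑ t ∈ range r, (-1 : ℝ) ^ (r + 1 + t) * v (j + t) * (r.choose t : ℝ)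
      = - ∑ t ∈ range r, (-1 : ℝ) ^ (r + t) * (r.choose t : ℝ) * v (j + t) := by
    rw [← Finset.sum_neg_distrib]
    apply Finset.sum_congr rfl
    intro i _
    ring
  rw [h1, h]
  simp

lemma D_nextv_top (m : ℕ) (v : ℕ → ℝ) (r : ℕ) : D (nextv m v) m r = - D v m r := by
  rw [D_nextv m v m 0 r (by ring)]
  simp

lemma D_nextv_zero (m : ℕ) (v : ℕ → ℝ) (i : ℕ) (hi : i < m) :
    D (nextv m v) i 0 = (-1 : ℝ) ^ (m + 1 + i) * v i - D v i 0 := by
  rw [D_nextv m v i (m - i) 0 (by omega)]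
  congr 1
  have : m - i = (m - i - 1) + 1 := by omega
  rw [this, Finset.sum_range_succ']
  have hz : ∑ k ∈ range (m - i - 1), (-1 : ℝ) ^ (m - i - 1 + 1 + 1 + (k + 1)) * v (i + (k + 1)) *
      (Nat.choose 0 (k + 1) : ℝ) = 0 := by
    apply Finset.sum_eq_zero
    intro x _
    simp
  rw [hz]
  have e : (-1 : ℝ) ^ (m - i - 1 + 1 + 1 + 0) = (-1 : ℝ) ^ (m + 1 + i) := by
    have : m + 1 + i = 2 * i + (m - i - 1 + 1 + 1 + 0) := by omega
    conv_rhs => rw [this, pow_add (-1 : ℝ) (2 * i), pow_mul (-1 : ℝ) 2 i]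
    simp
  rw [e]
  simp

/-- The properties kept by induction. -/
structure Good (m : ℕ) (v : ℕ → ℝ) : Prop where
  deg : ∀ j r, m ≤ j → 1 ≤ j → D v j r = 0
  pos : ∀ k r, m ≤ k + r → 0 ≤ D v k r
  sd : ∀ i, i < m → D v i 0 = (-1 : ℝ) ^ (m + i) * v i
  pos1 : 0 < v (m + 1)

lemma good_zero : Good 0 (fun _ => (1 : ℝ)) := by
  have h : ∀ j r, 1 ≤ j → D (fun _ => (1 : ℝ)) j r = 0 := by
    intro j r hj
    induction j generalizing r with
    | zero => omega
    | succ j ih =>
      rw [D_succ]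
      rcases Nat.eq_zero_or_pos j with h0 | h0
      · subst h0; simp [D_zero]
      · rw [ih _ h0, ih _ h0]; simp
  refine ⟨fun j r _ hj => h j r hj, ?_, fun i hi => by omega, by norm_num⟩
  intro k r _
  rcases Nat.eq_zero_or_pos k with h0 | h0
  · subst h0; simp [D_zero]
  · rw [h k r h0]

lemma Good.mono {m : ℕ} {v : ℕ → ℝ} (g : Good m v) (d k s : ℕ) (h : m + 1 ≤ k + s + d) :
    D v (k + d) s ≤ D v k (s + d) := by
  induction d generalizing k s with
  | zero => simp
  | succ d ih =>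
    have h1 := ih (k + 1) s (by omega)
    have h2 : D v (k + 1) (s + d) = D v k (s + d + 1) - D v k (s + d) := D_succ _ _ _
    have h3 : 0 ≤ D v k (s + d) := g.pos _ _ (by omega)
    have e : k + 1 + d = k + (d + 1) := by ring
    rw [e] at h1
    calc D v (k + (d + 1)) s ≤ D v (k + 1) (s + d) := h1
      _ ≤ D v k (s + (d + 1)) := by rw [h2]; have : s + d + 1 = s + (d + 1) := by ring
                                    rw [this]; linarith

lemma Good.val_nonneg {m : ℕ} {v : ℕ → ℝ} (g : Good m v) (n : ℕ) (h : m ≤ n) : 0 ≤ v n := by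
  have := g.pos 0 n (by omega)
  simpa [D_zero] using this

lemma Good.val_mono {m : ℕ} {v : ℕ → ℝ} (g : Good m v) (n : ℕ) (h : m ≤ n) (k : ℕ) :
    v n ≤ v (n + k) := by
  induction k with
  | zero => simp
  | succ k ih =>
    have h1 := g.pos 1 (n + k) (by omega)
    rw [D_succ, D_zero, D_zero] at h1
    have : n + (k + 1) = n + k + 1 := by ring
    rw [this]; linarith

lemma Good.val_mono' {m : ℕ} {v : ℕ → ℝ} (g : Good m v) {a b : ℕ} (h : m ≤ a) (hab : a ≤ b) :
    v a ≤ v b := by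
  obtain ⟨k, rfl⟩ := Nat.exists_eq_add_of_le hab
  exact g.val_mono a h k

lemma Good.val_pos {m : ℕ} {v : ℕ → ℝ} (g : Good m v) (n : ℕ) (h : m + 1 ≤ n) : 0 < v n :=
  lt_of_lt_of_le g.pos1 (g.val_mono' (by omega) h)

/-- key monotonicity: symmetric pairs -/
lemma Good.key {m1 : ℕ} {v : ℕ → ℝ} (g : Good m1 v) (m : ℕ) (hm : m1 + 2 ≤ m) (j r : ℕ)
    (h : (j + 1) + r = m) (hjr : j + 1 ≤ r) :
    D v (j + 1) r + D v r (j + 1) ≤ v m - v (m - 1) := by
  induction j generalizing r with
  | zero =>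
    have hr : r + 1 = m := by omega
    have h1 : D v r 1 = 0 := by
      apply g.deg <;> omega
    have h2 : D v (0 + 1) r = v m - v (m - 1) := by
      rw [D_succ, D_zero, D_zero]
      have : m - 1 = r := by omega
      rw [this, hr]
    rw [h2, h1]; simp
  | succ j ih =>
    have h0 := ih (r + 1) (by omega) (by omega)
    have e1 : D v (j + 1 + 1) r = D v (j + 1) (r + 1) - D v (j + 1) r := D_succ _ _ _
    have e2 : D v (r + 1) (j + 1) = D v r (j + 1 + 1) - D v r (j + 1) := D_succ _ _ _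
    have e3 : D v r (j + 1) ≤ D v (j + 1) r := by
      obtain ⟨d, hd⟩ := Nat.exists_eq_add_of_le (show j + 1 ≤ r by omega)
      have := g.mono d (j + 1) (j + 1) (by omega)
      rw [hd]
      simpa using this
    linarith

lemma Good.diag_ge {m1 : ℕ} {v : ℕ → ℝ} (g : Good m1 v) (m : ℕ) (hm : m1 + 2 ≤ m) (j r : ℕ)
    (h : j + r = m) (hj : 1 ≤ j) (hr : 1 ≤ r) : v (m - 1) ≤ D (nextv m v) j r := by
  rw [D_nextv_diag m v j r h]
  rcases le_total j r with hjr | hjr
  · obtain ⟨j', rfl⟩ := Nat.exists_eq_add_of_le' hj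
    have := g.key m hm j' r h hjr
    linarith
  · obtain ⟨r', rfl⟩ := Nat.exists_eq_add_of_le' hr
    have := g.key m hm r' j (by omega) hjr
    linarith

lemma Good.diag_nonneg {m1 : ℕ} {v : ℕ → ℝ} (g : Good m1 v) (m : ℕ) (hm : m1 + 2 ≤ m) (j r : ℕ)
    (h : j + r = m) : 0 ≤ D (nextv m v) j r := by
  rcases Nat.eq_zero_or_pos j with hj | hj
  · subst hj
    have : r = m := by omega
    subst this
    rw [D_zero, nextv_self r v (g.deg _ _ (by omega) (by omega))]
  · rcases Nat.eq_zero_or_pos r with hr | hr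
    · subst hr
      have : j = m := by omega
      subst this
      rw [D_nextv_top, g.deg _ _ (by omega) (by omega)]; simp
    · exact le_trans (g.val_nonneg _ (by omega)) (g.diag_ge m hm j r h hj hr)

lemma Good.next_deg {m1 : ℕ} {v : ℕ → ℝ} (g : Good m1 v) (m : ℕ) (hm : m1 + 2 ≤ m) (j r : ℕ)
    (hj : m ≤ j) : D (nextv m v) j r = 0 := by
  obtain ⟨d, rfl⟩ := Nat.exists_eq_add_of_le hj
  clear hj
  induction d generalizing r with
  | zero =>
    simp only [add_zero]
    rw [D_nextv_top, g.deg _ _ (by omega) (by omega)]; simp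
  | succ d ih =>
    have : m + (d + 1) = (m + d) + 1 := by ring
    rw [this, D_succ, ih, ih]; simp

lemma Good.next_pos {m1 : ℕ} {v : ℕ → ℝ} (g : Good m1 v) (m : ℕ) (hm : m1 + 2 ≤ m) (k r : ℕ)
    (h : m ≤ k + r) : 0 ≤ D (nextv m v) k r := by
  obtain ⟨d, hd⟩ := Nat.exists_eq_add_of_le h
  clear h
  induction d generalizing k r with
  | zero => exact g.diag_nonneg m hm k r (by omega)
  | succ d ih =>
    induction r generalizing k with
    | zero =>
      rw [g.next_deg m hm k 0 (by omega)]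
    | succ s ihs =>
      have e : D (nextv m v) (k + 1) s = D (nextv m v) k (s + 1) - D (nextv m v) k s := D_succ _ _ _
      have h1 := ih k s (by omega)
      have h2 := ihs (k + 1) (by omega)
      linarith

lemma Good.next_val_ge {m1 : ℕ} {v : ℕ → ℝ} (g : Good m1 v) (m : ℕ) (hm : m1 + 2 ≤ m) :
    ((m : ℝ) - 1) * v (m - 1) ≤ nextv m v (m + 1) := by
  have claim : ∀ s k, k + (s + 1) = m + 1 → 1 ≤ k → (s : ℝ) * v (m - 1) ≤ D (nextv m v) k (s + 1) := by
    intro s
    induction s with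
    | zero =>
      intro k hk _
      rw [g.next_deg m hm k _ (by omega)]; simp
    | succ s ih =>
      intro k hk hk1
      have e : D (nextv m v) (k + 1) (s + 1) = D (nextv m v) k (s + 1 + 1) - D (nextv m v) k (s + 1) :=
        D_succ _ _ _
      have h1 := ih (k + 1) (by omega) (by omega)
      have h2 := g.diag_ge m hm k (s + 1) (by omega) hk1 (by omega)
      push_cast
      linarith
  have e : D (nextv m v) (0 + 1) m = D (nextv m v) 0 (m + 1) - D (nextv m v) 0 m := D_succ _ _ _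
  have h1 := claim (m - 1) 1 (by omega) (le_refl _)
  have h2 : D (nextv m v) 0 m = 0 := by
    rw [D_zero]
    exact nextv_self m v (g.deg _ _ (by omega) (by omega))
  have h3 : m - 1 + 1 = m := by omega
  rw [h3] at h1
  have h4 : ((m - 1 : ℕ) : ℝ) = (m : ℝ) - 1 := by
    rw [Nat.cast_sub (by omega)]; simp
  rw [h4] at h1
  rw [h2] at e
  simp only [zero_add] at e
  rw [D_zero] at e
  linarith

lemma Good.next {m1 : ℕ} {v : ℕ → ℝ} (g : Good m1 v) (m : ℕ) (hm : m1 + 2 ≤ m) :
    Good m (nextv m v) := by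
  refine ⟨fun j r hj _ => g.next_deg m hm j r hj, g.next_pos m hm, ?_, ?_⟩
  · intro i hi
    rw [D_nextv_zero m v i hi, nextv_lt m v i hi]
    have h1 : (-1 : ℝ) ^ (m + i) * (-1 : ℝ) ^ (m + 1 + i) = -1 := by
      rw [← pow_add, show m + i + (m + 1 + i) = 2 * (m + i) + 1 by ring, pow_succ, pow_mul]
      simp
    have h2 : (-1 : ℝ) ^ (m + i) = - (-1 : ℝ) ^ (m + 1 + i) := by ring
    rw [mul_sub, ← mul_assoc, h1, h2]; ring
  · have h1 := g.next_val_ge m hm
    have h2 : 0 < v (m - 1) := g.val_pos _ (by omega)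
    have h3 : (1 : ℝ) ≤ (m : ℝ) - 1 := by
      have : (2 : ℝ) ≤ (m : ℝ) := by exact_mod_cast (show 2 ≤ m by omega)
      linarith
    nlinarith

lemma Good.next_self {m1 : ℕ} {v : ℕ → ℝ} (g : Good m1 v) (m : ℕ) (hm : m1 + 2 ≤ m) :
    nextv m v m = 0 := nextv_self m v (g.deg _ _ (by omega) (by omega))

lemma Good.next_growth {m1 : ℕ} {v : ℕ → ℝ} (g : Good m1 v) (m : ℕ) (hm : m1 + 2 ≤ m) :
    2 * nextv m v (m + 2) = (m + 2) * nextv m v (m + 1) :=
  nextv_add_two m v (g.deg _ _ (by omega) (by omega)) (g.deg _ _ (by omega) (by omega))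

end Pool.Agent.H23.Peak
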