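import Mathlib
import Pool.Agent.H23.PeakAlg

set_option autoImplicit false

namespace Pool.Agent.H23.Peak

open Finset

/-- `j` (zero-based) is a peak of the word `w` of length `n` -/
def isPk (n : ℕ) (w : ℕ → ℕ) (j : ℕ) : Prop :=
  0 < j ∧ j + 1 < n ∧ w (j - 1) < w j ∧ w (j + 1) < w j

/-- the peak set (one-based) of the word `w` of length `n` is `S` -/
def PkSet (S : Finset ℕ) (n : ℕ) (w : ℕ → ℕ) : Prop :=
  ∀ j, j < n → (j + 1 ∈ S ↔ isPk n w j)

/-- the word of a permutation -/
def toN {n : ℕ} (π : Equiv.Perm (Fin n)) : ℕ → ℕ := fun i => if h : i < n then (π ⟨i, h⟩ : ℕ) else 0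

lemma toN_lt {n : ℕ} (π : Equiv.Perm (Fin n)) (i : ℕ) (h : i < n) : toN π i = (π ⟨i, h⟩ : ℕ) := by
  simp [toN, h]

/-- number of permutations with given peak set -/
noncomputable def NP (S : Finset ℕ) (n : ℕ) : ℕ :=
  Nat.card {π : Equiv.Perm (Fin n) // PkSet S n (toN π)}

/-- a property of words of length `n` depending only on the relative order -/
def OrdInv (n : ℕ) (Q : (ℕ → ℕ) → Prop) : Prop :=
  ∀ w w' : ℕ → ℕ, (∀ i, i < n → ∀ j, j < n → (w i < w j ↔ w' i < w' j)) → (Q w ↔ Q w')

lemma PkSet_ordInv (S : Finset ℕ) (n : ℕ) : OrdInv n (PkSet S n) := by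
  intro w w' h
  unfold PkSet isPk
  constructor
  · intro hw j hj
    rw [hw j hj]
    constructor
    · rintro ⟨h1, h2, h3, h4⟩
      exact ⟨h1, h2, (h _ (by omega) _ hj).mp h3, (h _ h2 _ hj).mp h4⟩
    · rintro ⟨h1, h2, h3, h4⟩
      exact ⟨h1, h2, (h _ (by omega) _ hj).mpr h3, (h _ h2 _ hj).mpr h4⟩
  · intro hw j hj
    rw [hw j hj]
    constructor
    · rintro ⟨h1, h2, h3, h4⟩
      exact ⟨h1, h2, (h _ (by omega) _ hj).mpr h3, (h _ h2 _ hj).mpr h4⟩
    · rintro ⟨h1, h2, h3, h4⟩
      exact ⟨h1, h2, (h _ (by omega) _ hj).mp h3, (h _ h2 _ hj).mp h4⟩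

section shuffle

variable (a b : ℕ)

lemma compl_card (A : {A : Finset (Fin (a + b)) // A.card = a}) : (A.1)ᶜ.card = b := by
  rw [Finset.card_compl, A.2, Fintype.card_fin]; omega

/-- glue a set, a permutation of the prefix and one of the suffix -/
def glue (x : {A : Finset (Fin (a + b)) // A.card = a} × Equiv.Perm (Fin a) × Equiv.Perm (Fin b)) :
    Equiv.Perm (Fin (a + b)) :=
  finSumFinEquiv.symm.trans ((Equiv.sumCongr x.2.1 x.2.2).trans
    (finSumEquivOfFinset x.1.2 (compl_card a b x.1)))

lemma glue_left (x : {A : Finset (Fin (a + b)) // A.card = a} × Equiv.Perm (Fin a) × Equiv.Perm (Fin b))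
    (i : Fin a) : glue a b x (Fin.castAdd b i) = x.1.1.orderEmbOfFin x.1.2 (x.2.1 i) := by
  simp [glue]

lemma glue_right (x : {A : Finset (Fin (a + b)) // A.card = a} × Equiv.Perm (Fin a) × Equiv.Perm (Fin b))
    (i : Fin b) : glue a b x (Fin.natAdd a i) =
      (x.1.1)ᶜ.orderEmbOfFin (compl_card a b x.1) (x.2.2 i) := by
  simp [glue]

lemma glue_injective : Function.Injective (glue a b) := by
  intro x y hxy
  have hA : x.1 = y.1 := by
    apply Subtype.ext
    have key : ∀ z : {A : Finset (Fin (a + b)) // A.card = a} × Equiv.Perm (Fin a) × Equiv.Perm (Fin b),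
        z.1.1 = Finset.univ.image (fun i : Fin a => glue a b z (Fin.castAdd b i)) := by
      intro z
      ext t
      simp only [Finset.mem_image, Finset.mem_univ, true_and]
      constructor
      · intro ht
        have : t ∈ Set.range (z.1.1.orderEmbOfFin z.1.2) := by
          rw [Finset.range_orderEmbOfFin]; exact ht
        obtain ⟨i, hi⟩ := this
        refine ⟨z.2.1.symm i, ?_⟩
        rw [glue_left]; simpa using hi
      · rintro ⟨i, hi⟩
        rw [← hi, glue_left]
        exact Finset.orderEmbOfFin_mem _ _ _
    rw [key x, key y, hxy]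
  obtain ⟨A, σ, τ⟩ := x
  obtain ⟨A', σ', τ'⟩ := y
  simp only at hA
  subst hA
  have h1 : σ = σ' := by
    ext i
    have := congrArg (fun e => e (Fin.castAdd b i)) hxy
    simp only [glue_left] at this
    have := (A.1.orderEmbOfFin A.2).injective this
    rw [this]
  have h2 : τ = τ' := by
    ext i
    have := congrArg (fun e => e (Fin.natAdd a i)) hxy
    simp only [glue_right] at this
    have := ((A.1)ᶜ.orderEmbOfFin (compl_card a b A)).injective this
    rw [this]
  rw [h1, h2]

lemma glue_bijective : Function.Bijective (glue a b) := by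
  rw [Fintype.bijective_iff_injective_and_card]
  refine ⟨glue_injective a b, ?_⟩
  rw [Fintype.card_prod, Fintype.card_prod, Fintype.card_finset_len, Fintype.card_perm,
    Fintype.card_perm, Fintype.card_perm, Fintype.card_fin, Fintype.card_fin, Fintype.card_fin]
  have := Nat.add_choose_mul_factorial_mul_factorial b a
  rw [← Nat.add_comm a b] at this
  rw [← this]; ring

/-- product formula for conditions on prefix and suffix -/
lemma card_split (Q1 Q2 : (ℕ → ℕ) → Prop) (h1 : OrdInv a Q1) (h2 : OrdInv b Q2) :
    Nat.card {π : Equiv.Perm (Fin (a + b)) // Q1 (toN π) ∧ Q2 (fun i => toN π (a + i))} =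
      (a + b).choose a * (Nat.card {σ : Equiv.Perm (Fin a) // Q1 (toN σ)} *
        Nat.card {τ : Equiv.Perm (Fin b) // Q2 (toN τ)}) := by
  have e1 : {π : Equiv.Perm (Fin (a + b)) // Q1 (toN π) ∧ Q2 (fun i => toN π (a + i))} ≃
      {x : {A : Finset (Fin (a + b)) // A.card = a} × (Equiv.Perm (Fin a) × Equiv.Perm (Fin b)) //
        True ∧ (Q1 (toN x.2.1) ∧ Q2 (toN x.2.2))} := by
    refine (Equiv.subtypeEquiv (Equiv.ofBijective _ (glue_bijective a b)) ?_).symm
    intro x
    simp only [true_and, Equiv.ofBijective_apply]
    have c1 : Q1 (toN x.2.1) ↔ Q1 (toN (glue a b x)) := by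
      apply h1
      intro i hi j hj
      rw [toN_lt _ _ hi, toN_lt _ _ hj, toN_lt _ i (by omega), toN_lt _ j (by omega)]
      have ei : (⟨i, by omega⟩ : Fin (a + b)) = Fin.castAdd b ⟨i, hi⟩ := rfl
      have ej : (⟨j, by omega⟩ : Fin (a + b)) = Fin.castAdd b ⟨j, hj⟩ := rfl
      rw [ei, ej, glue_left, glue_left, Fin.val_fin_lt, Fin.val_fin_lt]
      exact ((x.1.1.orderEmbOfFin x.1.2).lt_iff_lt).symm
    have c2 : Q2 (toN x.2.2) ↔ Q2 (fun i => toN (glue a b x) (a + i)) := by
      apply h2
      intro i hi j hj
      rw [toN_lt _ _ hi, toN_lt _ _ hj, toN_lt _ (a + i) (by omega), toN_lt _ (a + j) (by omega)]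
      have ei : (⟨a + i, by omega⟩ : Fin (a + b)) = Fin.natAdd a ⟨i, hi⟩ := rfl
      have ej : (⟨a + j, by omega⟩ : Fin (a + b)) = Fin.natAdd a ⟨j, hj⟩ := rfl
      rw [ei, ej, glue_right, glue_right, Fin.val_fin_lt, Fin.val_fin_lt]
      exact (((x.1.1)ᶜ.orderEmbOfFin (compl_card a b x.1)).lt_iff_lt).symm
    rw [c1, c2]
  have e2 : {x : {A : Finset (Fin (a + b)) // A.card = a} × (Equiv.Perm (Fin a) × Equiv.Perm (Fin b)) //
        True ∧ (Q1 (toN x.2.1) ∧ Q2 (toN x.2.2))} ≃
      {A : {A : Finset (Fin (a + b)) // A.card = a} // True} ×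
      {y : Equiv.Perm (Fin a) × Equiv.Perm (Fin b) // Q1 (toN y.1) ∧ Q2 (toN y.2)} :=
    Equiv.subtypeProdEquivProd (p := fun _ => True)
      (q := fun y : Equiv.Perm (Fin a) × Equiv.Perm (Fin b) => Q1 (toN y.1) ∧ Q2 (toN y.2))
  have e3 : {y : Equiv.Perm (Fin a) × Equiv.Perm (Fin b) // Q1 (toN y.1) ∧ Q2 (toN y.2)} ≃
      {σ : Equiv.Perm (Fin a) // Q1 (toN σ)} × {τ : Equiv.Perm (Fin b) // Q2 (toN τ)} :=
    Equiv.subtypeProdEquivProd (p := fun σ : Equiv.Perm (Fin a) => Q1 (toN σ))
      (q := fun τ : Equiv.Perm (Fin b) => Q2 (toN τ))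
  rw [Nat.card_congr e1, Nat.card_congr e2, Nat.card_prod, Nat.card_congr e3, Nat.card_prod]
  congr 1
  have e4 : {A : {A : Finset (Fin (a + b)) // A.card = a} // True} ≃
      {A : Finset (Fin (a + b)) // A.card = a} := Equiv.subtypeUnivEquiv (fun _ => trivial)
  rw [Nat.card_congr e4, Nat.card_eq_fintype_card, Fintype.card_finset_len, Fintype.card_fin]

end shuffle

/-- splitting of the peak condition -/
lemma split_iff (S : Finset ℕ) (a b : ℕ) (ha : 1 ≤ a) (hS : ∀ x ∈ S, x < a) (w : ℕ → ℕ) :
    (PkSet S a w ∧ PkSet ∅ b (fun i => w (a + i))) ↔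
      (PkSet S (a + b) w ∨ PkSet (insert a S) (a + b) w ∨ PkSet (insert (a + 1) S) (a + b) w) := by
  have haS : a ∉ S := fun h => by have := hS a h; omega
  have haS' : a + 1 ∉ S := fun h => by have := hS _ h; omega
  have low : ∀ j, j + 1 < a → (isPk a w j ↔ isPk (a + b) w j) := by
    intro j hj
    unfold isPk
    constructor
    · rintro ⟨h1, h2, h3, h4⟩; exact ⟨h1, by omega, h3, h4⟩
    · rintro ⟨h1, h2, h3, h4⟩; exact ⟨h1, by omega, h3, h4⟩
  have high : ∀ i, 0 < i → (isPk b (fun i => w (a + i)) i ↔ isPk (a + b) w (a + i)) := by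
    intro i hi
    unfold isPk
    have e1 : a + (i - 1) = a + i - 1 := by omega
    have e2 : a + (i + 1) = a + i + 1 := by omega
    simp only [e1, e2]
    constructor
    · rintro ⟨h1, h2, h3, h4⟩; exact ⟨by omega, by omega, h3, h4⟩
    · rintro ⟨h1, h2, h3, h4⟩; exact ⟨by omega, by omega, h3, h4⟩
  constructor
  · rintro ⟨hA, hB⟩
    have hlow : ∀ j, j + 1 < a → (j + 1 ∈ S ↔ isPk (a + b) w j) := by
      intro j hj
      rw [hA j (by omega), low j hj]
    have hhigh : ∀ j, a < j → j < a + b → ¬ isPk (a + b) w j := by
      intro j hj hjb hp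
      obtain ⟨i, rfl⟩ := Nat.exists_eq_add_of_lt hj
      have h1 := (high (i + 1) (by omega)).mpr (by simpa [add_assoc] using hp)
      have h2 := (hB (i + 1) (by omega)).mpr h1
      simp at h2
    by_cases p1 : isPk (a + b) w (a - 1)
    · right; left
      have p2 : ¬ isPk (a + b) w a := by
        intro p2
        obtain ⟨_, _, h3, _⟩ := p2
        obtain ⟨_, _, _, h4⟩ := p1
        have : a - 1 + 1 = a := by omega
        rw [this] at h4
        omega
      intro j hj
      rcases Nat.lt_trichotomy (j + 1) a with h | h | h
      · rw [Finset.mem_insert, ← hlow j h]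
        constructor
        · rintro (h' | h')
          · omega
          · exact h'
        · intro h'; exact Or.inr h'
      · have : j = a - 1 := by omega
        rw [h, this]
        simp [p1]
      · rcases Nat.eq_or_lt_of_le (show a ≤ j by omega) with h' | h'
        · subst h'
          simp [p2, haS']
        · have h1 := hhigh j h' hj
          have h2 : j + 1 ∉ S := fun h => by have := hS _ h; omega
          have h3 : j + 1 ≠ a := by omega
          simp [h1, h2, h3]
    · by_cases p2 : isPk (a + b) w a
      · right; right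
        intro j hj
        rcases Nat.lt_trichotomy (j + 1) a with h | h | h
        · rw [Finset.mem_insert, ← hlow j h]
          constructor
          · rintro (h' | h')
            · omega
            · exact h'
          · intro h'; exact Or.inr h'
        · have : j = a - 1 := by omega
          rw [h, this]
          simp [p1, haS]
        · rcases Nat.eq_or_lt_of_le (show a ≤ j by omega) with h' | h'
          · subst h'
            simp [p2]
          · have h1 := hhigh j h' hj
            have h2 : j + 1 ∉ S := fun h => by have := hS _ h; omega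
            have h3 : j ≠ a := by omega
            simp [h1, h2, h3]
      · left
        intro j hj
        rcases Nat.lt_trichotomy (j + 1) a with h | h | h
        · exact hlow j h
        · have : j = a - 1 := by omega
          rw [h, this]
          simp [p1, haS]
        · rcases Nat.eq_or_lt_of_le (show a ≤ j by omega) with h' | h'
          · subst h'
            simp [p2, haS']
          · have h1 := hhigh j h' hj
            have h2 : j + 1 ∉ S := fun h => by have := hS _ h; omega
            simp [h1, h2]
  · -- converse: a general statement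
    have conv : ∀ S' : Finset ℕ, (∀ x, x < a → (x ∈ S' ↔ x ∈ S)) → (∀ x, a + 1 < x → x ∉ S') →
        PkSet S' (a + b) w → (PkSet S a w ∧ PkSet ∅ b (fun i => w (a + i))) := by
      intro S' h1 h2 h3
      constructor
      · intro j hj
        rcases Nat.lt_or_ge (j + 1) a with h | h
        · rw [← h1 _ h, h3 j (by omega), low j h]
        · have hja : j + 1 = a := by omega
          rw [hja]
          constructor
          · intro h'; exact absurd h' haS
          · rintro ⟨_, h', _, _⟩; omega
      · intro i hi
        constructor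
        · intro h; simp at h
        · intro hp
          have hi0 : 0 < i := hp.1
          have h4 := (high i hi0).mp hp
          have h5 := (h3 (a + i) (by omega)).mpr h4
          exact absurd h5 (h2 _ (by omega))
    rintro (h | h | h)
    · apply conv S (fun x _ => Iff.rfl) _ h
      intro x hx hxS
      have := hS x hxS; omega
    · apply conv (insert a S) _ _ h
      · intro x hx
        rw [Finset.mem_insert]
        constructor
        · rintro (h' | h')
          · omega
          · exact h'
        · intro h'; exact Or.inr h'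
      · intro x hx hxS
        rw [Finset.mem_insert] at hxS
        rcases hxS with h' | h'
        · omega
        · have := hS x h'; omega
    · apply conv (insert (a + 1) S) _ _ h
      · intro x hx
        rw [Finset.mem_insert]
        constructor
        · rintro (h' | h')
          · omega
          · exact h'
        · intro h'; exact Or.inr h'
      · intro x hx hxS
        rw [Finset.mem_insert] at hxS
        rcases hxS with h' | h'
        · omega
        · have := hS x h'; omega

/-- distinct sets are incompatible -/
lemma PkSet_disj {S S' : Finset ℕ} {n : ℕ} {w : ℕ → ℕ} (x : ℕ) (h1 : 1 ≤ x) (hx : x ≤ n)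
    (hS : x ∈ S) (hS' : x ∉ S') (h : PkSet S n w) (h' : PkSet S' n w) : False := by
  have e : x - 1 + 1 = x := by omega
  have a1 := h (x - 1) (by omega)
  have a2 := h' (x - 1) (by omega)
  rw [e] at a1 a2
  exact hS' (a2.mpr (a1.mp hS))

/-- The recursion on numbers of permutations with given peak sets. -/
lemma NP_rec (S : Finset ℕ) (a b : ℕ) (ha : 1 ≤ a) (hb : 1 ≤ b) (hS : ∀ x ∈ S, x < a) :
    (a + b).choose a * (NP S a * NP ∅ b) =
      NP S (a + b) + NP (insert a S) (a + b) + NP (insert (a + 1) S) (a + b) := by
  classical
  have h := card_split a b (PkSet S a) (PkSet ∅ b) (PkSet_ordInv S a) (PkSet_ordInv ∅ b)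
  unfold NP
  rw [← h]
  have haS : a ∉ S := fun h => by have := hS a h; omega
  have haS' : a + 1 ∉ S := fun h => by have := hS _ h; omega
  simp only [split_iff S a b ha hS]
  simp only [Nat.card_eq_fintype_card, Fintype.card_subtype]
  rw [Finset.filter_or, Finset.filter_or, Finset.card_union_of_disjoint, Finset.card_union_of_disjoint, add_assoc]
  · rw [Finset.disjoint_filter]
    intro π _ h1 h2
    exact PkSet_disj a ha (by omega) (by simp) (by simp [haS]) h1 h2
  · rw [← Finset.filter_or, Finset.disjoint_filter]
    rintro π _ h1 (h2 | h2)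
    · exact PkSet_disj a ha (by omega) (by simp) haS h2 h1
    · exact PkSet_disj (a + 1) (by omega) (by omega) (by simp) haS' h2 h1

/-- extend a permutation by fixing the last point -/
def extLast {n : ℕ} (σ : Equiv.Perm (Fin n)) : Equiv.Perm (Fin (n + 1)) :=
  (finSuccEquivLast.trans (Equiv.optionCongr σ)).trans finSuccEquivLast.symm

lemma extLast_castSucc {n : ℕ} (σ : Equiv.Perm (Fin n)) (i : Fin n) :
    extLast σ (Fin.castSucc i) = Fin.castSucc (σ i) := by
  simp [extLast]

lemma extLast_last {n : ℕ} (σ : Equiv.Perm (Fin n)) :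
    extLast σ (Fin.last n) = Fin.last n := by
  simp [extLast]

lemma extLast_injective {n : ℕ} : Function.Injective (extLast (n := n)) := by
  intro σ τ h
  ext i
  have := congrArg (fun e => e (Fin.castSucc i)) h
  simp only [extLast_castSucc] at this
  rw [Fin.castSucc_injective n this]

lemma extLast_surj {n : ℕ} (π : Equiv.Perm (Fin (n + 1))) (h : π (Fin.last n) = Fin.last n) :
    ∃ σ, extLast σ = π := by
  have hne : ∀ i : Fin n, π (Fin.castSucc i) ≠ Fin.last n := by
    intro i hi
    have := π.injective (hi.trans h.symm)
    exact absurd this (Fin.castSucc_lt_last i).ne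
  let f : Fin n → Fin n := fun i => (π (Fin.castSucc i)).castPred (hne i)
  have hf : Function.Injective f := by
    intro i j hij
    have : π (Fin.castSucc i) = π (Fin.castSucc j) := by
      have h1 : Fin.castSucc (f i) = Fin.castSucc (f j) := by rw [hij]
      simpa [f] using h1
    exact Fin.castSucc_injective n (π.injective this)
  refine ⟨Equiv.ofBijective f (Finite.injective_iff_bijective.mp hf), ?_⟩
  ext i
  refine Fin.lastCases ?_ (fun j => ?_) i
  · rw [extLast_last, h]
  · rw [extLast_castSucc]
    simp [f]

lemma toN_extLast {n : ℕ} (σ : Equiv.Perm (Fin n)) (i : ℕ) (hi : i < n) :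
    toN (extLast σ) i = toN σ i := by
  rw [toN_lt _ i (by omega), toN_lt _ i hi]
  have : (⟨i, by omega⟩ : Fin (n + 1)) = Fin.castSucc ⟨i, hi⟩ := rfl
  rw [this, extLast_castSucc]; rfl

lemma toN_extLast_last {n : ℕ} (σ : Equiv.Perm (Fin n)) :
    toN (extLast σ) n = n := by
  rw [toN_lt _ n (by omega)]
  have : (⟨n, by omega⟩ : Fin (n + 1)) = Fin.last n := rfl
  rw [this, extLast_last]; rfl

lemma toN_bound {n : ℕ} (π : Equiv.Perm (Fin n)) (i : ℕ) (hi : i < n) : toN π i < n := by
  rw [toN_lt _ i hi]; exact (π ⟨i, hi⟩).isLt

lemma toN_inj {n : ℕ} (π : Equiv.Perm (Fin n)) (i j : ℕ) (hi : i < n) (hj : j < n)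
    (h : toN π i = toN π j) : i = j := by
  rw [toN_lt _ i hi, toN_lt _ j hj] at h
  have := π.injective (Fin.ext h)
  exact congrArg Fin.val this

/-- number of peak-free permutations -/
lemma NP_empty_succ (n : ℕ) (hn : 1 ≤ n) : NP ∅ (n + 1) = 2 * NP ∅ n := by
  classical
  unfold NP
  simp only [Nat.card_eq_fintype_card, Fintype.card_subtype]
  have hsplit : (Finset.univ.filter (fun π : Equiv.Perm (Fin (n + 1)) => PkSet ∅ (n + 1) (toN π))) =
      (Finset.univ.filter (fun σ : Equiv.Perm (Fin n) => PkSet ∅ n (toN σ))).image extLast ∪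
      (Finset.univ.filter (fun σ : Equiv.Perm (Fin n) => PkSet ∅ n (toN σ))).image
        (fun σ => Fin.revPerm.trans (extLast σ)) := by
    ext π
    simp only [Finset.mem_filter, Finset.mem_univ, true_and, Finset.mem_union, Finset.mem_image]
    constructor
    · intro h
      -- position of the maximum
      set k := π.symm (Fin.last n) with hk
      have hπk : π k = Fin.last n := by simp [hk]
      have hmax : ∀ j, j < n + 1 → j ≠ (k : ℕ) → toN π j < toN π k := by
        intro j hj hjk
        have h1 : toN π k = n := by
          rw [toN_lt _ _ k.isLt]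
          show ((π k : Fin (n + 1)) : ℕ) = n
          rw [hπk]; rfl
        have h2 := toN_bound π j hj
        have h3 : toN π j ≠ toN π k := fun h => hjk (toN_inj π j k hj k.isLt h)
        omega
      have hk0 : (k : ℕ) = 0 ∨ (k : ℕ) = n := by
        by_contra hcon
        push Not at hcon
        have hkn : (k : ℕ) < n + 1 := k.isLt
        have hp : isPk (n + 1) (toN π) k := by
          refine ⟨by omega, by omega, hmax _ (by omega) (by omega), hmax _ (by omega) (by omega)⟩
        have := (h k k.isLt).mpr hp
        simp at this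
      rcases hk0 with h0 | hn'
      · right
        have hk' : k = 0 := Fin.ext h0
        have hlast : (Fin.revPerm.trans π) (Fin.last n) = Fin.last n := by
          simp only [Equiv.trans_apply, Fin.revPerm_apply, Fin.rev_last]
          rw [← hk', hπk]
        obtain ⟨σ, hσ⟩ := extLast_surj _ hlast
        refine ⟨σ, ?_, ?_⟩
        · intro j hj
          constructor
          · intro h'; simp at h'
          · rintro ⟨p1, p2, p3, p4⟩
            exfalso
            rw [← toN_extLast σ (j - 1) (by omega), ← toN_extLast σ j hj, hσ] at p3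
            rw [← toN_extLast σ (j + 1) p2, ← toN_extLast σ j hj, hσ] at p4
            have hrev : ∀ i, i < n + 1 → toN (Fin.revPerm.trans π) i = toN π (n - i) := by
              intro i hi
              rw [toN_lt _ i hi, toN_lt _ (n - i) (by omega)]
              simp only [Equiv.trans_apply, Fin.revPerm_apply]
              congr 2
              apply Fin.ext
              rw [Fin.val_rev]
              simp
            rw [hrev _ (by omega), hrev _ (by omega)] at p3 p4
            have hp : isPk (n + 1) (toN π) (n - j) := by
              refine ⟨by omega, by omega, ?_, ?_⟩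
              · have : n - j - 1 = n - (j + 1) := by omega
                rw [this]; exact p4
              · have : n - j + 1 = n - (j - 1) := by omega
                rw [this]; exact p3
            have := (h (n - j) (by omega)).mpr hp
            simp at this
        · rw [hσ]
          ext i
          simp
      · left
        have hk' : k = Fin.last n := Fin.ext hn'
        rw [hk'] at hπk
        obtain ⟨σ, hσ⟩ := extLast_surj π hπk
        refine ⟨σ, ?_, hσ⟩
        intro j hj
        constructor
        · intro h'; simp at h'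
        · rintro ⟨p1, p2, p3, p4⟩
          exfalso
          rw [← toN_extLast σ (j - 1) (by omega), ← toN_extLast σ j hj, hσ] at p3
          rw [← toN_extLast σ (j + 1) p2, ← toN_extLast σ j hj, hσ] at p4
          have hp : isPk (n + 1) (toN π) j := ⟨p1, by omega, p3, p4⟩
          have := (h j (by omega)).mpr hp
          simp at this
    · rintro (⟨σ, hσ, rfl⟩ | ⟨σ, hσ, rfl⟩)
      · intro j hj
        constructor
        · intro h'; simp at h'
        · rintro ⟨p1, p2, p3, p4⟩
          exfalso
          rcases Nat.lt_or_ge (j + 1) n with h | h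
          · rw [toN_extLast σ _ (by omega), toN_extLast σ _ (by omega)] at p3 p4
            have := (hσ j (by omega)).mpr ⟨p1, h, p3, p4⟩
            simp at this
          · have : j + 1 = n := by omega
            rw [this, toN_extLast_last] at p4
            have := toN_bound (extLast σ) j hj
            have h2 := toN_extLast σ j (by omega)
            have h3 := toN_bound σ j (by omega)
            omega
      · intro j hj
        have hrev : ∀ i, i < n + 1 → toN (Fin.revPerm.trans (extLast σ)) i = toN (extLast σ) (n - i) := by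
          intro i hi
          rw [toN_lt _ i hi, toN_lt _ (n - i) (by omega)]
          simp only [Equiv.trans_apply, Fin.revPerm_apply]
          congr 2
          apply Fin.ext
          rw [Fin.val_rev]
          simp
        constructor
        · intro h'; simp at h'
        · rintro ⟨p1, p2, p3, p4⟩
          exfalso
          rw [hrev _ (by omega), hrev _ (by omega)] at p3 p4
          rcases Nat.lt_or_ge j 2 with h | h
          · have hj1 : j = 1 := by omega
            subst hj1
            simp only [Nat.sub_self, Nat.sub_zero] at p3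
            rw [toN_extLast_last] at p3
            have h2 := toN_extLast σ (n - 1) (by omega)
            have h3 := toN_bound σ (n - 1) (by omega)
            omega
          · rw [toN_extLast σ _ (by omega), toN_extLast σ _ (by omega)] at p3 p4
            have e1 : n - (j - 1) = n - j + 1 := by omega
            have e2 : n - (j + 1) = n - j - 1 := by omega
            rw [e1] at p3
            rw [e2] at p4
            have := (hσ (n - j) (by omega)).mpr ⟨by omega, by omega, p4, p3⟩
            simp at this
  rw [hsplit, Finset.card_union_of_disjoint, Finset.card_image_of_injective _ extLast_injective,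
    Finset.card_image_of_injective]
  · ring
  · intro σ τ h
    apply extLast_injective
    have := congrArg (fun e => Fin.revPerm.trans e) h
    ext i
    have h2 := congrArg (fun e : Equiv.Perm (Fin (n + 1)) => e (Fin.rev i)) h
    simpa using congrArg Fin.val h2
  · rw [Finset.disjoint_left]
    intro π h1 h2
    simp only [Finset.mem_image, Finset.mem_filter, Finset.mem_univ, true_and] at h1 h2
    obtain ⟨σ, _, rfl⟩ := h1
    obtain ⟨τ, _, hτ⟩ := h2
    have e1 : (Fin.revPerm.trans (extLast τ)) 0 = Fin.last n := by
      simp only [Equiv.trans_apply, Fin.revPerm_apply, Fin.rev_zero]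
      exact extLast_last τ
    have e2 : (extLast σ) 0 = Fin.last n := by rw [← hτ, e1]
    have e3 := extLast_last σ
    have e4 := (extLast σ).injective (e2.trans e3.symm)
    have e5 := congrArg Fin.val e4
    simp at e5
    omega

lemma NP_empty_one : NP ∅ 1 = 1 := by
  unfold NP
  have : ∀ π : Equiv.Perm (Fin 1), PkSet ∅ 1 (toN π) := by
    intro π j hj
    constructor
    · intro h; simp at h
    · rintro ⟨h1, h2, _⟩; omega
  rw [Nat.card_congr (Equiv.subtypeUnivEquiv this)]
  simp

lemma NP_empty (n : ℕ) (hn : 1 ≤ n) : 2 * NP ∅ n = 2 ^ n := by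
  induction n with
  | zero => omega
  | succ n ih =>
    rcases Nat.eq_zero_or_pos n with h | h
    · subst h; rw [zero_add, NP_empty_one]; norm_num
    · rw [NP_empty_succ n h, ih h]; ring

end Pool.Agent.H23.Peak
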