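import Mathlib
import Pool.Agent.H23.PeakAlg

set_option autoImplicit false

namespace Pool.Agent.H23.Peak

open Finset

/-- rising product `x (x+1) ... (x+k-1) / k!` -/
noncomputable def R (x : ℂ) (k : ℕ) : ℂ := ∏ j ∈ range k, ((x + j) / (j + 1))

/-- falling product `z (z-1) ... (z-k+1) / k!` -/
noncomputable def bc (z : ℂ) (k : ℕ) : ℂ := ∏ j ∈ range k, ((z - j) / (j + 1))

lemma R_zero (x : ℂ) : R x 0 = 1 := by simp [R]

lemma R_succ (x : ℂ) (k : ℕ) : R x (k + 1) = R x k * ((x + k) / (k + 1)) := by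
  unfold R; rw [Finset.prod_range_succ]

lemma bc_zero (x : ℂ) : bc x 0 = 1 := by simp [bc]

lemma bc_succ (x : ℂ) (k : ℕ) : bc x (k + 1) = bc x k * ((x - k) / (k + 1)) := by
  unfold bc; rw [Finset.prod_range_succ]

lemma cast_succ_ne (k : ℕ) : ((k : ℂ) + 1) ≠ 0 := by
  exact_mod_cast Nat.succ_ne_zero k

lemma R_shift (x : ℂ) (k : ℕ) : x * R (x + 1) k = (x + k) * R x k := by
  induction k with
  | zero => simp [R_zero]
  | succ k ih =>
    rw [R_succ, R_succ]
    have h := cast_succ_ne k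
    calc x * (R (x + 1) k * ((x + 1 + k) / (k + 1)))
        = (x * R (x + 1) k) * ((x + 1 + k) / (k + 1)) := by ring
      _ = ((x + k) * R x k) * ((x + 1 + k) / (k + 1)) := by rw [ih]
      _ = (x + ((k + 1 : ℕ) : ℂ)) * (R x k * ((x + k) / (k + 1))) := by push_cast; field_simp; ring

lemma R_succ' (x : ℂ) (k : ℕ) : R x (k + 1) = x * R (x + 1) k / (k + 1) := by
  rw [R_succ, R_shift]; ring

lemma R_pascal (x : ℂ) (k : ℕ) : R (x + 1) (k + 1) = R x (k + 1) + R (x + 1) k := by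
  rw [R_succ' x k, R_succ (x + 1) k]
  have h := cast_succ_ne k
  field_simp
  ring

lemma R_eq_bc (z : ℂ) (N : ℕ) : R (z - N) (N + 1) = bc z (N + 1) := by
  induction N with
  | zero => simp [R_succ, bc_succ, R_zero, bc_zero]
  | succ N ih =>
    rw [R_succ', bc_succ]
    have : z - ((N + 1 : ℕ) : ℂ) + 1 = z - N := by push_cast; ring
    rw [this, ih]
    ring

lemma bc_neg (y : ℂ) (k : ℕ) : bc (-y) k = (-1) ^ k * R y k := by
  induction k with
  | zero => simp [bc_zero, R_zero]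
  | succ k ih =>
    rw [bc_succ, R_succ, ih]
    have h := cast_succ_ne k
    field_simp
    ring

lemma bc_nat (n k : ℕ) : bc (n : ℂ) k = (n.choose k : ℂ) := by
  induction k with
  | zero => simp [bc_zero]
  | succ k ih =>
    rw [bc_succ, ih]
    have h := cast_succ_ne k
    have h2 := Nat.choose_succ_right_eq n k
    by_cases hk : k ≤ n
    · have h3 : ((n - k : ℕ) : ℂ) = (n : ℂ) - k := by rw [Nat.cast_sub hk]
      have h4 : ((n.choose (k + 1) : ℂ)) * (k + 1) = (n.choose k : ℂ) * ((n : ℂ) - k) := by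
        rw [← h3]; exact_mod_cast h2
      field_simp
      linear_combination -h4
    · have h5 : n.choose k = 0 := Nat.choose_eq_zero_of_lt (by omega)
      have h6 : n.choose (k + 1) = 0 := Nat.choose_eq_zero_of_lt (by omega)
      simp [h5, h6]

/-- re-expansion at a shifted node -/
lemma R_sum_shift (a : ℕ → ℂ) (x : ℂ) (N : ℕ) :
    ∑ k ∈ range (N + 2), a k * R x k =
      ∑ k ∈ range (N + 2), a k * R (x + 1) k - ∑ k ∈ range (N + 1), a (k + 1) * R (x + 1) k := by
  rw [Finset.sum_range_succ' (fun k => a k * R x k), Finset.sum_range_succ' (fun k => a k * R (x + 1) k)]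
  have : ∑ k ∈ range (N + 1), a (k + 1) * R (x + 1) (k + 1) =
      ∑ k ∈ range (N + 1), a (k + 1) * R x (k + 1) + ∑ k ∈ range (N + 1), a (k + 1) * R (x + 1) k := by
    rw [← Finset.sum_add_distrib]
    apply Finset.sum_congr rfl
    intro k _
    rw [R_pascal]; ring
  rw [this]
  simp only [R_zero, mul_one]
  ring

lemma F_formula (v : ℕ → ℝ) (z : ℂ) (N : ℕ) :
    ∑ i ∈ range (N + 1), (D v i 0 : ℂ) * bc z i =
      ∑ k ∈ range (N + 1), (D v k (N - k) : ℂ) * R (z - N) k := by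
  induction N with
  | zero => simp [bc_zero, R_zero]
  | succ N ih =>
    rw [Finset.sum_range_succ, ih]
    have h := R_sum_shift (fun k => (D v k (N + 1 - k) : ℂ)) (z - ((N + 1 : ℕ) : ℂ)) N
    rw [h]
    have hx : z - ((N + 1 : ℕ) : ℂ) + 1 = z - N := by push_cast; ring
    rw [hx, Finset.sum_range_succ _ (N + 1)]
    simp only [Nat.sub_self]
    rw [R_eq_bc]
    have : ∑ k ∈ range (N + 1), (D v k (N - k) : ℂ) * R (z - N) k =
        ∑ k ∈ range (N + 1), (D v k (N + 1 - k) : ℂ) * R (z - N) k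
        - ∑ k ∈ range (N + 1), (D v (k + 1) (N + 1 - (k + 1)) : ℂ) * R (z - N) k := by
      rw [← Finset.sum_sub_distrib]
      apply Finset.sum_congr rfl
      intro k hk
      have hk' : k ≤ N := by simp at hk; omega
      have e1 : N + 1 - (k + 1) = N - k := by omega
      have e2 : N + 1 - k = (N - k) + 1 := by omega
      rw [e1, e2, D_succ]
      push_cast; ring
    rw [this]; ring

lemma E_formula (v : ℕ → ℝ) (z : ℂ) (N : ℕ) :
    ∑ i ∈ range (N + 1), (-1 : ℂ) ^ (N + i) * (v i : ℂ) * bc z i =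
      ∑ k ∈ range (N + 1), (D v (N - k) k : ℂ) * R (z - N) k := by
  induction N with
  | zero => simp [bc_zero, R_zero, D_zero]
  | succ N ih =>
    have h := R_sum_shift (fun k => (D v (N + 1 - k) k : ℂ)) (z - ((N + 1 : ℕ) : ℂ)) N
    rw [h]
    have hx : z - ((N + 1 : ℕ) : ℂ) + 1 = z - N := by push_cast; ring
    rw [hx, Finset.sum_range_succ (fun k => (D v (N + 1 - k) k : ℂ) * R (z - N) k) (N + 1)]
    simp only [Nat.sub_self]
    rw [R_eq_bc, D_zero]
    rw [Finset.sum_range_succ _ (N + 1)]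
    have s1 : ∑ i ∈ range (N + 1), (-1 : ℂ) ^ (N + 1 + i) * (v i : ℂ) * bc z i =
        - ∑ i ∈ range (N + 1), (-1 : ℂ) ^ (N + i) * (v i : ℂ) * bc z i := by
      rw [← Finset.sum_neg_distrib]
      apply Finset.sum_congr rfl
      intro i _
      ring
    rw [s1, ih]
    have : ∑ k ∈ range (N + 1), (D v (N - k) k : ℂ) * R (z - N) k =
        ∑ k ∈ range (N + 1), (D v (N + 1 - (k + 1)) (k + 1) : ℂ) * R (z - N) k
        - ∑ k ∈ range (N + 1), (D v (N + 1 - k) k : ℂ) * R (z - N) k := by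
      rw [← Finset.sum_sub_distrib]
      apply Finset.sum_congr rfl
      intro k hk
      have hk' : k ≤ N := by simp at hk; omega
      have e1 : N + 1 - (k + 1) = N - k := by omega
      have e2 : N + 1 - k = (N - k) + 1 := by omega
      rw [e1, e2, D_succ]
      push_cast; ring
    rw [this]
    have e3 : (-1 : ℂ) ^ (N + 1 + (N + 1)) = 1 := by
      rw [← two_mul, pow_mul]; simp
    rw [e3]; ring

/-- the complex polynomial function attached to a sequence -/
noncomputable def P (m : ℕ) (v : ℕ → ℝ) (z : ℂ) : ℂ := ∑ i ∈ range m, (D v i 0 : ℂ) * bc z i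

/-- the main identity -/
lemma P_nextv (v : ℕ → ℝ) (N : ℕ) (z : ℂ) (h : D v (N + 1) 0 = 0) :
    P (N + 2) (nextv (N + 2) v) z = (v (N + 1) : ℂ) * bc z (N + 1)
      - ∑ k ∈ range (N + 1), ((D v k (N - k) + D v (N - k) k : ℝ) : ℂ) * R (z - N) k := by
  unfold P
  have h1 : ∑ i ∈ range (N + 2), (D (nextv (N + 2) v) i 0 : ℂ) * bc z i =
      ∑ i ∈ range (N + 2), (-1 : ℂ) ^ (N + 1 + i) * (v i : ℂ) * bc z i
      - ∑ i ∈ range (N + 2), (D v i 0 : ℂ) * bc z i := by
    rw [← Finset.sum_sub_distrib]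
    apply Finset.sum_congr rfl
    intro i hi
    rw [D_nextv_zero _ _ _ (by simpa using hi)]
    push_cast
    have : (-1 : ℂ) ^ (N + 2 + 1 + i) = (-1 : ℂ) ^ (N + 1 + i) := by
      rw [show N + 2 + 1 + i = (N + 1 + i) + 2 by ring, pow_add]; simp
    rw [this]; ring
  rw [h1]
  rw [Finset.sum_range_succ (fun i => (D v i 0 : ℂ) * bc z i) (N + 1), h, F_formula]
  rw [Finset.sum_range_succ _ (N + 1)]
  have s1 : ∑ i ∈ range (N + 1), (-1 : ℂ) ^ (N + 1 + i) * (v i : ℂ) * bc z i =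
      - ∑ i ∈ range (N + 1), (-1 : ℂ) ^ (N + i) * (v i : ℂ) * bc z i := by
    rw [← Finset.sum_neg_distrib]
    apply Finset.sum_congr rfl
    intro i _
    ring
  rw [s1, E_formula]
  have e3 : (-1 : ℂ) ^ (N + 1 + (N + 1)) = 1 := by
    rw [← two_mul, pow_mul]; simp
  rw [e3]
  have : ∑ k ∈ range (N + 1), ((D v k (N - k) + D v (N - k) k : ℝ) : ℂ) * R (z - N) k =
      ∑ k ∈ range (N + 1), (D v k (N - k) : ℂ) * R (z - N) k
      + ∑ k ∈ range (N + 1), (D v (N - k) k : ℂ) * R (z - N) k := by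
    rw [← Finset.sum_add_distrib]
    apply Finset.sum_congr rfl
    intro k _
    push_cast; ring
  rw [this]
  simp
  ring

lemma sum_diag (v : ℕ → ℝ) (N : ℕ) (h : D v (N + 1) 0 = 0) :
    ∑ k ∈ range (N + 1), D v k (N - k) = v (N + 1) := by
  have claim : ∀ K, K ≤ N + 1 → v (N + 1) = ∑ k ∈ range K, D v k (N - k) + D v K (N + 1 - K) := by
    intro K
    induction K with
    | zero => intro _; simp [D_zero]
    | succ K ih =>
      intro hK
      rw [ih (by omega), Finset.sum_range_succ]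
      have e1 : N + 1 - K = (N - K) + 1 := by omega
      have e2 : N + 1 - (K + 1) = N - K := by omega
      rw [e1, e2, D_succ]
      ring
  have := claim (N + 1) (le_refl _)
  rw [this]
  simp [h]

/-- First half: zeros have modulus at most `m`. -/
theorem norm_le (m1 : ℕ) (v : ℕ → ℝ) (g : Good m1 v) (m : ℕ) (hm : m1 + 2 ≤ m) (z : ℂ)
    (hz : P m (nextv m v) z = 0) : ‖z‖ ≤ m := by
  obtain ⟨N, rfl⟩ : ∃ N, m = N + 2 := ⟨m - 2, by omega⟩
  by_contra hcon
  push Not at hcon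
  have hD : D v (N + 1) 0 = 0 := g.deg _ _ (by omega) (by omega)
  rw [P_nextv v N z hD] at hz
  have step : ∀ k, k ≤ N → ((k : ℝ) + 2) < ‖z - N + k‖ := by
    intro k hk
    have h1 : z - N + k = z - ((N - k : ℕ) : ℂ) := by
      rw [Nat.cast_sub hk]; ring
    rw [h1]
    have h2 : ‖z‖ - ‖((N - k : ℕ) : ℂ)‖ ≤ ‖z - ((N - k : ℕ) : ℂ)‖ := norm_sub_norm_le _ _
    rw [Complex.norm_natCast, Nat.cast_sub hk] at h2
    push_cast at hcon
    linarith
  have hpos : ∀ k, k ≤ N + 1 → 0 < ‖R (z - N) k‖ := by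
    intro k
    induction k with
    | zero => intro _; simp [R_zero]
    | succ k ih =>
      intro hk
      rw [R_succ, norm_mul, norm_div]
      have h1 := ih (by omega)
      have h2 := step k (by omega)
      have h3 : (0 : ℝ) ≤ k := Nat.cast_nonneg k
      have h4 : 0 < ‖z - N + k‖ := by linarith
      have h5 : 0 < ‖((k : ℂ) + 1)‖ := norm_pos_iff.mpr (cast_succ_ne k)
      positivity
  have hinc : ∀ k, k ≤ N → ‖R (z - N) k‖ * ((k : ℝ) + 2) < ‖R (z - N) (k + 1)‖ * ((k : ℝ) + 1) := by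
    intro k hk
    rw [R_succ, norm_mul, norm_div]
    have h1 := hpos k (by omega)
    have h2 := step k hk
    have h5 : ‖((k : ℂ) + 1)‖ = (k : ℝ) + 1 := by
      have : ((k : ℂ) + 1) = ((k + 1 : ℕ) : ℂ) := by push_cast; ring
      rw [this, Complex.norm_natCast]; push_cast; ring
    rw [h5]
    have h6 : (0 : ℝ) < (k : ℝ) + 1 := by positivity
    have : ‖R (z - N) k‖ * (‖z - N + k‖ / ((k : ℝ) + 1)) * ((k : ℝ) + 1)
        = ‖R (z - N) k‖ * ‖z - N + k‖ := by field_simp
    rw [this]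
    exact mul_lt_mul_of_pos_left h2 h1
  have hall : ∀ d k, k + d = N → ‖R (z - N) k‖ * ((N : ℝ) + 2) < ‖R (z - N) (N + 1)‖ * ((k : ℝ) + 1) := by
    intro d
    induction d with
    | zero =>
      intro k hk
      have : k = N := by omega
      subst this
      exact hinc k (le_refl _)
    | succ d ih =>
      intro k hk
      have h1 := ih (k + 1) (by omega)
      have h2 := hinc k (by omega)
      push_cast at h1
      have hk0 : (0 : ℝ) ≤ k := Nat.cast_nonneg k
      have hN0 : (0 : ℝ) ≤ N := Nat.cast_nonneg N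
      have h3 : ‖R (z - N) k‖ * ((k : ℝ) + 2) * ((N : ℝ) + 2) <
          ‖R (z - N) (k + 1)‖ * ((k : ℝ) + 1) * ((N : ℝ) + 2) :=
        mul_lt_mul_of_pos_right h2 (by positivity)
      have h4 : ‖R (z - N) (k + 1)‖ * ((N : ℝ) + 2) * ((k : ℝ) + 1) <
          ‖R (z - N) (N + 1)‖ * ((k : ℝ) + 1 + 1) * ((k : ℝ) + 1) :=
        mul_lt_mul_of_pos_right h1 (by positivity)
      have h5 : (‖R (z - N) k‖ * ((N : ℝ) + 2)) * ((k : ℝ) + 2) <
          (‖R (z - N) (N + 1)‖ * ((k : ℝ) + 1)) * ((k : ℝ) + 2) := by nlinarith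
      exact lt_of_mul_lt_mul_right h5 (by positivity)
  set Dk : ℕ → ℝ := fun k => D v k (N - k) + D v (N - k) k with hDk
  have hDk0 : ∀ k, k ≤ N → 0 ≤ Dk k := by
    intro k hk
    have h1 := g.pos k (N - k) (by omega)
    have h2 := g.pos (N - k) k (by omega)
    simp only [hDk]; linarith
  have hsum := sum_diag v N hD
  have hrefl : ∑ k ∈ range (N + 1), D v (N - k) k = v (N + 1) := by
    rw [← hsum, ← Finset.sum_range_reflect]
    apply Finset.sum_congr rfl
    intro k hk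
    have hk' : k ≤ N := by simp at hk; omega
    have e1 : N + 1 - 1 - k = N - k := by omega
    have e2 : N - (N - k) = k := by omega
    rw [e1, e2]
  have hrefl2 : ∑ k ∈ range (N + 1), ((k : ℝ) + 1) * D v (N - k) k =
      ∑ k ∈ range (N + 1), ((N : ℝ) - k + 1) * D v k (N - k) := by
    rw [← Finset.sum_range_reflect]
    apply Finset.sum_congr rfl
    intro k hk
    have hk' : k ≤ N := by simp at hk; omega
    have e1 : N + 1 - 1 - k = N - k := by omega
    have e2 : N - (N - k) = k := by omega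
    rw [e1, e2, Nat.cast_sub hk']
  have hweighted : ∑ k ∈ range (N + 1), ((k : ℝ) + 1) * Dk k = ((N : ℝ) + 2) * v (N + 1) := by
    have : ∑ k ∈ range (N + 1), ((k : ℝ) + 1) * Dk k =
        ∑ k ∈ range (N + 1), ((k : ℝ) + 1) * D v k (N - k)
        + ∑ k ∈ range (N + 1), ((k : ℝ) + 1) * D v (N - k) k := by
      rw [← Finset.sum_add_distrib]
      apply Finset.sum_congr rfl
      intro k _
      simp only [hDk]; ring
    rw [this, hrefl2, ← Finset.sum_add_distrib, ← hsum, Finset.mul_sum]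
    apply Finset.sum_congr rfl
    intro k _
    ring
  have htot : ∑ k ∈ range (N + 1), Dk k = 2 * v (N + 1) := by
    have : ∑ k ∈ range (N + 1), Dk k =
        ∑ k ∈ range (N + 1), D v k (N - k) + ∑ k ∈ range (N + 1), D v (N - k) k := by
      rw [← Finset.sum_add_distrib]
    rw [this, hsum, hrefl]; ring
  have hvpos : 0 < v (N + 1) := g.val_pos _ (by omega)
  obtain ⟨k0, hk0, hk0pos⟩ : ∃ k ∈ range (N + 1), 0 < Dk k := by
    by_contra hno
    push Not at hno
    have : ∑ k ∈ range (N + 1), Dk k ≤ 0 := Finset.sum_nonpos hno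
    linarith
  have hlt : ∑ k ∈ range (N + 1), Dk k * (‖R (z - N) k‖ * ((N : ℝ) + 2)) <
      ∑ k ∈ range (N + 1), Dk k * (‖R (z - N) (N + 1)‖ * ((k : ℝ) + 1)) := by
    apply Finset.sum_lt_sum
    · intro k hk
      have hk' : k ≤ N := by simp at hk; omega
      exact mul_le_mul_of_nonneg_left (hall (N - k) k (by omega)).le (hDk0 k hk')
    · refine ⟨k0, hk0, ?_⟩
      have hk' : k0 ≤ N := by simp at hk0; omega
      exact mul_lt_mul_of_pos_left (hall (N - k0) k0 (by omega)) hk0pos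
  have hL : ∑ k ∈ range (N + 1), Dk k * (‖R (z - N) k‖ * ((N : ℝ) + 2)) =
      ((N : ℝ) + 2) * ∑ k ∈ range (N + 1), Dk k * ‖R (z - N) k‖ := by
    rw [Finset.mul_sum]
    apply Finset.sum_congr rfl
    intro k _
    ring
  have hR : ∑ k ∈ range (N + 1), Dk k * (‖R (z - N) (N + 1)‖ * ((k : ℝ) + 1)) =
      ‖R (z - N) (N + 1)‖ * (((N : ℝ) + 2) * v (N + 1)) := by
    rw [← hweighted, Finset.mul_sum]
    apply Finset.sum_congr rfl
    intro k _
    ring
  rw [hL, hR] at hlt
  have hN2 : (0 : ℝ) < (N : ℝ) + 2 := by positivity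
  have hfin : ∑ k ∈ range (N + 1), Dk k * ‖R (z - N) k‖ < v (N + 1) * ‖R (z - N) (N + 1)‖ := by
    have : ((N : ℝ) + 2) * ∑ k ∈ range (N + 1), Dk k * ‖R (z - N) k‖ <
        ((N : ℝ) + 2) * (v (N + 1) * ‖R (z - N) (N + 1)‖) := by
      calc _ < _ := hlt
        _ = _ := by ring
    exact lt_of_mul_lt_mul_left this hN2.le
  have hEq : (v (N + 1) : ℂ) * bc z (N + 1) =
      ∑ k ∈ range (N + 1), ((Dk k : ℝ) : ℂ) * R (z - N) k := by
    have := sub_eq_zero.mp hz
    simpa [hDk] using this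
  rw [← R_eq_bc] at hEq
  have hn : ‖(v (N + 1) : ℂ) * R (z - N) (N + 1)‖ = v (N + 1) * ‖R (z - N) (N + 1)‖ := by
    rw [norm_mul, Complex.norm_real, Real.norm_of_nonneg hvpos.le]
  have hle : ‖∑ k ∈ range (N + 1), ((Dk k : ℝ) : ℂ) * R (z - N) k‖ ≤
      ∑ k ∈ range (N + 1), Dk k * ‖R (z - N) k‖ := by
    refine le_trans (norm_sum_le _ _) (Finset.sum_le_sum ?_)
    intro k hk
    have hk' : k ≤ N := by simp at hk; omega
    rw [norm_mul, Complex.norm_real, Real.norm_of_nonneg (hDk0 k hk')]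
  rw [← hEq, hn] at hle
  linarith

end Pool.Agent.H23.Peak
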