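import Mathlib
import Pool.Agent.H23.PeakZeros

set_option autoImplicit false

namespace Pool.Agent.H23.Peak

open Finset

/-- value of `R 3 k` -/
noncomputable def hh (k : ℕ) : ℝ := ((k : ℝ) + 1) * (k + 2) / 2

/-- value of `R 4 k` -/
noncomputable def gg (k : ℕ) : ℝ := ((k : ℝ) + 1) * (k + 2) * (k + 3) / 6

lemma hh_pos (k : ℕ) : 0 < hh k := by unfold hh; positivity
lemma gg_pos (k : ℕ) : 0 < gg k := by unfold gg; positivity

lemma hh_succ (k : ℕ) : hh (k + 1) * ((k : ℝ) + 1) = hh k * (k + 3) := by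
  unfold hh; push_cast; ring

lemma gg_succ (k : ℕ) : gg (k + 1) * ((k : ℝ) + 1) = gg k * (k + 4) := by
  unfold gg; push_cast; ring

lemma gg_add (k : ℕ) : gg (k + 1) = gg k + hh (k + 1) := by
  unfold gg hh; push_cast; ring

lemma hh_mono (k : ℕ) : hh k ≤ hh (k + 1) := by
  unfold hh; push_cast
  have : (0 : ℝ) ≤ k := Nat.cast_nonneg k
  nlinarith

lemma hh_mono' {a b : ℕ} (h : a ≤ b) : hh a ≤ hh b := by
  obtain ⟨d, rfl⟩ := Nat.exists_eq_add_of_le h
  clear h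
  induction d with
  | zero => simp
  | succ d ih => exact le_trans ih (hh_mono (a + d))

/-- sum of `hh` -/
lemma sum_hh (n : ℕ) : ∑ i ∈ range (n + 1), hh i = gg n := by
  induction n with
  | zero => simp [hh, gg]; norm_num
  | succ n ih => rw [Finset.sum_range_succ, ih, gg_add]

lemma norm_add_nat (y : ℂ) (k : ℕ) : y.re + k ≤ ‖y + k‖ := by
  have := Complex.re_le_norm (y + k)
  simpa using this

lemma norm_cast_succ (k : ℕ) : ‖((k : ℂ) + 1)‖ = (k : ℝ) + 1 := by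
  have : ((k : ℂ) + 1) = ((k + 1 : ℕ) : ℂ) := by push_cast; ring
  rw [this, Complex.norm_natCast]; push_cast; ring

lemma norm_R_succ (y : ℂ) (k : ℕ) : ‖R y (k + 1)‖ * ((k : ℝ) + 1) = ‖R y k‖ * ‖y + k‖ := by
  rw [R_succ, norm_mul, norm_div, norm_cast_succ]
  have : (0 : ℝ) < (k : ℝ) + 1 := by positivity
  field_simp

lemma R_norm_pos (y : ℂ) (hy : 0 < y.re) (k : ℕ) : 0 < ‖R y k‖ := by
  induction k with
  | zero => simp [R_zero]
  | succ k ih =>
    have h1 := norm_R_succ y k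
    have h2 := norm_add_nat y k
    have h3 : (0 : ℝ) ≤ k := Nat.cast_nonneg k
    have h4 : 0 < ‖y + k‖ := by linarith
    have h5 : 0 < ‖R y (k + 1)‖ * ((k : ℝ) + 1) := by rw [h1]; positivity
    exact pos_of_mul_pos_left h5 (by positivity)

section
variable (y : ℂ)

/-- ratio for `R y k` -/
lemma h_step (hy : 3 ≤ y.re) (k : ℕ) : ‖R y k‖ * hh (k + 1) ≤ ‖R y (k + 1)‖ * hh k := by
  have h1 := norm_R_succ y k
  have h2 := norm_add_nat y k
  have h3 := hh_succ k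
  have h4 := hh_pos k
  have h5 : 0 ≤ ‖R y k‖ := norm_nonneg _
  have hk : (0 : ℝ) < (k : ℝ) + 1 := by positivity
  have : ‖R y k‖ * hh (k + 1) * ((k : ℝ) + 1) ≤ ‖R y (k + 1)‖ * hh k * ((k : ℝ) + 1) := by
    calc ‖R y k‖ * hh (k + 1) * ((k : ℝ) + 1) = ‖R y k‖ * (hh k * (k + 3)) := by rw [← h3]; ring
      _ ≤ ‖R y k‖ * (hh k * ‖y + k‖) := by
          apply mul_le_mul_of_nonneg_left _ h5
          apply mul_le_mul_of_nonneg_left _ h4.le
          linarith
      _ = (‖R y k‖ * ‖y + k‖) * hh k := by ring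
      _ = ‖R y (k + 1)‖ * hh k * ((k : ℝ) + 1) := by rw [← h1]; ring
  exact le_of_mul_le_mul_right this hk

lemma h_step_lt (hy : 3 < y.re) (k : ℕ) : ‖R y k‖ * hh (k + 1) < ‖R y (k + 1)‖ * hh k := by
  have h1 := norm_R_succ y k
  have h2 := norm_add_nat y k
  have h3 := hh_succ k
  have h4 := hh_pos k
  have h5 : 0 < ‖R y k‖ := R_norm_pos y (by linarith) k
  have hk : (0 : ℝ) < (k : ℝ) + 1 := by positivity
  have : ‖R y k‖ * hh (k + 1) * ((k : ℝ) + 1) < ‖R y (k + 1)‖ * hh k * ((k : ℝ) + 1) := by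
    calc ‖R y k‖ * hh (k + 1) * ((k : ℝ) + 1) = ‖R y k‖ * (hh k * (k + 3)) := by rw [← h3]; ring
      _ < ‖R y k‖ * (hh k * ‖y + k‖) := by
          apply mul_lt_mul_of_pos_left _ h5
          apply mul_lt_mul_of_pos_left _ h4
          linarith
      _ = (‖R y k‖ * ‖y + k‖) * hh k := by ring
      _ = ‖R y (k + 1)‖ * hh k * ((k : ℝ) + 1) := by rw [← h1]; ring
  exact lt_of_mul_lt_mul_right this hk.le

lemma h_ratio (hy : 3 ≤ y.re) {a b : ℕ} (hab : a ≤ b) : ‖R y a‖ * hh b ≤ ‖R y b‖ * hh a := by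
  obtain ⟨d, rfl⟩ := Nat.exists_eq_add_of_le hab
  clear hab
  induction d with
  | zero => simp
  | succ d ih =>
    have h1 := h_step y hy (a + d)
    have h2 := hh_pos (a + d)
    have h3 := hh_pos a
    have h4 := hh_pos (a + d + 1)
    have : (‖R y a‖ * hh (a + (d + 1))) * hh (a + d) ≤ (‖R y (a + (d + 1))‖ * hh a) * hh (a + d) := by
      calc (‖R y a‖ * hh (a + (d + 1))) * hh (a + d)
          = (‖R y a‖ * hh (a + d)) * hh (a + d + 1) := by
            rw [show a + (d + 1) = a + d + 1 by ring]; ring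
        _ ≤ (‖R y (a + d)‖ * hh a) * hh (a + d + 1) := mul_le_mul_of_nonneg_right ih h4.le
        _ = (‖R y (a + d)‖ * hh (a + d + 1)) * hh a := by ring
        _ ≤ (‖R y (a + d + 1)‖ * hh (a + d)) * hh a := mul_le_mul_of_nonneg_right h1 h3.le
        _ = (‖R y (a + (d + 1))‖ * hh a) * hh (a + d) := by
            rw [show a + (d + 1) = a + d + 1 by ring]; ring
    exact le_of_mul_le_mul_right this h2

/-- ratio for `R (y+1) k` -/
lemma g_step (hy : 3 ≤ y.re) (k : ℕ) : ‖R (y + 1) k‖ * gg (k + 1) ≤ ‖R (y + 1) (k + 1)‖ * gg k := by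
  have h1 := norm_R_succ (y + 1) k
  have h2 := norm_add_nat (y + 1) k
  have h3 := gg_succ k
  have h4 := gg_pos k
  have h5 : 0 ≤ ‖R (y + 1) k‖ := norm_nonneg _
  have hk : (0 : ℝ) < (k : ℝ) + 1 := by positivity
  have hre : (y + 1).re = y.re + 1 := by simp
  have : ‖R (y + 1) k‖ * gg (k + 1) * ((k : ℝ) + 1) ≤ ‖R (y + 1) (k + 1)‖ * gg k * ((k : ℝ) + 1) := by
    calc ‖R (y + 1) k‖ * gg (k + 1) * ((k : ℝ) + 1) = ‖R (y + 1) k‖ * (gg k * (k + 4)) := by
          rw [← h3]; ring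
      _ ≤ ‖R (y + 1) k‖ * (gg k * ‖y + 1 + k‖) := by
          apply mul_le_mul_of_nonneg_left _ h5
          apply mul_le_mul_of_nonneg_left _ h4.le
          rw [hre] at h2
          linarith
      _ = (‖R (y + 1) k‖ * ‖y + 1 + k‖) * gg k := by ring
      _ = ‖R (y + 1) (k + 1)‖ * gg k * ((k : ℝ) + 1) := by rw [← h1]; ring
  exact le_of_mul_le_mul_right this hk

lemma g_ratio (hy : 3 ≤ y.re) {a b : ℕ} (hab : a ≤ b) :
    ‖R (y + 1) a‖ * gg b ≤ ‖R (y + 1) b‖ * gg a := by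
  obtain ⟨d, rfl⟩ := Nat.exists_eq_add_of_le hab
  clear hab
  induction d with
  | zero => simp
  | succ d ih =>
    have h1 := g_step y hy (a + d)
    have h2 := gg_pos (a + d)
    have h3 := gg_pos a
    have h4 := gg_pos (a + d + 1)
    have : (‖R (y + 1) a‖ * gg (a + (d + 1))) * gg (a + d) ≤
        (‖R (y + 1) (a + (d + 1))‖ * gg a) * gg (a + d) := by
      calc (‖R (y + 1) a‖ * gg (a + (d + 1))) * gg (a + d)
          = (‖R (y + 1) a‖ * gg (a + d)) * gg (a + d + 1) := by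
            rw [show a + (d + 1) = a + d + 1 by ring]; ring
        _ ≤ (‖R (y + 1) (a + d)‖ * gg a) * gg (a + d + 1) := mul_le_mul_of_nonneg_right ih h4.le
        _ = (‖R (y + 1) (a + d)‖ * gg (a + d + 1)) * gg a := by ring
        _ ≤ (‖R (y + 1) (a + d + 1)‖ * gg (a + d)) * gg a := mul_le_mul_of_nonneg_right h1 h3.le
        _ = (‖R (y + 1) (a + (d + 1))‖ * gg a) * gg (a + d) := by
            rw [show a + (d + 1) = a + d + 1 by ring]; ring
    exact le_of_mul_le_mul_right this h2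

lemma h_le_g (hy : 0 < y.re) (k : ℕ) : ‖R y k‖ ≤ ‖R (y + 1) k‖ := by
  have h1 : y * R (y + 1) k = (y + k) * R y k := R_shift y k
  have h2 : ‖y‖ * ‖R (y + 1) k‖ = ‖y + k‖ * ‖R y k‖ := by
    rw [← norm_mul, ← norm_mul, h1]
  have h3 : ‖y‖ ≤ ‖y + k‖ := by
    rw [Complex.norm_eq_sqrt_sq_add_sq, Complex.norm_eq_sqrt_sq_add_sq]
    apply Real.sqrt_le_sqrt
    have hk : (0 : ℝ) ≤ k := Nat.cast_nonneg k
    simp
    nlinarith
  have h4 : 0 < ‖y‖ := by
    have := Complex.re_le_norm y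
    linarith
  have h5 : 0 ≤ ‖R y k‖ := norm_nonneg _
  have : ‖y‖ * ‖R y k‖ ≤ ‖y‖ * ‖R (y + 1) k‖ := by
    rw [h2]
    exact mul_le_mul_of_nonneg_right h3 h5
  exact le_of_mul_le_mul_left this h4

end

/-- partial sums from `m1` -/
noncomputable def T (m1 : ℕ) (v : ℕ → ℝ) (y : ℂ) (d : ℕ) : ℂ :=
  ∑ t ∈ range (d + 1), (v (m1 + t) : ℂ) * R y (m1 + t)

noncomputable def T3 (m1 : ℕ) (v : ℕ → ℝ) (d : ℕ) : ℝ :=
  ∑ t ∈ range (d + 1), v (m1 + t) * hh (m1 + t)

lemma T_succ (m1 : ℕ) (v : ℕ → ℝ) (y : ℂ) (d : ℕ) :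
    T m1 v y (d + 1) = T m1 v y d + (v (m1 + d + 1) : ℂ) * R y (m1 + d + 1) := by
  unfold T; rw [Finset.sum_range_succ]; rfl

lemma T3_succ (m1 : ℕ) (v : ℕ → ℝ) (d : ℕ) :
    T3 m1 v (d + 1) = T3 m1 v d + v (m1 + d + 1) * hh (m1 + d + 1) := by
  unfold T3; rw [Finset.sum_range_succ]; rfl

lemma T_lower (m1 : ℕ) (v : ℕ → ℝ) (g : Good m1 v) (h0 : v m1 = 0) (y : ℂ) (hy : 3 ≤ y.re) (d : ℕ) :
    ‖R (y + 1) (m1 + d)‖ * T3 m1 v d ≤ ‖T m1 v y d‖ * gg (m1 + d) := by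
  -- U = v(M) g_M - T_M
  have hU : ∀ d, ‖(v (m1 + d) : ℂ) * R (y + 1) (m1 + d) - T m1 v y d‖ * gg (m1 + d) ≤
      ‖R (y + 1) (m1 + d)‖ * (v (m1 + d) * gg (m1 + d) - T3 m1 v d) ∧
      0 ≤ v (m1 + d) * gg (m1 + d) - T3 m1 v d := by
    intro d
    induction d with
    | zero => simp [T, T3, h0]
    | succ d ih =>
      obtain ⟨ih1, ih2⟩ := ih
      have hmono : v (m1 + d) ≤ v (m1 + d + 1) := g.val_mono' (by omega) (by omega)
      have e : m1 + (d + 1) = m1 + d + 1 := by ring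
      rw [e, T_succ, T3_succ, R_pascal, gg_add]
      set M := m1 + d
      have hg := gg_pos M
      have hg' := gg_pos (M + 1)
      have hn : 0 ≤ ‖R (y + 1) M‖ := norm_nonneg _
      have key3 : v (M + 1) * (gg M + hh (M + 1)) - (T3 m1 v d + v (M + 1) * hh (M + 1)) =
          (v M * gg M - T3 m1 v d) + (v (M + 1) - v M) * gg M := by ring
      have keyc : (v (M + 1) : ℂ) * (R y (M + 1) + R (y + 1) M) - (T m1 v y d + (v (M + 1) : ℂ) * R y (M + 1)) =
          ((v M : ℂ) * R (y + 1) M - T m1 v y d) + ((v (M + 1) - v M : ℝ) : ℂ) * R (y + 1) M := by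
        push_cast; ring
      rw [key3, keyc, ← gg_add, ← R_pascal]
      have hnn : 0 ≤ (v M * gg M - T3 m1 v d) + (v (M + 1) - v M) * gg M := by
        have : 0 ≤ (v (M + 1) - v M) * gg M := mul_nonneg (by linarith) hg.le
        linarith
      refine ⟨?_, hnn⟩
      have h1 : ‖((v M : ℂ) * R (y + 1) M - T m1 v y d) + ((v (M + 1) - v M : ℝ) : ℂ) * R (y + 1) M‖ ≤
          ‖(v M : ℂ) * R (y + 1) M - T m1 v y d‖ + (v (M + 1) - v M) * ‖R (y + 1) M‖ := by
        refine le_trans (norm_add_le _ _) ?_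
        rw [norm_mul, Complex.norm_real, Real.norm_of_nonneg (by linarith)]
      have h2 := g_step y hy M
      have h3 : (‖((v M : ℂ) * R (y + 1) M - T m1 v y d) + ((v (M + 1) - v M : ℝ) : ℂ) * R (y + 1) M‖
          * gg M) ≤ ‖R (y + 1) M‖ * ((v M * gg M - T3 m1 v d) + (v (M + 1) - v M) * gg M) := by
        calc _ ≤ (‖(v M : ℂ) * R (y + 1) M - T m1 v y d‖ + (v (M + 1) - v M) * ‖R (y + 1) M‖) * gg M :=
              mul_le_mul_of_nonneg_right h1 hg.le
          _ = ‖(v M : ℂ) * R (y + 1) M - T m1 v y d‖ * gg M + (v (M + 1) - v M) * ‖R (y + 1) M‖ * gg M := by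
              ring
          _ ≤ ‖R (y + 1) M‖ * (v M * gg M - T3 m1 v d) + (v (M + 1) - v M) * ‖R (y + 1) M‖ * gg M := by
              linarith
          _ = _ := by ring
      have h4 : (‖((v M : ℂ) * R (y + 1) M - T m1 v y d) + ((v (M + 1) - v M : ℝ) : ℂ) * R (y + 1) M‖
          * gg (M + 1)) * gg M ≤
          (‖R (y + 1) (M + 1)‖ * ((v M * gg M - T3 m1 v d) + (v (M + 1) - v M) * gg M)) * gg M := by
        calc _ = (‖((v M : ℂ) * R (y + 1) M - T m1 v y d) + ((v (M + 1) - v M : ℝ) : ℂ) * R (y + 1) M‖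
              * gg M) * gg (M + 1) := by ring
          _ ≤ (‖R (y + 1) M‖ * ((v M * gg M - T3 m1 v d) + (v (M + 1) - v M) * gg M)) * gg (M + 1) :=
              mul_le_mul_of_nonneg_right h3 hg'.le
          _ = (‖R (y + 1) M‖ * gg (M + 1)) * ((v M * gg M - T3 m1 v d) + (v (M + 1) - v M) * gg M) := by ring
          _ ≤ (‖R (y + 1) (M + 1)‖ * gg M) * ((v M * gg M - T3 m1 v d) + (v (M + 1) - v M) * gg M) :=
              mul_le_mul_of_nonneg_right h2 hnn
          _ = _ := by ring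
      exact le_of_mul_le_mul_right h4 hg
  obtain ⟨hU1, _⟩ := hU d
  set M := m1 + d
  have hg := gg_pos M
  have hv : 0 ≤ v M := g.val_nonneg _ (by omega)
  have h1 : v M * ‖R (y + 1) M‖ ≤ ‖T m1 v y d‖ + ‖(v M : ℂ) * R (y + 1) M - T m1 v y d‖ := by
    have : ‖(v M : ℂ) * R (y + 1) M‖ = v M * ‖R (y + 1) M‖ := by
      rw [norm_mul, Complex.norm_real, Real.norm_of_nonneg hv]
    rw [← this]
    calc ‖(v M : ℂ) * R (y + 1) M‖ = ‖T m1 v y d + ((v M : ℂ) * R (y + 1) M - T m1 v y d)‖ := by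
          congr 1; ring
      _ ≤ _ := norm_add_le _ _
  have h2 : v M * ‖R (y + 1) M‖ * gg M ≤
      ‖T m1 v y d‖ * gg M + ‖(v M : ℂ) * R (y + 1) M - T m1 v y d‖ * gg M := by
    rw [← add_mul]
    exact mul_le_mul_of_nonneg_right h1 hg.le
  have h3 : ‖R (y + 1) M‖ * (v M * gg M - T3 m1 v d) =
      v M * ‖R (y + 1) M‖ * gg M - ‖R (y + 1) M‖ * T3 m1 v d := by ring
  rw [h3] at hU1
  linarith

/-- Additional properties for nonempty peak sets. -/
structure Extra (m : ℕ) (v : ℕ → ℝ) : Prop where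
  two_le : 2 ≤ m
  zero : v m = 0
  growth : 2 * v (m + 2) = (m + 2) * v (m + 1)
  H : 2 * ∑ i ∈ range m, |v i| * hh i ≤ v (m + 1) * hh (m + 1)

lemma T3_mono (m1 : ℕ) (v : ℕ → ℝ) (g : Good m1 v) (a b : ℕ) (hab : a ≤ b) :
    T3 m1 v a ≤ T3 m1 v b := by
  obtain ⟨d, rfl⟩ := Nat.exists_eq_add_of_le hab
  clear hab
  induction d with
  | zero => simp
  | succ d ih =>
    have : T3 m1 v (a + (d + 1)) = T3 m1 v (a + d) + v (m1 + (a + d) + 1) * hh (m1 + (a + d) + 1) := by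
      rw [← T3_succ]; rfl
    rw [this]
    have h1 : 0 ≤ v (m1 + (a + d) + 1) := g.val_nonneg _ (by omega)
    have h2 := hh_pos (m1 + (a + d) + 1)
    have := mul_nonneg h1 h2.le
    linarith

lemma T_even_lower (m1 : ℕ) (v : ℕ → ℝ) (g : Good m1 v) (ex : Extra m1 v) (y : ℂ) (hy : 3 ≤ y.re)
    (d : ℕ) (hd : 1 ≤ d) :
    v (m1 + 1) * ‖R y (m1 + 1)‖ ≤ ‖T m1 v y d‖ := by
  rcases Nat.lt_or_ge d 2 with h | h
  · have : d = 1 := by omega
    subst this
    have : T m1 v y 1 = (v (m1 + 1) : ℂ) * R y (m1 + 1) := by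
      unfold T
      rw [Finset.sum_range_succ, Finset.sum_range_succ]
      simp [ex.zero]
    rw [this, norm_mul, Complex.norm_real, Real.norm_of_nonneg (g.val_nonneg _ (by omega))]
  · have h1 := T_lower m1 v g ex.zero y hy d
    have h2 := T3_mono m1 v g 2 d h
    have hv : 0 < v (m1 + 1) := g.pos1
    have h3 : v (m1 + 1) * gg (m1 + 1) ≤ T3 m1 v 2 := by
      unfold T3
      rw [Finset.sum_range_succ, Finset.sum_range_succ, Finset.sum_range_succ]
      have hgr := ex.growth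
      simp only [Finset.range_zero, Finset.sum_empty, add_zero, ex.zero, zero_mul, zero_add]
      have hv2 : v (m1 + 2) = (m1 + 2) * v (m1 + 1) / 2 := by linarith
      rw [hv2]
      unfold gg hh
      push_cast
      have hm0 : (0 : ℝ) ≤ m1 := Nat.cast_nonneg m1
      have : v (m1 + 1) * (((m1 : ℝ) + 1 + 1) * (m1 + 1 + 2) / 2) +
          (m1 + 2) * v (m1 + 1) / 2 * (((m1 : ℝ) + 2 + 1) * (m1 + 2 + 2) / 2)
          - v (m1 + 1) * (((m1 : ℝ) + 1 + 1) * (m1 + 1 + 2) * (m1 + 1 + 3) / 6) =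
          v (m1 + 1) * (((m1 : ℝ) + 2) * (m1 + 3) * (m1 + 10) / 12) := by ring
      have h0 : 0 ≤ v (m1 + 1) * (((m1 : ℝ) + 2) * (m1 + 3) * (m1 + 10) / 12) := by positivity
      linarith
    have h4 := g_ratio y hy (show m1 + 1 ≤ m1 + d by omega)
    have h5 := h_le_g y (by linarith) (m1 + 1)
    have hgM := gg_pos (m1 + d)
    have hga := gg_pos (m1 + 1)
    have hn : 0 ≤ ‖R (y + 1) (m1 + d)‖ := norm_nonneg _
    have h6 : v (m1 + 1) * ‖R (y + 1) (m1 + 1)‖ * gg (m1 + d) ≤ ‖T m1 v y d‖ * gg (m1 + d) := by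
      calc v (m1 + 1) * ‖R (y + 1) (m1 + 1)‖ * gg (m1 + d)
          = v (m1 + 1) * (‖R (y + 1) (m1 + 1)‖ * gg (m1 + d)) := by ring
        _ ≤ v (m1 + 1) * (‖R (y + 1) (m1 + d)‖ * gg (m1 + 1)) := mul_le_mul_of_nonneg_left h4 hv.le
        _ = ‖R (y + 1) (m1 + d)‖ * (v (m1 + 1) * gg (m1 + 1)) := by ring
        _ ≤ ‖R (y + 1) (m1 + d)‖ * T3 m1 v d :=
            mul_le_mul_of_nonneg_left (le_trans h3 h2) hn
        _ ≤ _ := h1
    have h7 := le_of_mul_le_mul_right h6 hgM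
    exact le_trans (mul_le_mul_of_nonneg_left h5 hv.le) h7

/-- rewriting `P` at `-y` -/
lemma P_neg (m : ℕ) (w : ℕ → ℝ) (g : Good m w) (y : ℂ) :
    P m w (-y) = (-1) ^ m * ∑ i ∈ range m, (w i : ℂ) * R y i := by
  unfold P
  rw [Finset.mul_sum]
  apply Finset.sum_congr rfl
  intro i hi
  rw [g.sd i (by simpa using hi), bc_neg]
  push_cast
  have : (-1 : ℂ) ^ (m + i) * (-1) ^ i = (-1) ^ m := by
    rw [pow_add, mul_assoc, ← pow_add, ← two_mul, pow_mul]; simp
  calc (-1 : ℂ) ^ (m + i) * (w i : ℂ) * ((-1) ^ i * R y i)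
      = ((-1 : ℂ) ^ (m + i) * (-1) ^ i) * ((w i : ℂ) * R y i) := by ring
    _ = _ := by rw [this]

/-- values of `nextv` below `m` -/
lemma Good.nextv_low {m1 : ℕ} {v : ℕ → ℝ} (g : Good m1 v) (m : ℕ) (hm : m1 + 2 ≤ m) (i : ℕ)
    (hi : i < m1) : nextv m v i = ((-1) ^ (m + 1 + m1) - 1) * v i := by
  rw [nextv_lt m v i (by omega), g.sd i hi]
  have : (-1 : ℝ) ^ (m + 1 + i) * (-1 : ℝ) ^ (m1 + i) = (-1 : ℝ) ^ (m + 1 + m1) := by
    rw [← pow_add, show m + 1 + i + (m1 + i) = 2 * i + (m + 1 + m1) by ring, pow_add, pow_mul]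
    simp
  rw [← mul_assoc, this]; ring

lemma Good.nextv_mid {m1 : ℕ} {v : ℕ → ℝ} (g : Good m1 v) (m : ℕ) (i : ℕ)
    (hi1 : m1 ≤ i) (h1 : 1 ≤ i) (hi : i < m) : nextv m v i = - v i := by
  rw [nextv_lt m v i hi, g.deg i 0 hi1 h1]; simp

lemma sum_split (m1 d : ℕ) (f : ℕ → ℂ) :
    ∑ i ∈ range (m1 + d + 1), f i = ∑ i ∈ range m1, f i + ∑ t ∈ range (d + 1), f (m1 + t) := by
  rw [show m1 + d + 1 = m1 + (d + 1) by ring, Finset.sum_range_add]

lemma sum_split_real (m1 d : ℕ) (f : ℕ → ℝ) :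
    ∑ i ∈ range (m1 + d + 1), f i = ∑ i ∈ range m1, f i + ∑ t ∈ range (d + 1), f (m1 + t) := by
  rw [show m1 + d + 1 = m1 + (d + 1) by ring, Finset.sum_range_add]

/-- Second half, nonempty case. -/
theorem re_ge_of_extra (m1 : ℕ) (v : ℕ → ℝ) (g : Good m1 v) (ex : Extra m1 v) (m : ℕ)
    (hm : m1 + 2 ≤ m) (z : ℂ) (hz : P m (nextv m v) z = 0) : -3 ≤ z.re := by
  by_contra hcon
  push Not at hcon
  obtain ⟨y, hy⟩ : ∃ y, z = -y := ⟨-z, by simp⟩
  subst hy
  have hyre : 3 < y.re := by simp at hcon; linarith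
  rw [P_neg m _ (g.next m hm)] at hz
  have hz' : ∑ i ∈ range m, (nextv m v i : ℂ) * R y i = 0 := by
    rcases mul_eq_zero.mp hz with h | h
    · exact absurd h (pow_ne_zero _ (by norm_num))
    · exact h
  obtain ⟨d, hd⟩ : ∃ d, m = m1 + d + 1 := ⟨m - m1 - 1, by omega⟩
  have hd1 : 1 ≤ d := by omega
  have hm1 := ex.two_le
  have hsplit : ∑ i ∈ range m, (nextv m v i : ℂ) * R y i =
      (((-1) ^ (m + 1 + m1) - 1 : ℝ) : ℂ) * ∑ i ∈ range m1, (v i : ℂ) * R y i - T m1 v y d := by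
    rw [show range m = range (m1 + d + 1) by rw [hd], sum_split]
    have a1 : ∑ i ∈ range m1, (nextv m v i : ℂ) * R y i =
        (((-1) ^ (m + 1 + m1) - 1 : ℝ) : ℂ) * ∑ i ∈ range m1, (v i : ℂ) * R y i := by
      rw [Finset.mul_sum]
      apply Finset.sum_congr rfl
      intro i hi
      rw [g.nextv_low m hm i (by simpa using hi)]
      push_cast; ring
    have a2 : ∑ t ∈ range (d + 1), (nextv m v (m1 + t) : ℂ) * R y (m1 + t) = - T m1 v y d := by
      unfold T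
      rw [← Finset.sum_neg_distrib]
      apply Finset.sum_congr rfl
      intro t ht
      have ht' : t < d + 1 := by simpa using ht
      rw [g.nextv_mid m (m1 + t) (by omega) (by omega) (by omega)]
      push_cast; ring
    rw [a1, a2]; ring
  rw [hsplit] at hz'
  have hTeq : T m1 v y d = (((-1) ^ (m + 1 + m1) - 1 : ℝ) : ℂ) * ∑ i ∈ range m1, (v i : ℂ) * R y i :=
    (sub_eq_zero.mp hz').symm
  rcases Nat.even_or_odd (m + 1 + m1) with he | ho
  · -- odd gap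
    rw [he.neg_one_pow] at hTeq
    simp only [sub_self, Complex.ofReal_zero, zero_mul] at hTeq
    have h1 := T_lower m1 v g ex.zero y hyre.le d
    rw [hTeq, norm_zero, zero_mul] at h1
    have h2 : 0 < ‖R (y + 1) (m1 + d)‖ := R_norm_pos _ (by simp; linarith) _
    have h3 : 0 < T3 m1 v d := by
      have h4 := T3_mono m1 v g 1 d hd1
      have h5 : T3 m1 v 1 = v (m1 + 1) * hh (m1 + 1) := by
        unfold T3
        rw [Finset.sum_range_succ, Finset.sum_range_succ]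
        simp [ex.zero]
      have h6 := mul_pos g.pos1 (hh_pos (m1 + 1))
      linarith
    have := mul_pos h2 h3
    linarith
  · -- even gap
    rw [ho.neg_one_pow] at hTeq
    have h1 := T_even_lower m1 v g ex y hyre.le d hd1
    have h2 : ‖T m1 v y d‖ ≤ 2 * ∑ i ∈ range m1, |v i| * ‖R y i‖ := by
      rw [hTeq, norm_mul]
      have e : ‖(((-1 : ℝ) - 1 : ℝ) : ℂ)‖ = 2 := by
        rw [Complex.norm_real]; norm_num
      rw [e]
      apply mul_le_mul_of_nonneg_left _ (by norm_num)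
      refine le_trans (norm_sum_le _ _) (Finset.sum_le_sum ?_)
      intro i _
      rw [norm_mul, Complex.norm_real, Real.norm_eq_abs]
    have hR1 : 0 < ‖R y m1‖ := R_norm_pos _ (by linarith) _
    have hh1 := hh_pos m1
    have hh2 := hh_pos (m1 + 1)
    have h3 : (∑ i ∈ range m1, |v i| * ‖R y i‖) * hh m1 ≤ ‖R y m1‖ * ∑ i ∈ range m1, |v i| * hh i := by
      rw [Finset.sum_mul, Finset.mul_sum]
      apply Finset.sum_le_sum
      intro i hi
      have := h_ratio y hyre.le (show i ≤ m1 by simp at hi; omega)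
      calc |v i| * ‖R y i‖ * hh m1 = |v i| * (‖R y i‖ * hh m1) := by ring
        _ ≤ |v i| * (‖R y m1‖ * hh i) := mul_le_mul_of_nonneg_left this (abs_nonneg _)
        _ = _ := by ring
    have h4 := h_step_lt y hyre m1
    have h5 := ex.H
    have hv := g.pos1
    -- combine
    have h6 : v (m1 + 1) * ‖R y (m1 + 1)‖ * hh m1 ≤ ‖R y m1‖ * (v (m1 + 1) * hh (m1 + 1)) := by
      calc v (m1 + 1) * ‖R y (m1 + 1)‖ * hh m1 ≤ (2 * ∑ i ∈ range m1, |v i| * ‖R y i‖) * hh m1 :=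
            mul_le_mul_of_nonneg_right (le_trans h1 h2) hh1.le
        _ = 2 * ((∑ i ∈ range m1, |v i| * ‖R y i‖) * hh m1) := by ring
        _ ≤ 2 * (‖R y m1‖ * ∑ i ∈ range m1, |v i| * hh i) := by linarith
        _ = ‖R y m1‖ * (2 * ∑ i ∈ range m1, |v i| * hh i) := by ring
        _ ≤ _ := mul_le_mul_of_nonneg_left h5 hR1.le
    have h7 : ‖R y m1‖ * (v (m1 + 1) * hh (m1 + 1)) < v (m1 + 1) * ‖R y (m1 + 1)‖ * hh m1 := by
      calc ‖R y m1‖ * (v (m1 + 1) * hh (m1 + 1)) = v (m1 + 1) * (‖R y m1‖ * hh (m1 + 1)) := by ring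
        _ < v (m1 + 1) * (‖R y (m1 + 1)‖ * hh m1) := mul_lt_mul_of_pos_left h4 hv
        _ = _ := by ring
    linarith

/-- The inductive step for `Extra`. -/
theorem Extra.next (m1 : ℕ) (v : ℕ → ℝ) (g : Good m1 v) (ex : Extra m1 v) (m : ℕ)
    (hm : m1 + 2 ≤ m) : Extra m (nextv m v) := by
  have hm1 := ex.two_le
  refine ⟨by omega, g.next_self m hm, g.next_growth m hm, ?_⟩
  obtain ⟨d, hd⟩ : ∃ d, m = m1 + d + 1 := ⟨m - m1 - 1, by omega⟩
  have hmm : m - 1 = m1 + d := by omega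
  have hvm : 0 < v (m - 1) := g.val_pos _ (by omega)
  have hW : ∑ i ∈ range m, |nextv m v i| * hh i ≤
      2 * (∑ i ∈ range m1, |v i| * hh i) + v (m - 1) * gg (m - 1) := by
    rw [show range m = range (m1 + d + 1) by rw [hd], sum_split_real]
    apply add_le_add
    · rw [Finset.mul_sum]
      apply Finset.sum_le_sum
      intro i hi
      rw [g.nextv_low m hm i (by simpa using hi), abs_mul]
      have : |(-1 : ℝ) ^ (m + 1 + m1) - 1| ≤ 2 := by
        rcases neg_one_pow_eq_or ℝ (m + 1 + m1) with h | h <;> rw [h] <;> norm_num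
      have h1 := hh_pos i
      have h2 : 0 ≤ |v i| * hh i := by positivity
      calc |(-1 : ℝ) ^ (m + 1 + m1) - 1| * |v i| * hh i = |(-1 : ℝ) ^ (m + 1 + m1) - 1| * (|v i| * hh i) := by
            ring
        _ ≤ 2 * (|v i| * hh i) := mul_le_mul_of_nonneg_right this h2
    · have : ∑ t ∈ range (d + 1), |nextv m v (m1 + t)| * hh (m1 + t) ≤
          ∑ t ∈ range (d + 1), v (m - 1) * hh (m1 + t) := by
        apply Finset.sum_le_sum
        intro t ht
        have ht' : t < d + 1 := by simpa using ht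
        rw [g.nextv_mid m (m1 + t) (by omega) (by omega) (by omega), abs_neg,
          abs_of_nonneg (g.val_nonneg _ (by omega))]
        exact mul_le_mul_of_nonneg_right (g.val_mono' (by omega) (by omega)) (hh_pos _).le
      refine le_trans this ?_
      rw [← Finset.mul_sum]
      apply mul_le_mul_of_nonneg_left _ hvm.le
      rw [hmm, ← sum_hh, sum_split_real]
      have : 0 ≤ ∑ i ∈ range m1, hh i := Finset.sum_nonneg (fun i _ => (hh_pos i).le)
      linarith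
  have hH := ex.H
  have h1 : v (m1 + 1) * hh (m1 + 1) ≤ v (m - 1) * hh (m - 1) := by
    apply mul_le_mul
    · exact g.val_mono' (by omega) (by omega)
    · exact hh_mono' (by omega)
    · exact (hh_pos _).le
    · exact hvm.le
  have h2 := g.next_val_ge m hm
  have hm4 : (4 : ℝ) ≤ m := by exact_mod_cast (show 4 ≤ m by omega)
  have h3 : 2 * (hh (m - 1) + gg (m - 1)) ≤ ((m : ℝ) - 1) * hh (m + 1) := by
    unfold hh gg
    have : ((m - 1 : ℕ) : ℝ) = (m : ℝ) - 1 := by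
      rw [Nat.cast_sub (by omega)]; simp
    rw [this]
    push_cast
    have e : ((m : ℝ) - 1) * (((m : ℝ) + 1 + 1) * (m + 1 + 2) / 2) -
        2 * (((m : ℝ) - 1 + 1) * ((m : ℝ) - 1 + 2) / 2 +
          ((m : ℝ) - 1 + 1) * ((m : ℝ) - 1 + 2) * ((m : ℝ) - 1 + 3) / 6) =
        ((m : ℝ) ^ 3 - 7 * m - 18) / 6 := by ring
    have : 0 ≤ ((m : ℝ) ^ 3 - 7 * m - 18) / 6 := by
      have h16 : (16 : ℝ) ≤ (m : ℝ) ^ 2 := by nlinarith
      have : (m : ℝ) ^ 3 = m * (m : ℝ) ^ 2 := by ring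
      have : (m : ℝ) * 16 ≤ m * (m : ℝ) ^ 2 := mul_le_mul_of_nonneg_left h16 (by linarith)
      nlinarith
    linarith
  have h4 : v (m - 1) * (2 * (hh (m - 1) + gg (m - 1))) ≤ v (m - 1) * (((m : ℝ) - 1) * hh (m + 1)) :=
    mul_le_mul_of_nonneg_left h3 hvm.le
  have h5 : ((m : ℝ) - 1) * v (m - 1) * hh (m + 1) ≤ nextv m v (m + 1) * hh (m + 1) :=
    mul_le_mul_of_nonneg_right h2 (hh_pos _).le
  linarith

/-- values of the one-element case -/
lemma nextv_one (m : ℕ) (hm : 2 ≤ m) :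
    nextv m (fun _ => 1) 0 = (-1) ^ (m + 1) - 1 ∧
    (∀ i, 1 ≤ i → i < m → nextv m (fun _ => (1 : ℝ)) i = -1) ∧
    nextv m (fun _ => 1) (m + 1) = m - 1 := by
  refine ⟨?_, ?_, ?_⟩
  · rw [nextv_lt m _ 0 (by omega), D_zero]; simp
  · intro i h1 h2
    rw [good_zero.nextv_mid m i (by omega) h1 h2]
  · rw [nextv_add_one m _ (good_zero.deg _ _ (by omega) (by omega))]; ring

/-- `Extra` for one-element peak sets. -/
theorem extra_one (m : ℕ) (hm : 2 ≤ m) : Extra m (nextv m (fun _ => (1 : ℝ))) := by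
  refine ⟨hm, good_zero.next_self m (by omega), good_zero.next_growth m (by omega), ?_⟩
  obtain ⟨h0, h1, h2⟩ := nextv_one m hm
  rw [h2]
  obtain ⟨n, rfl⟩ : ∃ n, m = n + 1 := ⟨m - 1, by omega⟩
  rw [Finset.sum_range_succ']
  have e : ∑ k ∈ range n, |nextv (n + 1) (fun _ => (1 : ℝ)) (k + 1)| * hh (k + 1) = ∑ k ∈ range n, hh (k + 1) := by
    apply Finset.sum_congr rfl
    intro k hk
    have hk' : k < n := by simpa using hk
    rw [h1 (k + 1) (by omega) (by omega)]; simp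
  have e2 : ∑ k ∈ range n, hh (k + 1) = gg n - 1 := by
    rw [← sum_hh, Finset.sum_range_succ']
    simp [hh]
  rw [e, e2, h0]
  have e3 : |(-1 : ℝ) ^ (n + 1 + 1) - 1| ≤ 2 := by
    rcases neg_one_pow_eq_or ℝ (n + 1 + 1) with h | h <;> rw [h] <;> norm_num
  have e4 : hh 0 = 1 := by simp [hh]
  rw [e4, mul_one]
  have hn : (1 : ℝ) ≤ n := by exact_mod_cast (show 1 ≤ n by omega)
  have e5 : 2 * (gg n - 1 + 2) ≤ (((n + 1 : ℕ) : ℝ) - 1) * hh (n + 1 + 1) := by
    unfold gg hh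
    push_cast
    have : ((n : ℝ) + 1 - 1) * (((n : ℝ) + 1 + 1 + 1) * (n + 1 + 1 + 2) / 2) -
        2 * (((n : ℝ) + 1) * (n + 2) * (n + 3) / 6 - 1 + 2) =
        ((n : ℝ) - 1) * ((n : ℝ) ^ 2 + 10 * n + 24) / 6 := by ring
    have h3 : 0 ≤ ((n : ℝ) - 1) * ((n : ℝ) ^ 2 + 10 * n + 24) / 6 := by
      have : 0 ≤ (n : ℝ) - 1 := by linarith
      positivity
    linarith
  linarith

/-- Second half, one-element case. -/
theorem re_ge_one (m : ℕ) (hm : 2 ≤ m) (z : ℂ) (hz : P m (nextv m (fun _ => 1)) z = 0) : -3 ≤ z.re := by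
  by_contra hcon
  push Not at hcon
  obtain ⟨y, hy⟩ : ∃ y, z = -y := ⟨-z, by simp⟩
  subst hy
  have hyre : 3 < y.re := by simp at hcon; linarith
  rw [P_neg m _ (good_zero.next m (by omega))] at hz
  have hz' : ∑ i ∈ range m, (nextv m (fun _ => 1) i : ℂ) * R y i = 0 := by
    rcases mul_eq_zero.mp hz with h | h
    · exact absurd h (pow_ne_zero _ (by norm_num))
    · exact h
  obtain ⟨h0, h1, _⟩ := nextv_one m hm
  obtain ⟨n, rfl⟩ : ∃ n, m = n + 1 := ⟨m - 1, by omega⟩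
  have hsum : ∀ n, ∑ k ∈ range (n + 1), R y k = R (y + 1) n := by
    intro n
    induction n with
    | zero => simp [R_zero]
    | succ n ih => rw [Finset.sum_range_succ, ih, R_pascal]; ring
  have e : ∑ i ∈ range (n + 1), (nextv (n + 1) (fun _ => 1) i : ℂ) * R y i =
      (-1) ^ (n + 1 + 1) - R (y + 1) n := by
    rw [← hsum, Finset.sum_range_succ', Finset.sum_range_succ' (fun k => R y k), h0]
    have : ∑ k ∈ range n, (nextv (n + 1) (fun _ => 1) (k + 1) : ℂ) * R y (k + 1) =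
        - ∑ k ∈ range n, R y (k + 1) := by
      rw [← Finset.sum_neg_distrib]
      apply Finset.sum_congr rfl
      intro k hk
      have hk' : k < n := by simpa using hk
      rw [h1 (k + 1) (by omega) (by omega)]; simp
    rw [this, R_zero]
    push_cast; ring
  rw [e] at hz'
  have hEq : ‖R (y + 1) n‖ = 1 := by
    have : R (y + 1) n = (-1) ^ (n + 1 + 1) := (sub_eq_zero.mp hz').symm
    rw [this]; simp
  have hr := g_ratio y hyre.le (show 0 ≤ n by omega)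
  rw [R_zero, norm_one, one_mul, hEq, one_mul] at hr
  have : gg 0 = 1 := by simp [gg]; norm_num
  rw [this] at hr
  have hn : (1 : ℝ) ≤ n := by exact_mod_cast (show 1 ≤ n by omega)
  have : 4 ≤ gg n := by
    unfold gg
    have : 0 ≤ ((n : ℝ) - 1) * ((n : ℝ) ^ 2 + 7 * n + 18) / 6 := by
      have : 0 ≤ (n : ℝ) - 1 := by linarith
      positivity
    nlinarith
  linarith

end Pool.Agent.H23.Peak
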