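import Mathlib
import Pool.Agent.H23.PeakCount
import Pool.Agent.H23.PeakRe

set_option autoImplicit false

namespace Pool.Agent.H23.Peak

open Finset

/-- Either the starting case or the properties for nonempty sets. -/
def Case (m1 : ℕ) (v : ℕ → ℝ) : Prop := (m1 = 0 ∧ v = fun _ => 1) ∨ Extra m1 v

lemma nextv_base (m1 : ℕ) (v : ℕ → ℝ) (g : Good m1 v) (hc : Case m1 v) (n : ℕ) (hn : m1 + 1 ≤ n) :
    nextv (m1 + 1) v n = 0 := by
  have hv := newton v n 0
  rw [zero_add] at hv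
  unfold nextv
  rw [hv]
  have hsub : range (m1 + 1) ⊆ range (n + 1) := by
    intro x hx; simp at hx ⊢; omega
  rw [← Finset.sum_subset hsub]
  · rw [← Finset.sum_sub_distrib]
    apply Finset.sum_eq_zero
    intro i hi
    have hi' : i ≤ m1 := by simp at hi; omega
    have e : (-1 : ℝ) ^ (m1 + 1 + 1 + i) = (-1 : ℝ) ^ (m1 + i) := by
      rw [show m1 + 1 + 1 + i = (m1 + i) + 2 by ring, pow_add]; simp
    rcases Nat.lt_or_ge i m1 with h | h
    · rw [g.sd i h, e]; ring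
    · have : i = m1 := by omega
      subst this
      rcases hc with ⟨h0, hv1⟩ | ex
      · subst h0
        rw [D_zero]; simp
      · rw [ex.zero, g.deg _ _ (le_refl _) (by have := ex.two_le; omega)]; simp
  · intro i _ hi
    have hi' : m1 + 1 ≤ i := by simp at hi; omega
    rw [g.deg i 0 (by omega) (by omega)]; simp

lemma NP_adjacent (S : Finset ℕ) (m1 : ℕ) (h1 : (S = ∅ ∧ m1 = 0) ∨ (m1 ∈ S ∧ 1 ≤ m1)) (n : ℕ)
    (hn : m1 + 1 ≤ n) : NP (insert (m1 + 1) S) n = 0 := by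
  unfold NP
  rw [Nat.card_eq_zero]
  left
  constructor
  rintro ⟨π, h⟩
  have a1 := (h m1 (by omega)).mp (by simp)
  rcases h1 with ⟨_, h0⟩ | ⟨h0, h2⟩
  · subst h0
    exact absurd a1.1 (lt_irrefl 0)
  · have e : m1 - 1 + 1 = m1 := by omega
    have a2 := (h (m1 - 1) (by omega)).mp (by rw [e]; simp [h0])
    obtain ⟨_, _, b3, _⟩ := a1
    obtain ⟨_, _, _, b4⟩ := a2
    rw [e] at b4
    omega

theorem count_step (S : Finset ℕ) (m1 : ℕ) (v : ℕ → ℝ) (g : Good m1 v) (hcase : Case m1 v)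
    (hS : ∀ x ∈ S, x ≤ m1) (h1 : (S = ∅ ∧ m1 = 0) ∨ (m1 ∈ S ∧ 1 ≤ m1))
    (hc : ∀ n, m1 ≤ n → 1 ≤ n → (NP S n : ℝ) * 2 ^ (S.card + 1) = v n * 2 ^ n)
    (m : ℕ) (hm : m1 + 1 ≤ m) :
    ∀ n, m ≤ n → (NP (insert m S) n : ℝ) * 2 ^ (S.card + 2) = nextv m v n * 2 ^ n := by
  induction m, hm using Nat.le_induction with
  | base =>
    intro n hn
    rw [NP_adjacent S m1 h1 n hn, nextv_base m1 v g hcase n hn]; simp
  | succ m hm ih =>
    intro n hn
    obtain ⟨b, rfl⟩ : ∃ b, n = m + b := ⟨n - m, by omega⟩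
    have hb : 1 ≤ b := by omega
    have hrec := NP_rec S m b (by omega) hb (fun x hx => by have := hS x hx; omega)
    have hE := NP_empty b hb
    have hrecR : ((m + b).choose m : ℝ) * ((NP S m : ℝ) * (NP ∅ b : ℝ)) =
        (NP S (m + b) : ℝ) + (NP (insert m S) (m + b) : ℝ) + (NP (insert (m + 1) S) (m + b) : ℝ) := by
      exact_mod_cast hrec
    have hER : 2 * (NP ∅ b : ℝ) = 2 ^ b := by exact_mod_cast hE
    have c1 := hc m (by omega) (by omega)
    have c2 := hc (m + b) (by omega) (by omega)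
    have c3 := ih (m + b) (by omega)
    rw [nextv_succ]
    have e1 : (NP (insert (m + 1) S) (m + b) : ℝ) * 2 ^ (S.card + 2) =
        ((m + b).choose m : ℝ) * (((NP S m : ℝ) * 2 ^ (S.card + 1)) * (2 * (NP ∅ b : ℝ)))
        - 2 * ((NP S (m + b) : ℝ) * 2 ^ (S.card + 1))
        - (NP (insert m S) (m + b) : ℝ) * 2 ^ (S.card + 2) := by
      have : (NP (insert (m + 1) S) (m + b) : ℝ) =
          ((m + b).choose m : ℝ) * ((NP S m : ℝ) * (NP ∅ b : ℝ)) - (NP S (m + b) : ℝ)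
          - (NP (insert m S) (m + b) : ℝ) := by linarith
      rw [this]; ring
    rw [e1, c1, c2, c3, hER, pow_add 2 m b]
    ring

/-- Everything about peak polynomials. -/
theorem main_exists (S : Finset ℕ) (hadm : ∀ i ∈ S, 2 ≤ i ∧ i + 1 ∉ S) :
    ∃ (m1 : ℕ) (v : ℕ → ℝ), Good m1 v ∧ Case m1 v ∧ (∀ x ∈ S, x ≤ m1) ∧
      ((S = ∅ ∧ m1 = 0) ∨ (m1 ∈ S ∧ 1 ≤ m1)) ∧
      (∀ n, m1 ≤ n → 1 ≤ n → (NP S n : ℝ) * 2 ^ (S.card + 1) = v n * 2 ^ n) ∧
      (S.Nonempty → ∀ z : ℂ, P m1 v z = 0 → ‖z‖ ≤ m1 ∧ -3 ≤ z.re) := by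
  induction S using Finset.induction_on_max with
  | empty =>
    refine ⟨0, fun _ => 1, good_zero, Or.inl ⟨rfl, rfl⟩, by simp, Or.inl ⟨rfl, rfl⟩, ?_, ?_⟩
    · intro n _ hn
      have h : (2 : ℝ) * (NP ∅ n : ℝ) = 2 ^ n := by exact_mod_cast NP_empty n hn
      simp only [Finset.card_empty, zero_add, pow_one, one_mul]
      linarith
    · intro h; exact absurd h (by simp)
  | insert m S hmax ih =>
    have hadm' : ∀ i ∈ S, 2 ≤ i ∧ i + 1 ∉ S := by
      intro i hi
      obtain ⟨a1, a2⟩ := hadm i (Finset.mem_insert_of_mem hi)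
      exact ⟨a1, fun h => a2 (Finset.mem_insert_of_mem h)⟩
    obtain ⟨m1, v, g, hcase, hS, h1, hc, _⟩ := ih hadm'
    have hm2 := (hadm m (Finset.mem_insert_self _ _)).1
    have hgap : m1 + 2 ≤ m := by
      rcases h1 with ⟨_, h0⟩ | ⟨h0, _⟩
      · omega
      · have a1 := hmax m1 h0
        have a2 := (hadm m1 (Finset.mem_insert_of_mem h0)).2
        have a3 : m ≠ m1 + 1 := by
          intro h
          apply a2
          rw [← h]
          exact Finset.mem_insert_self _ _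
        omega
    have hex : Extra m (nextv m v) := by
      rcases hcase with ⟨h0, hv⟩ | ex
      · subst hv; exact extra_one m hm2
      · exact ex.next m1 v g m hgap
    refine ⟨m, nextv m v, g.next m hgap, Or.inr hex, ?_, Or.inr ⟨Finset.mem_insert_self _ _, by omega⟩, ?_, ?_⟩
    · intro x hx
      rcases Finset.mem_insert.mp hx with h | h
      · omega
      · exact (hmax x h).le
    · intro n hn _
      have hcard : (insert m S).card = S.card + 1 :=
        Finset.card_insert_of_notMem (fun h => lt_irrefl _ (hmax m h))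
      rw [hcard]
      exact count_step S m1 v g hcase hS h1 hc m (by omega) n hn
    · intro _ z hz
      refine ⟨norm_le m1 v g m hgap z hz, ?_⟩
      rcases hcase with ⟨h0, hv⟩ | ex
      · subst hv; exact re_ge_one m hm2 z hz
      · exact re_ge_of_extra m1 v g ex m hgap z hz

/-- the polynomial over the complex numbers attached to a sequence -/
noncomputable def bcPoly (k : ℕ) : Polynomial ℂ :=
  ∏ j ∈ range k, (Polynomial.C (1 / ((j : ℂ) + 1)) * (Polynomial.X - Polynomial.C (j : ℂ)))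

lemma bcPoly_eval (k : ℕ) (z : ℂ) : (bcPoly k).eval z = bc z k := by
  unfold bcPoly bc
  rw [Polynomial.eval_prod]
  apply Finset.prod_congr rfl
  intro j _
  simp
  ring

noncomputable def PPoly (m : ℕ) (v : ℕ → ℝ) : Polynomial ℂ :=
  ∑ i ∈ range m, Polynomial.C (D v i 0 : ℂ) * bcPoly i

lemma PPoly_eval (m : ℕ) (v : ℕ → ℝ) (z : ℂ) : (PPoly m v).eval z = P m v z := by
  unfold PPoly P
  rw [Polynomial.eval_finsetSum]
  apply Finset.sum_congr rfl
  intro i _
  rw [Polynomial.eval_mul, Polynomial.eval_C, bcPoly_eval]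

/-- values of `P` at large integers -/
lemma P_nat (m : ℕ) (v : ℕ → ℝ) (g : Good m v) (hm : 1 ≤ m) (n : ℕ) (hn : m ≤ n) :
    P m v (n : ℂ) = (v n : ℂ) := by
  have hv := newton v n 0
  rw [zero_add] at hv
  unfold P
  rw [hv]
  push_cast
  have hsub : range m ⊆ range (n + 1) := by
    intro x hx; simp at hx ⊢; omega
  rw [← Finset.sum_subset hsub]
  · apply Finset.sum_congr rfl
    intro i _
    rw [bc_nat]; ring
  · intro i _ hi
    have hi' : m ≤ i := by simpa using hi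
    rw [g.deg i 0 hi' (by omega)]; simp

/-- translation between the two descriptions of peak sets -/
lemma pk_iff (S : Finset ℕ) (n : ℕ) (π : Equiv.Perm (Fin n)) :
    (∀ j : Fin n, (j.val + 1 ∈ S ↔
                ∃ h : j.val + 1 < n, 0 < j.val ∧
                  π ⟨j.val - 1, lt_of_le_of_lt (Nat.sub_le j.val 1) j.isLt⟩ < π j ∧
                  π ⟨j.val + 1, h⟩ < π j)) ↔ PkSet S n (toN π) := by
  unfold PkSet isPk
  constructor
  · intro h j hj
    rw [h ⟨j, hj⟩]
    constructor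
    · rintro ⟨h1, h2, h3, h4⟩
      refine ⟨h2, h1, ?_, ?_⟩
      · rw [toN_lt _ _ (by omega), toN_lt _ _ hj]; exact h3
      · rw [toN_lt _ _ h1, toN_lt _ _ hj]; exact h4
    · rintro ⟨h1, h2, h3, h4⟩
      rw [toN_lt _ _ (by omega), toN_lt _ _ hj] at h3
      rw [toN_lt _ _ h2, toN_lt _ _ hj] at h4
      exact ⟨h2, h1, h3, h4⟩
  · intro h j
    rw [h j.val j.isLt]
    constructor
    · rintro ⟨h1, h2, h3, h4⟩
      rw [toN_lt _ _ (by omega), toN_lt _ _ j.isLt] at h3
      rw [toN_lt _ _ h2, toN_lt _ _ j.isLt] at h4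
      exact ⟨h2, h1, h3, h4⟩
    · rintro ⟨h1, h2, h3, h4⟩
      refine ⟨h2, h1, ?_, ?_⟩
      · rw [toN_lt _ _ (by omega), toN_lt _ _ j.isLt]; exact h3
      · rw [toN_lt _ _ h1, toN_lt _ _ j.isLt]; exact h4

theorem final (S : Finset ℕ) (hS : S.Nonempty)
    (hadm : ∀ i ∈ S, 2 ≤ i ∧ i + 1 ∉ S) (p : Polynomial ℂ)
    (hp : ∃ N : ℕ, ∀ n : ℕ, N ≤ n →
          ((Nat.card {π : Equiv.Perm (Fin n) //
              ∀ j : Fin n, (j.val + 1 ∈ S ↔
                ∃ h : j.val + 1 < n, 0 < j.val ∧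
                  π ⟨j.val - 1, lt_of_le_of_lt (Nat.sub_le j.val 1) j.isLt⟩ < π j ∧
                  π ⟨j.val + 1, h⟩ < π j)} : ℂ)
            = p.eval (n : ℂ) * 2 ^ (n - S.card - 1)))
    (z : ℂ) (hz : p.IsRoot z) : ‖z‖ ≤ (S.max' hS : ℝ) ∧ -3 ≤ z.re := by
  obtain ⟨m, v, g, _, hle, h1, hc, hzero⟩ := main_exists S hadm
  have hm : m ∈ S ∧ 1 ≤ m := by
    rcases h1 with ⟨h, _⟩ | h
    · exact absurd hS (by simp [h])
    · exact h
  have hmax : S.max' hS = m := by
    apply le_antisymm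
    · exact Finset.max'_le _ _ _ hle
    · exact Finset.le_max' _ _ hm.1
  obtain ⟨N, hN⟩ := hp
  have hpe : p = PPoly m v := by
    apply Polynomial.eq_of_infinite_eval_eq
    have hinf : (Set.range (fun k : ℕ => ((N + m + S.card + 1 + k : ℕ) : ℂ))).Infinite := by
      apply Set.infinite_range_of_injective
      intro a b hab
      have h2 : ((N + m + S.card + 1 + a : ℕ) : ℂ) = ((N + m + S.card + 1 + b : ℕ) : ℂ) := hab
      have : N + m + S.card + 1 + a = N + m + S.card + 1 + b := by exact_mod_cast h2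
      omega
    apply hinf.mono
    rintro _ ⟨k, rfl⟩
    set n := N + m + S.card + 1 + k with hn
    show p.eval ((n : ℕ) : ℂ) = (PPoly m v).eval ((n : ℕ) : ℂ)
    have e1 := hN n (by omega)
    have e2 := hc n (by omega) (by omega)
    have e3 : (Nat.card {π : Equiv.Perm (Fin n) //
              ∀ j : Fin n, (j.val + 1 ∈ S ↔
                ∃ h : j.val + 1 < n, 0 < j.val ∧
                  π ⟨j.val - 1, lt_of_le_of_lt (Nat.sub_le j.val 1) j.isLt⟩ < π j ∧
                  π ⟨j.val + 1, h⟩ < π j)}) = NP S n := by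
      unfold NP
      exact Nat.card_congr (Equiv.subtypeEquivRight (fun π => pk_iff S n π))
    rw [e3] at e1
    have e2C : (NP S n : ℂ) * 2 ^ (S.card + 1) = (v n : ℂ) * 2 ^ n := by
      exact_mod_cast e2
    rw [PPoly_eval, P_nat m v g hm.2 n (by omega)]
    have e4 : (2 : ℂ) ^ n = 2 ^ (n - S.card - 1) * 2 ^ (S.card + 1) := by
      rw [← pow_add]; congr 1; omega
    have e5 : (p.eval (n : ℂ)) * (2 : ℂ) ^ n = (v n : ℂ) * 2 ^ n := by
      rw [← e2C, e1]
      rw [e4]; ring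
    have e6 : (2 : ℂ) ^ n ≠ 0 := pow_ne_zero _ (by norm_num)
    exact mul_right_cancel₀ e6 e5
  have hroot : P m v z = 0 := by
    rw [← PPoly_eval, ← hpe]; exact hz
  rw [hmax]
  exact hzero hS z hroot

end Pool.Agent.H23.Peak
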