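import Mathlib
import Pool.Agent.H23.PeakMain

set_option autoImplicit false

namespace Pool.Agent.H23.PeakExt

open Pool.Agent.H23.Peak Finset Polynomial

lemma int_nextv (m : ℕ) (v : ℕ → ℝ) (h : ∀ n, ∃ k : ℤ, v n = k) (n : ℕ) :
    ∃ k : ℤ, nextv m v n = k := by
  choose f hf using h
  refine ⟨(∑ i ∈ range m, (-1) ^ (m + 1 + i) * f i * (n.choose i : ℤ)) - f n, ?_⟩
  unfold nextv
  push_cast
  rw [hf n]
  congr 1
  apply Finset.sum_congr rfl
  intro i _
  rw [hf i]

lemma int_D (v : ℕ → ℝ) (h : ∀ n, ∃ k : ℤ, v n = k) (j r : ℕ) : ∃ k : ℤ, D v j r = k := by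
  induction j generalizing r with
  | zero => exact h r
  | succ j ih =>
    obtain ⟨a, ha⟩ := ih (r + 1)
    obtain ⟨b, hb⟩ := ih r
    refine ⟨a - b, ?_⟩
    rw [D_succ, ha, hb]; push_cast; ring

/-- a zero on the circle `|z| = m` is the point `m` -/
theorem norm_lt (m1 : ℕ) (v : ℕ → ℝ) (g : Good m1 v) (m : ℕ) (hm : m1 + 2 ≤ m) (z : ℂ)
    (hz : P m (nextv m v) z = 0) (hne : z ≠ (m : ℂ)) : ‖z‖ < m := by
  obtain ⟨N, rfl⟩ : ∃ N, m = N + 2 := ⟨m - 2, by omega⟩
  by_contra hcon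
  push Not at hcon
  have hD : D v (N + 1) 0 = 0 := g.deg _ _ (by omega) (by omega)
  rw [P_nextv v N z hD] at hz
  have step0 : ‖z‖ ≥ (N : ℝ) + 2 := by push_cast at hcon; linarith
  have step : ∀ k, k < N → ((k : ℝ) + 2) < ‖z - N + k‖ := by
    intro k hk
    have h1 : z - N + k = z - ((N - k : ℕ) : ℂ) := by
      rw [Nat.cast_sub hk.le]; ring
    rw [h1]
    by_contra h2
    push Not at h2
    set t : ℝ := ((N - k : ℕ) : ℝ) with ht
    have ht' : t = (N : ℝ) - k := by rw [ht, Nat.cast_sub hk.le]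
    have htpos : 0 < t := by
      have : (k : ℝ) < N := by exact_mod_cast hk
      linarith
    have hk0 : (0 : ℝ) ≤ k := Nat.cast_nonneg k
    have e1 : ‖z - ((N - k : ℕ) : ℂ)‖ ^ 2 = ‖z‖ ^ 2 - 2 * t * z.re + t ^ 2 := by
      rw [← Complex.normSq_eq_norm_sq, ← Complex.normSq_eq_norm_sq, Complex.normSq_apply,
        Complex.normSq_apply]
      have a1 : (z - ((N - k : ℕ) : ℂ)).re = z.re - t := by simp [ht]
      have a2 : (z - ((N - k : ℕ) : ℂ)).im = z.im := by simp
      rw [a1, a2]; ring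
    have h3 : z.re ≤ ‖z‖ := Complex.re_le_norm z
    have h4 : ‖z - ((N - k : ℕ) : ℂ)‖ ^ 2 ≤ ((k : ℝ) + 2) ^ 2 := by
      apply pow_le_pow_left₀ (norm_nonneg _) h2
    have h5 : (‖z‖ - t) ^ 2 ≤ ((k : ℝ) + 2) ^ 2 := by
      have : (‖z‖ - t) ^ 2 = ‖z‖ ^ 2 - 2 * t * ‖z‖ + t ^ 2 := by ring
      rw [this]; nlinarith
    have h6 : (k : ℝ) + 2 ≤ ‖z‖ - t := by rw [ht']; linarith
    have h7 : ‖z‖ - t ≤ (k : ℝ) + 2 := by nlinarith
    have h8 : ‖z‖ = (N : ℝ) + 2 := by rw [ht'] at h7; linarith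
    have h9 : z.re = ‖z‖ := by
      rw [e1] at h4
      have h10 : ((k : ℝ) + 2) = ‖z‖ - t := le_antisymm h6 h7
      rw [h10] at h4
      have : 2 * t * ‖z‖ ≤ 2 * t * z.re := by nlinarith
      have : ‖z‖ ≤ z.re := le_of_mul_le_mul_left this (by positivity)
      exact le_antisymm h3 this
    apply hne
    have h11 : ‖z‖ ^ 2 = z.re ^ 2 + z.im ^ 2 := by
      rw [← Complex.normSq_eq_norm_sq, Complex.normSq_apply]; ring
    have h12 : z.im = 0 := by
      rw [h9] at h11
      have : z.im ^ 2 = 0 := by linarith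
      exact pow_eq_zero_iff (two_ne_zero) |>.mp this
    apply Complex.ext
    · rw [h9, h8]; simp
    · rw [h12]; simp
  have hpos : ∀ k, k ≤ N + 1 → 0 < ‖R (z - N) k‖ := by
    intro k
    induction k with
    | zero => intro _; simp [R_zero]
    | succ k ih =>
      intro hk
      rw [R_succ, norm_mul, norm_div]
      have h1 := ih (by omega)
      have h3 : (0 : ℝ) ≤ k := Nat.cast_nonneg k
      have h4 : 0 < ‖z - N + k‖ := by
        rcases Nat.lt_or_ge k N with h | h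
        · have h2 := step k h
          linarith
        · have : k = N := by omega
          subst this
          have e : z - (k : ℂ) + (k : ℂ) = z := by ring
          rw [e]; linarith
      have h5 : 0 < ‖((k : ℂ) + 1)‖ := norm_pos_iff.mpr (cast_succ_ne k)
      positivity
  have hid : ∀ k, ‖R (z - N) (k + 1)‖ * ((k : ℝ) + 1) = ‖R (z - N) k‖ * ‖z - N + k‖ := by
    intro k
    rw [R_succ, norm_mul, norm_div]
    have h5 : ‖((k : ℂ) + 1)‖ = (k : ℝ) + 1 := by
      have : ((k : ℂ) + 1) = ((k + 1 : ℕ) : ℂ) := by push_cast; ring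
      rw [this, Complex.norm_natCast]; push_cast; ring
    rw [h5]
    have h6 : (0 : ℝ) < (k : ℝ) + 1 := by positivity
    field_simp
  have hinc : ∀ k, k < N → ‖R (z - N) k‖ * ((k : ℝ) + 2) < ‖R (z - N) (k + 1)‖ * ((k : ℝ) + 1) := by
    intro k hk
    rw [hid k]
    exact mul_lt_mul_of_pos_left (step k hk) (hpos k (by omega))
  have hlast : ‖R (z - N) N‖ * ((N : ℝ) + 2) ≤ ‖R (z - N) (N + 1)‖ * ((N : ℝ) + 1) := by
    rw [hid N]
    have e : z - (N : ℂ) + (N : ℂ) = z := by ring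
    rw [e]
    exact mul_le_mul_of_nonneg_left step0 (hpos N (by omega)).le
  have hall : ∀ d k, k + (d + 1) = N →
      ‖R (z - N) k‖ * ((N : ℝ) + 2) < ‖R (z - N) (N + 1)‖ * ((k : ℝ) + 1) := by
    intro d
    induction d with
    | zero =>
      intro k hk
      have h2 := hinc k (by omega)
      have h1 := hlast
      have hkN : (N : ℝ) = k + 1 := by have : N = k + 1 := by omega
                                       rw [this]; push_cast; ring
      have eN : N = k + 1 := by omega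
      have e2 : ‖R (z - N) N‖ = ‖R (z - N) (k + 1)‖ := by rw [← eN]
      rw [e2] at h1
      rw [hkN] at h1 ⊢
      have hk0 : (0 : ℝ) ≤ k := Nat.cast_nonneg k
      have h3 : ‖R (z - N) k‖ * ((k : ℝ) + 2) * ((k : ℝ) + 1 + 2) <
          ‖R (z - N) (k + 1)‖ * ((k : ℝ) + 1) * ((k : ℝ) + 1 + 2) :=
        mul_lt_mul_of_pos_right h2 (by positivity)
      have h4 : ‖R (z - N) (k + 1)‖ * ((k : ℝ) + 1 + 2) * ((k : ℝ) + 1) ≤
          ‖R (z - N) (N + 1)‖ * ((k : ℝ) + 1 + 1) * ((k : ℝ) + 1) :=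
        mul_le_mul_of_nonneg_right h1 (by positivity)
      have h5 : (‖R (z - N) k‖ * ((k : ℝ) + 1 + 2)) * ((k : ℝ) + 2) <
          (‖R (z - N) (N + 1)‖ * ((k : ℝ) + 1)) * ((k : ℝ) + 2) := by nlinarith
      exact lt_of_mul_lt_mul_right h5 (by positivity)
    | succ d ih =>
      intro k hk
      have h1 := ih (k + 1) (by omega)
      have h2 := hinc k (by omega)
      push_cast at h1
      have hk0 : (0 : ℝ) ≤ k := Nat.cast_nonneg k
      have hN0 : (0 : ℝ) ≤ N := Nat.cast_nonneg N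
      have h3 : ‖R (z - N) k‖ * ((k : ℝ) + 2) * ((N : ℝ) + 2) <
          ‖R (z - N) (k + 1)‖ * ((k : ℝ) + 1) * ((N : ℝ) + 2) :=
        mul_lt_mul_of_pos_right h2 (by positivity)
      have h4 : ‖R (z - N) (k + 1)‖ * ((N : ℝ) + 2) * ((k : ℝ) + 1) <
          ‖R (z - N) (N + 1)‖ * ((k : ℝ) + 1 + 1) * ((k : ℝ) + 1) :=
        mul_lt_mul_of_pos_right h1 (by positivity)
      have h5 : (‖R (z - N) k‖ * ((N : ℝ) + 2)) * ((k : ℝ) + 2) <
          (‖R (z - N) (N + 1)‖ * ((k : ℝ) + 1)) * ((k : ℝ) + 2) := by nlinarith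
      exact lt_of_mul_lt_mul_right h5 (by positivity)
  have hallle : ∀ k, k ≤ N →
      ‖R (z - N) k‖ * ((N : ℝ) + 2) ≤ ‖R (z - N) (N + 1)‖ * ((k : ℝ) + 1) := by
    intro k hk
    rcases Nat.lt_or_ge k N with h | h
    · exact (hall (N - k - 1) k (by omega)).le
    · have : k = N := by omega
      subst this
      exact hlast
  set Dk : ℕ → ℝ := fun k => D v k (N - k) + D v (N - k) k with hDk
  have hDk0 : ∀ k, k ≤ N → 0 ≤ Dk k := by
    intro k hk
    have h1 := g.pos k (N - k) (by omega)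
    have h2 := g.pos (N - k) k (by omega)
    simp only [hDk]; linarith
  have hsum := sum_diag v N hD
  have hrefl : ∑ k ∈ range (N + 1), D v (N - k) k = v (N + 1) := by
    rw [← hsum, ← Finset.sum_range_reflect]
    apply Finset.sum_congr rfl
    intro k hk
    have hk' : k ≤ N := by simp at hk; omega
    have e1 : N + 1 - 1 - k = N - k := by omega
    have e2 : N - (N - k) = k := by omega
    rw [e1, e2]
  have hrefl2 : ∑ k ∈ range (N + 1), ((k : ℝ) + 1) * D v (N - k) k =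
      ∑ k ∈ range (N + 1), ((N : ℝ) - k + 1) * D v k (N - k) := by
    rw [← Finset.sum_range_reflect]
    apply Finset.sum_congr rfl
    intro k hk
    have hk' : k ≤ N := by simp at hk; omega
    have e1 : N + 1 - 1 - k = N - k := by omega
    have e2 : N - (N - k) = k := by omega
    rw [e1, e2, Nat.cast_sub hk']
  have hweighted : ∑ k ∈ range (N + 1), ((k : ℝ) + 1) * Dk k = ((N : ℝ) + 2) * v (N + 1) := by
    have : ∑ k ∈ range (N + 1), ((k : ℝ) + 1) * Dk k =
        ∑ k ∈ range (N + 1), ((k : ℝ) + 1) * D v k (N - k)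
        + ∑ k ∈ range (N + 1), ((k : ℝ) + 1) * D v (N - k) k := by
      rw [← Finset.sum_add_distrib]
      apply Finset.sum_congr rfl
      intro k _
      simp only [hDk]; ring
    rw [this, hrefl2, ← Finset.sum_add_distrib, ← hsum, Finset.mul_sum]
    apply Finset.sum_congr rfl
    intro k _
    ring
  have htot : ∑ k ∈ range (N + 1), Dk k = 2 * v (N + 1) := by
    have : ∑ k ∈ range (N + 1), Dk k =
        ∑ k ∈ range (N + 1), D v k (N - k) + ∑ k ∈ range (N + 1), D v (N - k) k := by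
      rw [← Finset.sum_add_distrib]
    rw [this, hsum, hrefl]; ring
  have hvpos : 0 < v (N + 1) := g.val_pos _ (by omega)
  have hEq : (v (N + 1) : ℂ) * bc z (N + 1) =
      ∑ k ∈ range (N + 1), ((Dk k : ℝ) : ℂ) * R (z - N) k := by
    have := sub_eq_zero.mp hz
    simpa [hDk] using this
  rcases Nat.eq_zero_or_pos N with hN | hN
  · subst hN
    apply hne
    rw [Finset.sum_range_one, bc_succ, bc_zero, R_zero] at hEq
    rw [Finset.sum_range_one] at htot
    rw [htot] at hEq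
    have hv0 : (v (0 + 1) : ℂ) ≠ 0 := by exact_mod_cast hvpos.ne'
    push_cast at hEq
    have h1 : (v (0 + 1) : ℂ) * z = (v (0 + 1) : ℂ) * 2 := by
      simp only [sub_zero, zero_add, div_one, one_mul, mul_one] at hEq ⊢
      rw [hEq]; ring
    have h2 := mul_left_cancel₀ hv0 h1
    rw [h2]; push_cast; ring
  have hsym : ∀ k, k ≤ N → Dk k = Dk (N - k) := by
    intro k hk
    simp only [hDk]
    have e2 : N - (N - k) = k := by omega
    rw [e2]; ring
  obtain ⟨k0, hk0, hk0pos⟩ : ∃ k, k < N ∧ 0 < Dk k := by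
    obtain ⟨k0, hk0, hk0pos⟩ : ∃ k ∈ range (N + 1), 0 < Dk k := by
      by_contra hno
      push Not at hno
      have : ∑ k ∈ range (N + 1), Dk k ≤ 0 := Finset.sum_nonpos hno
      linarith
    have hk' : k0 ≤ N := by simp at hk0; omega
    rcases Nat.lt_or_ge k0 N with h | h
    · exact ⟨k0, h, hk0pos⟩
    · refine ⟨N - k0, by omega, ?_⟩
      rw [← hsym k0 hk']; exact hk0pos
  have hlt : ∑ k ∈ range (N + 1), Dk k * (‖R (z - N) k‖ * ((N : ℝ) + 2)) <
      ∑ k ∈ range (N + 1), Dk k * (‖R (z - N) (N + 1)‖ * ((k : ℝ) + 1)) := by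
    apply Finset.sum_lt_sum
    · intro k hk
      have hk' : k ≤ N := by simp at hk; omega
      exact mul_le_mul_of_nonneg_left (hallle k hk') (hDk0 k hk')
    · refine ⟨k0, by simp; omega, ?_⟩
      exact mul_lt_mul_of_pos_left (hall (N - k0 - 1) k0 (by omega)) hk0pos
  have hL : ∑ k ∈ range (N + 1), Dk k * (‖R (z - N) k‖ * ((N : ℝ) + 2)) =
      ((N : ℝ) + 2) * ∑ k ∈ range (N + 1), Dk k * ‖R (z - N) k‖ := by
    rw [Finset.mul_sum]
    apply Finset.sum_congr rfl
    intro k _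
    ring
  have hR : ∑ k ∈ range (N + 1), Dk k * (‖R (z - N) (N + 1)‖ * ((k : ℝ) + 1)) =
      ‖R (z - N) (N + 1)‖ * (((N : ℝ) + 2) * v (N + 1)) := by
    rw [← hweighted, Finset.mul_sum]
    apply Finset.sum_congr rfl
    intro k _
    ring
  rw [hL, hR] at hlt
  have hN2 : (0 : ℝ) < (N : ℝ) + 2 := by positivity
  have hfin : ∑ k ∈ range (N + 1), Dk k * ‖R (z - N) k‖ < v (N + 1) * ‖R (z - N) (N + 1)‖ := by
    have : ((N : ℝ) + 2) * ∑ k ∈ range (N + 1), Dk k * ‖R (z - N) k‖ <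
        ((N : ℝ) + 2) * (v (N + 1) * ‖R (z - N) (N + 1)‖) := by
      calc _ < _ := hlt
        _ = _ := by ring
    exact lt_of_mul_lt_mul_left this hN2.le
  rw [← R_eq_bc] at hEq
  have hn : ‖(v (N + 1) : ℂ) * R (z - N) (N + 1)‖ = v (N + 1) * ‖R (z - N) (N + 1)‖ := by
    rw [norm_mul, Complex.norm_real, Real.norm_of_nonneg hvpos.le]
  have hle : ‖∑ k ∈ range (N + 1), ((Dk k : ℝ) : ℂ) * R (z - N) k‖ ≤
      ∑ k ∈ range (N + 1), Dk k * ‖R (z - N) k‖ := by
    refine le_trans (norm_sum_le _ _) (Finset.sum_le_sum ?_)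
    intro k hk
    have hk' : k ≤ N := by simp at hk; omega
    rw [norm_mul, Complex.norm_real, Real.norm_of_nonneg (hDk0 k hk')]
  rw [← hEq, hn] at hle
  linarith

theorem exists_all (S : Finset ℕ) (hadm : ∀ i ∈ S, 2 ≤ i ∧ i + 1 ∉ S) :
    ∃ (m1 : ℕ) (v : ℕ → ℝ), Good m1 v ∧ Case m1 v ∧ (∀ x ∈ S, x ≤ m1) ∧
      ((S = ∅ ∧ m1 = 0) ∨ (m1 ∈ S ∧ 1 ≤ m1)) ∧
      (∀ n, m1 ≤ n → 1 ≤ n → (NP S n : ℝ) * 2 ^ (S.card + 1) = v n * 2 ^ n) ∧
      (S.Nonempty → ∀ z : ℂ, P m1 v z = 0 → (z ≠ (m1 : ℂ) → ‖z‖ < m1) ∧ -3 ≤ z.re) ∧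
      (∀ n, ∃ k : ℤ, v n = k) ∧ (S.Nonempty → 0 < D v (m1 - 1) 0) := by
  induction S using Finset.induction_on_max with
  | empty =>
    refine ⟨0, fun _ => 1, good_zero, Or.inl ⟨rfl, rfl⟩, by simp, Or.inl ⟨rfl, rfl⟩, ?_, ?_, ?_, ?_⟩
    · intro n _ hn
      have h : (2 : ℝ) * (NP ∅ n : ℝ) = 2 ^ n := by exact_mod_cast NP_empty n hn
      simp only [Finset.card_empty, zero_add, pow_one, one_mul]
      linarith
    · intro h; exact absurd h (by simp)
    · intro n; exact ⟨1, by simp⟩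
    · intro h; exact absurd h (by simp)
  | insert m S hmax ih =>
    have hadm' : ∀ i ∈ S, 2 ≤ i ∧ i + 1 ∉ S := by
      intro i hi
      obtain ⟨a1, a2⟩ := hadm i (Finset.mem_insert_of_mem hi)
      exact ⟨a1, fun h => a2 (Finset.mem_insert_of_mem h)⟩
    obtain ⟨m1, v, g, hcase, hS, h1, hc, _, hint, _⟩ := ih hadm'
    have hm2 := (hadm m (Finset.mem_insert_self _ _)).1
    have hgap : m1 + 2 ≤ m := by
      rcases h1 with ⟨_, h0⟩ | ⟨h0, _⟩
      · omega
      · have a1 := hmax m1 h0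
        have a2 := (hadm m1 (Finset.mem_insert_of_mem h0)).2
        have a3 : m ≠ m1 + 1 := by
          intro h
          apply a2
          rw [← h]
          exact Finset.mem_insert_self _ _
        omega
    have hex : Extra m (nextv m v) := by
      rcases hcase with ⟨h0, hv⟩ | ex
      · subst hv; exact extra_one m hm2
      · exact ex.next m1 v g m hgap
    refine ⟨m, nextv m v, g.next m hgap, Or.inr hex, ?_, Or.inr ⟨Finset.mem_insert_self _ _, by omega⟩,
      ?_, ?_, int_nextv m v hint, ?_⟩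
    · intro x hx
      rcases Finset.mem_insert.mp hx with h | h
      · omega
      · exact (hmax x h).le
    · intro n hn _
      have hcard : (insert m S).card = S.card + 1 :=
        Finset.card_insert_of_notMem (fun h => lt_irrefl _ (hmax m h))
      rw [hcard]
      exact count_step S m1 v g hcase hS h1 hc m (by omega) n hn
    · intro _ z hz
      refine ⟨norm_lt m1 v g m hgap z hz, ?_⟩
      rcases hcase with ⟨h0, hv⟩ | ex
      · subst hv; exact re_ge_one m hm2 z hz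
      · exact re_ge_of_extra m1 v g ex m hgap z hz
    · intro _
      rw [D_nextv_zero m v (m - 1) (by omega), g.deg (m - 1) 0 (by omega) (by omega)]
      have h5 := g.val_pos (m - 1) (by omega)
      have e : (-1 : ℝ) ^ (m + 1 + (m - 1)) = 1 := by
        rw [show m + 1 + (m - 1) = 2 * m by omega, pow_mul]; simp
      rw [e]; linarith

/-- `x choose k` as a rational polynomial -/
noncomputable def bcQ (k : ℕ) : ℚ[X] :=
  ∏ j ∈ range k, (C (1 / ((j : ℚ) + 1)) * (X - C (j : ℚ)))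

lemma bcQ_map (k : ℕ) : (bcQ k).map (algebraMap ℚ ℂ) = bcPoly k := by
  unfold bcQ bcPoly
  rw [Polynomial.map_prod]
  apply Finset.prod_congr rfl
  intro j _
  simp

lemma bcQ_fac_ne (j : ℕ) : (C (1 / ((j : ℚ) + 1)) * (X - C (j : ℚ)) : ℚ[X]) ≠ 0 := by
  apply mul_ne_zero
  · rw [Ne, C_eq_zero]; positivity
  · exact X_sub_C_ne_zero _

lemma bcQ_natDegree (k : ℕ) : (bcQ k).natDegree = k := by
  unfold bcQ
  rw [natDegree_prod _ _ (fun j _ => bcQ_fac_ne j)]
  have : ∀ j ∈ range k, (C (1 / ((j : ℚ) + 1)) * (X - C (j : ℚ)) : ℚ[X]).natDegree = 1 := by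
    intro j _
    rw [natDegree_C_mul (by positivity), natDegree_X_sub_C]
  rw [Finset.sum_congr rfl this]; simp

end Pool.Agent.H23.PeakExt
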