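import Mathlib

set_option autoImplicit false

namespace Pool.Agent.H23.TS

/-- `F` and `G` are cross-`(t,s)` families of subsets of an `n`-element set:
`|A ∩ B| ≥ t` and `|A ∪ B| ≤ n - s` for all `A ∈ F`, `B ∈ G`. -/
def CrossTS (n t s : ℕ) (F G : Finset (Finset (Fin n))) : Prop :=
  ∀ A ∈ F, ∀ B ∈ G, t ≤ (A ∩ B).card ∧ (A ∪ B).card + s ≤ n

/-- `F` is a `(t,s)`-family: `|A ∩ B| ≥ t` and `|A ∪ B| ≤ n - s` for all `A, B ∈ F`. -/
def IsTSFamily (n t s : ℕ) (F : Finset (Finset (Fin n))) : Prop :=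
  ∀ A ∈ F, ∀ B ∈ F, t ≤ (A ∩ B).card ∧ (A ∪ B).card + s ≤ n

/-- `m(n,t,s)`: the maximum size of a `(t,s)`-family. -/
noncomputable def mTS (n t s : ℕ) : ℕ :=
  sSup {k : ℕ | ∃ F : Finset (Finset (Fin n)), IsTSFamily n t s F ∧ F.card = k}

lemma mTS_bdd (n t s : ℕ) :
    BddAbove {k : ℕ | ∃ F : Finset (Finset (Fin n)), IsTSFamily n t s F ∧ F.card = k} := by
  refine ⟨Fintype.card (Finset (Fin n)), ?_⟩
  rintro k ⟨F, _, rfl⟩
  exact Finset.card_le_univ F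

lemma le_mTS {n t s : ℕ} (F : Finset (Finset (Fin n))) (h : IsTSFamily n t s F) : F.card ≤ mTS n t s :=
  le_csSup (mTS_bdd n t s) ⟨F, h, rfl⟩

lemma mTS_attained (n t s : ℕ) : ∃ F : Finset (Finset (Fin n)), IsTSFamily n t s F ∧ F.card = mTS n t s := by
  have hne : {k : ℕ | ∃ F : Finset (Finset (Fin n)), IsTSFamily n t s F ∧ F.card = k}.Nonempty :=
    ⟨0, ∅, by intro A hA; simp at hA, rfl⟩
  exact Nat.sSup_mem hne (mTS_bdd n t s)

end Pool.Agent.H23.TS
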