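import Mathlib
import Pool.Agent.H23.TSDefs

set_option autoImplicit false

namespace Pool.Agent.H23.TS

open Finset

/-- subsets of size at most `j` -/
def small (n j : ℕ) : Finset (Finset (Fin n)) := univ.filter (fun C => C.card ≤ j)

lemma card_small_le (n j : ℕ) (hn : 1 ≤ n) : (small n j).card ≤ (j + 1) * n ^ j := by
  have h : small n j ⊆ (range (j + 1)).biUnion (fun i => powersetCard i univ) := by
    intro C hC
    simp only [small, mem_filter, mem_univ, true_and] at hC
    rw [mem_biUnion]
    refine ⟨C.card, by simp; omega, ?_⟩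
    rw [mem_powersetCard]
    exact ⟨subset_univ _, rfl⟩
  refine le_trans (card_le_card h) (le_trans card_biUnion_le ?_)
  have : ∀ i ∈ range (j + 1), (powersetCard i (univ : Finset (Fin n))).card ≤ n ^ j := by
    intro i hi
    rw [card_powersetCard, card_univ, Fintype.card_fin]
    refine le_trans (Nat.choose_le_pow n i) ?_
    exact Nat.pow_le_pow_right hn (by simp at hi; omega)
  refine le_trans (sum_le_sum this) ?_
  simp

/-- bound for families of bounded diameter -/
lemma diam_bound (n j : ℕ) (H : Finset (Finset (Fin n)))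
    (hH : ∀ A ∈ H, ∀ B ∈ H, (symmDiff A B).card ≤ 2 * j + 1) :
    H.card ≤ 4 ^ (j + 1) * (small n j).card := by
  classical
  rcases H.eq_empty_or_nonempty with h0 | ⟨A0, hA0⟩
  · rw [h0]; simp
  -- levels
  have hlev : ∀ r ∈ range (2 * j + 2), (H.filter (fun B => (symmDiff B A0).card = r)).card ≤
      2 ^ r * (small n j).card := by
    intro r _
    rcases (H.filter (fun B => (symmDiff B A0).card = r)).eq_empty_or_nonempty with h1 | ⟨Br, hBr⟩
    · rw [h1]; simp
    rw [mem_filter] at hBr
    set X := symmDiff Br A0 with hX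
    have hinj : Set.InjOn (fun B => (symmDiff B A0 ∩ X, symmDiff B A0 \ X))
        (H.filter (fun B => (symmDiff B A0).card = r) : Set (Finset (Fin n))) := by
      intro B _ B' _ h
      simp only [Prod.mk.injEq] at h
      have e : symmDiff B A0 = symmDiff B' A0 := by
        rw [← Finset.sdiff_union_inter (symmDiff B A0) X, ← Finset.sdiff_union_inter (symmDiff B' A0) X,
          h.1, h.2]
      have := congrArg (fun Y => symmDiff Y A0) e
      simpa [symmDiff_assoc] using this
    have hmaps : ∀ B ∈ H.filter (fun B => (symmDiff B A0).card = r),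
        (symmDiff B A0 ∩ X, symmDiff B A0 \ X) ∈ X.powerset ×ˢ small n j := by
      intro B hB
      rw [mem_filter] at hB
      rw [mem_product]
      constructor
      · rw [mem_powerset]; exact inter_subset_right
      · simp only [small, mem_filter, mem_univ, true_and]
        have h1 : (symmDiff (symmDiff B A0) X).card ≤ 2 * j + 1 := by
          have e : symmDiff (symmDiff B A0) X = symmDiff B Br := by
            rw [hX, symmDiff_assoc, symmDiff_comm Br A0, ← symmDiff_assoc A0 A0 Br, symmDiff_self,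
              bot_symmDiff]
          rw [e]
          exact hH B hB.1 Br hBr.1
        have h2 : (symmDiff (symmDiff B A0) X).card =
            (symmDiff B A0 \ X).card + (X \ symmDiff B A0).card := by
          rw [symmDiff_def (symmDiff B A0) X, sup_eq_union, card_union_of_disjoint]
          exact disjoint_sdiff_sdiff
        have h3 : (symmDiff B A0 \ X).card + (symmDiff B A0 ∩ X).card = r := by
          rw [card_sdiff_add_card_inter]; exact hB.2
        have h4 : (X \ symmDiff B A0).card + (symmDiff B A0 ∩ X).card = r := by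
          rw [inter_comm, card_sdiff_add_card_inter]; exact hBr.2
        omega
    have := card_le_card_of_injOn _ hmaps hinj
    rw [card_product, card_powerset] at this
    rw [hBr.2] at this
    exact this
  have hcover : H ⊆ (range (2 * j + 2)).biUnion (fun r => H.filter (fun B => (symmDiff B A0).card = r)) := by
    intro B hB
    rw [mem_biUnion]
    refine ⟨(symmDiff B A0).card, ?_, ?_⟩
    · have := hH B hB A0 hA0
      simp; omega
    · rw [mem_filter]; exact ⟨hB, rfl⟩
  refine le_trans (card_le_card hcover) (le_trans card_biUnion_le (le_trans (sum_le_sum hlev) ?_))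
  rw [← sum_mul]
  apply Nat.mul_le_mul_right
  have h5 : ∑ i ∈ range (2 * j + 2), 2 ^ i = 2 ^ (2 * j + 2) - 1 := by
    have := Nat.geomSum_eq (le_refl 2) (2 * j + 2)
    simpa using this
  rw [h5]
  have : (4 : ℕ) ^ (j + 1) = 2 ^ (2 * j + 2) := by
    rw [show (4 : ℕ) = 2 ^ 2 by norm_num, ← pow_mul]; ring_nf
  rw [this]
  exact Nat.sub_le _ _

lemma mTS_le (n t s j : ℕ) (hn : n = t + s + (2 * j + 1)) :
    mTS n t s ≤ 4 ^ (j + 1) * ((j + 1) * n ^ j) := by
  classical
  obtain ⟨H, hH, hc⟩ := mTS_attained n t s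
  rw [← hc]
  refine le_trans (diam_bound n j H ?_) (Nat.mul_le_mul_left _ (card_small_le n j (by omega)))
  intro A hA B hB
  obtain ⟨h1, h2⟩ := hH A hA B hB
  have h3 : (symmDiff A B).card + (A ∩ B).card = (A ∪ B).card := by
    have e : A ∪ B = symmDiff A B ∪ (A ∩ B) := by
      ext x; simp only [mem_union, mem_inter, mem_symmDiff]; tauto
    rw [e, card_union_of_disjoint]
    rw [disjoint_left]
    intro x hx hx'
    rw [mem_symmDiff] at hx
    rw [mem_inter] at hx'
    tauto
  omega

/-- the sets `A \ X` with `X` a small subset of `A` -/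
lemma cross_exists (n t s j a : ℕ) (ha : a = t + (2 * j + 1)) (hn : n = a + s) :
    ∃ F G : Finset (Finset (Fin n)), CrossTS n t s F G ∧ a.choose j ≤ F.card ∧ a.choose (j + 1) ≤ G.card := by
  classical
  obtain ⟨A, _, hA⟩ := exists_subset_card_eq (show a ≤ (univ : Finset (Fin n)).card by simp; omega)
  refine ⟨(powersetCard j A).image (fun X => A \ X), (powersetCard (j + 1) A).image (fun X => A \ X), ?_, ?_, ?_⟩
  · intro B hB C hC
    rw [mem_image] at hB hC
    obtain ⟨X, hX, rfl⟩ := hB
    obtain ⟨Y, hY, rfl⟩ := hC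
    rw [mem_powersetCard] at hX hY
    constructor
    · have e : (A \ X) ∩ (A \ Y) = A \ (X ∪ Y) := by
        ext x; simp only [mem_inter, mem_sdiff, mem_union]; tauto
      rw [e]
      have h1 := le_card_sdiff (X ∪ Y) A
      have h2 := card_union_le X Y
      omega
    · have h1 : (A \ X) ∪ (A \ Y) ⊆ A := union_subset sdiff_subset sdiff_subset
      have h2 := card_le_card h1
      omega
  · rw [card_image_of_injOn, card_powersetCard, hA]
    intro X hX Y hY h
    rw [mem_coe, mem_powersetCard] at hX hY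
    simp only at h
    rw [← Finset.sdiff_sdiff_eq_self hX.1, ← Finset.sdiff_sdiff_eq_self hY.1, h]
  · rw [card_image_of_injOn, card_powersetCard, hA]
    intro X hX Y hY h
    rw [mem_coe, mem_powersetCard] at hX hY
    simp only at h
    rw [← Finset.sdiff_sdiff_eq_self hX.1, ← Finset.sdiff_sdiff_eq_self hY.1, h]

/-- complementation exchanges `t` and `s` -/
lemma cross_compl (n t s : ℕ) (F G : Finset (Finset (Fin n))) (h : CrossTS n t s F G) :
    CrossTS n s t (F.image compl) (G.image compl) := by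
  intro A hA B hB
  rw [mem_image] at hA hB
  obtain ⟨A', hA', rfl⟩ := hA
  obtain ⟨B', hB', rfl⟩ := hB
  obtain ⟨h1, h2⟩ := h A' hA' B' hB'
  have e1 : A'ᶜ ∩ B'ᶜ = (A' ∪ B')ᶜ := by rw [compl_union]
  have e2 : A'ᶜ ∪ B'ᶜ = (A' ∩ B')ᶜ := by rw [compl_inter]
  rw [e1, e2, card_compl, card_compl, Fintype.card_fin]
  have h3 : (A' ∩ B').card ≤ n := by simpa using card_le_univ (A' ∩ B')
  constructor <;> omega

lemma cross_big (n t s j : ℕ) (hn : n = t + s + (2 * j + 1)) :
    ∃ a, n ≤ 2 * a ∧ ∃ F G : Finset (Finset (Fin n)), CrossTS n t s F G ∧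
      a.choose j ≤ F.card ∧ a.choose (j + 1) ≤ G.card := by
  classical
  rcases le_total s t with h | h
  · refine ⟨t + (2 * j + 1), by omega, cross_exists n t s j _ rfl (by omega)⟩
  · obtain ⟨F, G, h1, h2, h3⟩ := cross_exists n s t j (s + (2 * j + 1)) rfl (by omega)
    refine ⟨s + (2 * j + 1), by omega, F.image compl, G.image compl, cross_compl n s t F G h1, ?_, ?_⟩
    · rwa [card_image_of_injective _ compl_injective]
    · rwa [card_image_of_injective _ compl_injective]

theorem odd_gap (j C : ℕ) : ∃ T : ℕ, ∀ t s : ℕ, T ≤ t + s →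
    ∃ F G : Finset (Finset (Fin (t + s + (2 * j + 1)))),
      CrossTS (t + s + (2 * j + 1)) t s F G ∧
      C * mTS (t + s + (2 * j + 1)) t s ^ 2 < F.card * G.card := by
  set D : ℕ := j.factorial * (j + 1).factorial with hD
  set Kc : ℕ := C * (4 ^ (j + 1) * (j + 1)) ^ 2 * D * 4 ^ (2 * j + 1) with hK
  refine ⟨Kc + 4 * j + 4, ?_⟩
  intro t s hts
  set n := t + s + (2 * j + 1) with hn
  obtain ⟨a, ha, F, G, h1, h2, h3⟩ := cross_big n t s j hn
  refine ⟨F, G, h1, ?_⟩
  have hm := mTS_le n t s j hn
  have hDpos : 0 < D := by positivity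
  -- lower bound for the product
  have l1 : (a + 1 - j) ^ j ≤ j.factorial * a.choose j := by
    have := Nat.pow_sub_le_descFactorial a j
    rwa [Nat.descFactorial_eq_factorial_mul_choose] at this
  have l2 : (a + 1 - (j + 1)) ^ (j + 1) ≤ (j + 1).factorial * a.choose (j + 1) := by
    have := Nat.pow_sub_le_descFactorial a (j + 1)
    rwa [Nat.descFactorial_eq_factorial_mul_choose] at this
  have l3 : (a - j) ^ (2 * j + 1) ≤ D * (F.card * G.card) := by
    have e1 : (a - j) ^ (2 * j + 1) = (a - j) ^ j * (a - j) ^ (j + 1) := by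
      rw [← pow_add]; congr 1; ring
    have e2 : (a - j) ^ j ≤ (a + 1 - j) ^ j := Nat.pow_le_pow_left (by omega) _
    have e3 : (a - j) ^ (j + 1) = (a + 1 - (j + 1)) ^ (j + 1) := by
      congr 1; omega
    rw [e1, e3]
    calc (a - j) ^ j * (a + 1 - (j + 1)) ^ (j + 1)
        ≤ (j.factorial * a.choose j) * ((j + 1).factorial * a.choose (j + 1)) :=
          Nat.mul_le_mul (le_trans e2 l1) l2
      _ ≤ (j.factorial * F.card) * ((j + 1).factorial * G.card) :=
          Nat.mul_le_mul (Nat.mul_le_mul_left _ h2) (Nat.mul_le_mul_left _ h3)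
      _ = D * (F.card * G.card) := by rw [hD]; ring
  have l4 : n ^ (2 * j + 1) ≤ 4 ^ (2 * j + 1) * (a - j) ^ (2 * j + 1) := by
    rw [← mul_pow]
    exact Nat.pow_le_pow_left (by omega) _
  -- upper bound for the right-hand side
  have u1 : D * 4 ^ (2 * j + 1) * (C * mTS n t s ^ 2) ≤ Kc * n ^ (2 * j) := by
    have : mTS n t s ^ 2 ≤ (4 ^ (j + 1) * (j + 1)) ^ 2 * n ^ (2 * j) := by
      calc mTS n t s ^ 2 ≤ (4 ^ (j + 1) * ((j + 1) * n ^ j)) ^ 2 := Nat.pow_le_pow_left hm 2
        _ = (4 ^ (j + 1) * (j + 1)) ^ 2 * n ^ (2 * j) := by ring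
    calc D * 4 ^ (2 * j + 1) * (C * mTS n t s ^ 2)
        ≤ D * 4 ^ (2 * j + 1) * (C * ((4 ^ (j + 1) * (j + 1)) ^ 2 * n ^ (2 * j))) := by
          gcongr
      _ = Kc * n ^ (2 * j) := by rw [hK]; ring
  have hnpos : 0 < n := by omega
  have u2 : Kc * n ^ (2 * j) < n ^ (2 * j + 1) := by
    rw [pow_succ n (2 * j), mul_comm]
    exact Nat.mul_lt_mul_of_pos_left (by omega) (by positivity)
  have fin : D * 4 ^ (2 * j + 1) * (C * mTS n t s ^ 2) < D * 4 ^ (2 * j + 1) * (F.card * G.card) := by
    calc _ ≤ Kc * n ^ (2 * j) := u1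
      _ < n ^ (2 * j + 1) := u2
      _ ≤ 4 ^ (2 * j + 1) * (a - j) ^ (2 * j + 1) := l4
      _ ≤ 4 ^ (2 * j + 1) * (D * (F.card * G.card)) := Nat.mul_le_mul_left _ l3
      _ = _ := by ring
  exact Nat.lt_of_mul_lt_mul_left fin

end Pool.Agent.H23.TS
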