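import Mathlib
import Pool.Agent.H23.TSDefs

set_option autoImplicit false

namespace Pool.Agent.H23.TS

open Finset

lemma cross_symm {n t s : ℕ} {F G : Finset (Finset (Fin n))} (h : CrossTS n t s F G) :
    CrossTS n t s G F := by
  intro A hA B hB
  have := h B hB A hA
  rwa [inter_comm, union_comm]

/-- sizes in the case `n = t + s + 1` -/
lemma one_sizes {t s : ℕ} {A B : Finset (Fin (t + s + 1))}
    (h : t ≤ (A ∩ B).card ∧ (A ∪ B).card + s ≤ t + s + 1) : A.card = t ∨ A.card = t + 1 := by
  have h1 := card_le_card (inter_subset_left : A ∩ B ⊆ A)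
  have h2 := card_le_card (subset_union_left : A ⊆ A ∪ B)
  omega

lemma one_tt {t s : ℕ} {A B : Finset (Fin (t + s + 1))}
    (h : t ≤ (A ∩ B).card ∧ (A ∪ B).card + s ≤ t + s + 1) (hA : A.card = t) (hB : B.card = t) :
    A = B := by
  have e1 : A ∩ B = A := eq_of_subset_of_card_le inter_subset_left (by omega)
  have e2 : A ∩ B = B := eq_of_subset_of_card_le inter_subset_right (by omega)
  rw [← e1, e2]

lemma one_uu {t s : ℕ} {A B : Finset (Fin (t + s + 1))}
    (h : t ≤ (A ∩ B).card ∧ (A ∪ B).card + s ≤ t + s + 1) (hA : A.card = t + 1)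
    (hB : B.card = t + 1) : A = B := by
  have e1 : A = A ∪ B := eq_of_subset_of_card_le subset_union_left (by omega)
  have e2 : B = A ∪ B := eq_of_subset_of_card_le subset_union_right (by omega)
  rw [e1, ← e2]

lemma one_tu {t s : ℕ} {A B : Finset (Fin (t + s + 1))}
    (h : t ≤ (A ∩ B).card ∧ (A ∪ B).card + s ≤ t + s + 1) (hA : A.card = t) : A ⊆ B := by
  have e1 : A ∩ B = A := eq_of_subset_of_card_le inter_subset_left (by omega)
  rw [← e1]; exact inter_subset_right

/-- if `G` has at least two members then `F` has at most one of each size -/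
lemma one_two {t s : ℕ} {F G : Finset (Finset (Fin (t + s + 1)))} (h : CrossTS (t + s + 1) t s F G)
    (hG : 2 ≤ G.card) {A1 A2 : Finset (Fin (t + s + 1))} (h1 : A1 ∈ F) (h2 : A2 ∈ F)
    (hc : A1.card = A2.card) : A1 = A2 := by
  by_contra hne
  obtain ⟨B1, hB1, B2, hB2, hB⟩ := one_lt_card.mp (by omega : 1 < G.card)
  apply hB
  have s1 := one_sizes (h A1 h1 B1 hB1)
  rcases s1 with s1 | s1
  · -- both of size t
    have key : ∀ B ∈ G, B = A1 ∪ A2 := by
      intro B hBG
      have c1 := h A1 h1 B hBG
      have c2 := h A2 h2 B hBG
      have t1 := one_tu c1 s1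
      have t2 := one_tu c2 (hc ▸ s1)
      have hsub : A1 ∪ A2 ⊆ B := union_subset t1 t2
      have hlt : t < (A1 ∪ A2).card := by
        refine lt_of_eq_of_lt s1.symm ?_
        apply card_lt_card
        rw [Finset.ssubset_iff_subset_ne]
        refine ⟨subset_union_left, ?_⟩
        intro e
        apply hne
        symm
        apply eq_of_subset_of_card_le
        · rw [e]; exact subset_union_right
        · omega
      have hle : B.card ≤ t + 1 := by
        have := card_le_card (subset_union_right : B ⊆ A1 ∪ B)
        omega
      exact (eq_of_subset_of_card_le hsub (by omega)).symm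
    rw [key B1 hB1, key B2 hB2]
  · have key : ∀ B ∈ G, B = A1 ∩ A2 := by
      intro B hBG
      have c1 := h A1 h1 B hBG
      have c2 := h A2 h2 B hBG
      have hB1' : B ⊆ A1 := by
        have e : A1 = A1 ∪ B := eq_of_subset_of_card_le subset_union_left (by omega)
        rw [e]; exact subset_union_right
      have hB2' : B ⊆ A2 := by
        have e : A2 = A2 ∪ B := eq_of_subset_of_card_le subset_union_left (by omega)
        rw [e]; exact subset_union_right
      have hsub : B ⊆ A1 ∩ A2 := subset_inter hB1' hB2'
      have hlt : (A1 ∩ A2).card < t + 1 := by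
        rw [← s1]
        apply card_lt_card
        rw [Finset.ssubset_iff_subset_ne]
        refine ⟨inter_subset_left, ?_⟩
        intro e
        apply hne
        apply eq_of_subset_of_card_le
        · rw [← e]; exact inter_subset_right
        · omega
      have hle : t ≤ B.card := by
        have := card_le_card (inter_subset_right : A1 ∩ B ⊆ B)
        omega
      exact eq_of_subset_of_card_le hsub (by omega)
    rw [key B1 hB1, key B2 hB2]

lemma one_card_le_two {t s : ℕ} {F G : Finset (Finset (Fin (t + s + 1)))}
    (h : CrossTS (t + s + 1) t s F G) (hG : 2 ≤ G.card) : F.card ≤ 2 := by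
  have hmaps : ∀ A ∈ F, A.card ∈ ({t, t + 1} : Finset ℕ) := by
    intro A hA
    obtain ⟨B, hB⟩ := card_pos.mp (by omega : 0 < G.card)
    have := one_sizes (h A hA B hB)
    simpa using this
  have := card_le_card_of_injOn (fun A : Finset (Fin (t + s + 1)) => A.card) hmaps
    (fun A1 h1 A2 h2 hc => one_two h hG h1 h2 hc)
  refine le_trans this ?_
  exact card_le_two

lemma one_single {t s : ℕ} {F G : Finset (Finset (Fin (t + s + 1)))}
    (h : CrossTS (t + s + 1) t s F G) (hG : G.card = 1) : F.card ≤ max (t + 2) (s + 2) := by
  classical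
  obtain ⟨B, hB⟩ := card_eq_one.mp hG
  have hBG : B ∈ G := by rw [hB]; simp
  rcases F.eq_empty_or_nonempty with h0 | ⟨A0, hA0⟩
  · rw [h0]; simp
  have hs := one_sizes (cross_symm h B hBG A0 hA0)
  rcases hs with hs | hs
  · refine le_trans ?_ (le_max_right _ _)
    have hsub : F ⊆ insert B (Bᶜ.image (fun x => insert x B)) := by
      intro A hA
      have c := h A hA B hBG
      have c' := cross_symm h B hBG A hA
      have := one_tu c' hs
      rcases one_sizes c with hA' | hA'
      · rw [one_tt c hA' hs]; simp
      · rw [mem_insert]; right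
        rw [mem_image]
        have hd : (A \ B).card = 1 := by rw [card_sdiff_of_subset this]; omega
        obtain ⟨x, hx⟩ := card_eq_one.mp hd
        refine ⟨x, ?_, ?_⟩
        · rw [mem_compl]
          have : x ∈ A \ B := by rw [hx]; simp
          exact (mem_sdiff.mp this).2
        · rw [insert_eq, ← hx]
          exact sdiff_union_of_subset this
    refine le_trans (card_le_card hsub) (le_trans (card_insert_le _ _) ?_)
    have := card_image_le (s := Bᶜ) (f := fun x => insert x B)
    rw [card_compl, Fintype.card_fin] at this
    omega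
  · refine le_trans ?_ (le_max_left _ _)
    have hsub : F ⊆ insert B (B.image (fun x => B.erase x)) := by
      intro A hA
      have c := h A hA B hBG
      rcases one_sizes c with hA' | hA'
      · have hAB := one_tu c hA'
        rw [mem_insert]; right
        rw [mem_image]
        have hd : (B \ A).card = 1 := by rw [card_sdiff_of_subset hAB]; omega
        obtain ⟨x, hx⟩ := card_eq_one.mp hd
        refine ⟨x, ?_, ?_⟩
        · have : x ∈ B \ A := by rw [hx]; simp
          exact (mem_sdiff.mp this).1
        · rw [← sdiff_singleton_eq_erase, ← hx]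
          exact Finset.sdiff_sdiff_eq_self hAB
      · rw [one_uu c hA' hs]; simp
    refine le_trans (card_le_card hsub) (le_trans (card_insert_le _ _) ?_)
    have := card_image_le (s := B) (f := fun x => B.erase x)
    omega

/-- the upper bound for the product when `n = t + s + 1` -/
lemma one_upper {t s : ℕ} {F G : Finset (Finset (Fin (t + s + 1)))}
    (h : CrossTS (t + s + 1) t s F G) : F.card * G.card ≤ max 4 (max (t + 2) (s + 2)) := by
  rcases Nat.lt_or_ge F.card 2 with hF | hF
  · rcases Nat.lt_or_ge F.card 1 with hF' | hF'
    · have : F.card = 0 := by omega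
      rw [this]; simp
    · have hF1 : F.card = 1 := by omega
      rw [hF1, one_mul]
      exact le_trans (one_single (cross_symm h) hF1) (le_max_right _ _)
  · rcases Nat.lt_or_ge G.card 2 with hG | hG
    · rcases Nat.lt_or_ge G.card 1 with hG' | hG'
      · have : G.card = 0 := by omega
        rw [this]; simp
      · have hG1 : G.card = 1 := by omega
        rw [hG1, mul_one]
        exact le_trans (one_single h hG1) (le_max_right _ _)
    · have h1 := one_card_le_two h hG
      have h2 := one_card_le_two (cross_symm h) hF
      refine le_trans (Nat.mul_le_mul h1 h2) (le_max_left _ _)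

/-- a star-like pair: `{A}` and all sets `A ∪ {x}` together with `A`, where `|A| = t` -/
lemma one_star (t s : ℕ) : ∃ F G : Finset (Finset (Fin (t + s + 1))), CrossTS (t + s + 1) t s F G ∧
    F.card * G.card = s + 2 := by
  classical
  obtain ⟨A, _, hA⟩ := exists_subset_card_eq
    (show t ≤ (univ : Finset (Fin (t + s + 1))).card by rw [card_univ, Fintype.card_fin]; omega)
  refine ⟨{A}, insert A (Aᶜ.image (fun x => insert x A)), ?_, ?_⟩
  · intro B hB C hC
    rw [mem_singleton] at hB
    subst hB
    rw [mem_insert, mem_image] at hC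
    rcases hC with rfl | ⟨x, hx, rfl⟩
    · simp; omega
    · have e1 : B ∩ insert x B = B := inter_eq_left.mpr (subset_insert x B)
      have e2 : B ∪ insert x B = insert x B := union_eq_right.mpr (subset_insert x B)
      rw [e1, e2, card_insert_of_notMem (mem_compl.mp hx)]
      omega
  · rw [card_singleton, one_mul, card_insert_of_notMem, card_image_of_injOn, card_compl,
      Fintype.card_fin]
    · omega
    · intro x hx y hy hxy
      simp only at hxy
      have : x ∈ insert y A := by rw [← hxy]; exact mem_insert_self x A
      rw [mem_insert] at this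
      rcases this with h | h
      · exact h
      · exact absurd h (mem_compl.mp (mem_coe.mp hx))
    · rw [mem_image]
      rintro ⟨x, hx, h⟩
      exact mem_compl.mp hx (by rw [← h]; exact mem_insert_self x A)

lemma one_costar (t s : ℕ) : ∃ F G : Finset (Finset (Fin (t + s + 1))), CrossTS (t + s + 1) t s F G ∧
    F.card * G.card = t + 2 := by
  classical
  obtain ⟨A, _, hA⟩ := exists_subset_card_eq
    (show t + 1 ≤ (univ : Finset (Fin (t + s + 1))).card by
      rw [card_univ, Fintype.card_fin]; omega)
  refine ⟨{A}, insert A (A.image (fun x => A.erase x)), ?_, ?_⟩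
  · intro B hB C hC
    rw [mem_singleton] at hB
    subst hB
    rw [mem_insert, mem_image] at hC
    rcases hC with rfl | ⟨x, hx, rfl⟩
    · simp; omega
    · have e1 : B ∩ B.erase x = B.erase x := inter_eq_right.mpr (erase_subset x B)
      have e2 : B ∪ B.erase x = B := union_eq_left.mpr (erase_subset x B)
      rw [e1, e2, card_erase_of_mem hx]
      omega
  · rw [card_singleton, one_mul, card_insert_of_notMem, card_image_of_injOn]
    · omega
    · intro x hx y hy hxy
      simp only at hxy
      by_contra hne
      have : x ∈ A.erase y := mem_erase.mpr ⟨hne, mem_coe.mp hx⟩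
      rw [← hxy] at this
      exact (mem_erase.mp this).1 rfl
    · rw [mem_image]
      rintro ⟨x, hx, h⟩
      rw [← h] at hx
      exact (mem_erase.mp hx).1 rfl

lemma one_pair (t s : ℕ) : ∃ F : Finset (Finset (Fin (t + s + 1))), IsTSFamily (t + s + 1) t s F ∧
    F.card = 2 := by
  classical
  obtain ⟨A, _, hA⟩ := exists_subset_card_eq
    (show t ≤ (univ : Finset (Fin (t + s + 1))).card by
      rw [card_univ, Fintype.card_fin]; omega)
  obtain ⟨B, hAB, _, hB⟩ := exists_subsuperset_card_eq (subset_univ A) (show A.card ≤ t + 1 by omega)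
    (show t + 1 ≤ (univ : Finset (Fin (t + s + 1))).card by
      rw [card_univ, Fintype.card_fin]; omega)
  refine ⟨{A, B}, ?_, ?_⟩
  · intro C hC D hD
    simp only [mem_insert, mem_singleton] at hC hD
    rcases hC with rfl | rfl <;> rcases hD with rfl | rfl
    · simp; omega
    · rw [inter_eq_left.mpr hAB, union_eq_right.mpr hAB]; omega
    · rw [inter_eq_right.mpr hAB, union_eq_left.mpr hAB]; omega
    · simp; omega
  · rw [card_pair]
    intro e
    rw [e] at hA
    omega

lemma mTS_one (t s : ℕ) : mTS (t + s + 1) t s = 2 := by
  apply le_antisymm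
  · obtain ⟨F, hF, hc⟩ := mTS_attained (t + s + 1) t s
    rw [← hc]
    by_contra h
    have := one_card_le_two (F := F) (G := F) hF (by omega)
    omega
  · obtain ⟨F, hF, hc⟩ := one_pair t s
    rw [← hc]
    exact le_mTS F hF

/-- the maximum of `|F||G|` when `n = t + s + 1` -/
theorem one_max (t s : ℕ) : IsGreatest {p : ℕ | ∃ F G : Finset (Finset (Fin (t + s + 1))),
    CrossTS (t + s + 1) t s F G ∧ F.card * G.card = p} (max 4 (max (t + 2) (s + 2))) := by
  constructor
  · rcases le_total 4 (max (t + 2) (s + 2)) with h | h
    · rw [max_eq_right h]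
      rcases le_total (t + 2) (s + 2) with h' | h'
      · rw [max_eq_right h']; exact one_star t s
      · rw [max_eq_left h']; exact one_costar t s
    · rw [max_eq_left h]
      obtain ⟨F, hF, hc⟩ := one_pair t s
      exact ⟨F, F, hF, by rw [hc]⟩
  · rintro p ⟨F, G, h, rfl⟩
    exact one_upper h

end Pool.Agent.H23.TS
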